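import Mathlib

/-!
# N bodies in dimension `d`: basic definitions (project HDN, MP_73d3cc_mp)
-/

open MeasureTheory Set Filter Topology
open scoped NNReal ENNReal RealInnerProductSpace

namespace HDN

/-- physical space `ℝ^d` -/
abbrev Sp (d : ℕ) := EuclideanSpace ℝ (Fin d)

/-- configurations of `N` bodies in `ℝ^d` -/
abbrev Cf (N d : ℕ) := Fin N → Sp d

/-- phase space (positions, velocities) -/
abbrev Ph (N d : ℕ) := Cf N d × Cf N d

variable {N d : ℕ}

/-- no two bodies are at the same place -/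
def Free (q : Cf N d) : Prop := ∀ a b, a ≠ b → q a ≠ q b

/-- Newtonian acceleration of body `a`:
`∑_{b ≠ a} m_b (q_b - q_a) / |q_b - q_a| ^ 3`. -/
noncomputable def acc (m : Fin N → ℝ) (q : Cf N d) : Cf N d := fun a =>
  ∑ b ∈ Finset.univ.erase a, (m b / ‖q b - q a‖ ^ 3) • (q b - q a)

/-- the vector field of the N-body problem -/
noncomputable def nfield (m : Fin N → ℝ) (x : Ph N d) : Ph N d := (x.2, acc m x.1)

/-- collision-free states -/
def FreeSet (N d : ℕ) : Set (Ph N d) := {x | Free x.1}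

/-- `γ` is a solution of `x' = f x` in `Ω` at all times of `S`. -/
def SolOn {V : Type*} [NormedAddCommGroup V] [NormedSpace ℝ V] (f : V → V) (Ω : Set V)
    (γ : ℝ → V) (S : Set ℝ) : Prop :=
  ∀ t ∈ S, γ t ∈ Ω ∧ HasDerivAt γ (f (γ t)) t

/-- the initial conditions (without collision) whose solution does not exist for all times -/
def incomplete (m : Fin N → ℝ) : Set (Ph N d) :=
  {x | Free x.1 ∧ ¬ ∃ γ : ℝ → Ph N d, γ 0 = x ∧ SolOn (nfield m) (FreeSet N d) γ univ}

/-- the points from which `C` is reached forward in time inside `Ω` -/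
def Reach {V : Type*} [NormedAddCommGroup V] [NormedSpace ℝ V] (f : V → V) (Ω C : Set V) : Set V :=
  {x | ∃ s ≥ 0, ∃ ζ : ℝ → V, ζ 0 = x ∧ SolOn f Ω ζ (Icc 0 s) ∧ ζ s ∈ C}

/-- a bounded globally Lipschitz field `g` agreeing with `f` on `K`, with its global flow `Φ` -/
structure Flow {V : Type*} [NormedAddCommGroup V] [NormedSpace ℝ V] (f : V → V) (K : Set V) where
  g : V → V
  L : ℝ≥0
  C : ℝ≥0
  lip : LipschitzWith L g
  bdd : ∀ x, ‖g x‖ ≤ C
  eqOn : EqOn g f K
  Φ : ℝ → V → V
  zero : ∀ x, Φ 0 x = x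
  deriv : ∀ x t, HasDerivAt (fun s => Φ s x) (g (Φ t x)) t

end HDN
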