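import Mathlib
import Pool.Agent.HDN.Defs

/-!
# Physical quantities (project HDN)
-/

open MeasureTheory Set Filter Topology Metric
open scoped NNReal ENNReal RealInnerProductSpace

namespace HDN

variable {N d : ℕ}

/-- kinetic energy -/
noncomputable def Kin (m : Fin N → ℝ) (v : Cf N d) : ℝ := (1 / 2) * ∑ a, m a * ‖v a‖ ^ 2

/-- minus the potential energy -/
noncomputable def Pot (m : Fin N → ℝ) (q : Cf N d) : ℝ :=
  (1 / 2) * ∑ a, ∑ b ∈ Finset.univ.erase a, m a * m b / ‖q b - q a‖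

/-- total energy -/
noncomputable def Ham (m : Fin N → ℝ) (x : Ph N d) : ℝ := Kin m x.2 - Pot m x.1

/-- the bivector `x ∧ w` as a skew operator -/
noncomputable def wedge (x w : Sp d) : Sp d →L[ℝ] Sp d :=
  (innerSL ℝ w).smulRight x - (innerSL ℝ x).smulRight w

@[simp] theorem wedge_apply (x w z : Sp d) : wedge x w z = ⟪w, z⟫ • x - ⟪x, z⟫ • w := by
  simp [wedge]

/-- the angular momentum with respect to the centre of mass, as a skew operator -/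
noncomputable def Lop (m : Fin N → ℝ) (x : Ph N d) : Sp d →L[ℝ] Sp d :=
  ∑ a, m a • wedge (x.1 a) (x.2 a) -
    (∑ a, m a)⁻¹ • wedge (∑ a, m a • x.1 a) (∑ a, m a • x.2 a)

/-- rank of an operator -/
noncomputable def lrank (A : Sp d →L[ℝ] Sp d) : ℕ :=
  Module.finrank ℝ (LinearMap.range (A : Sp d →ₗ[ℝ] Sp d))

/-- centre of mass of the pair `a, b` -/
noncomputable def cm (m : Fin N → ℝ) (a b : Fin N) (q : Cf N d) : Sp d :=
  (m a + m b)⁻¹ • (m a • q a + m b • q b)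

/-- the other bodies -/
def others (a b : Fin N) : Finset (Fin N) := (Finset.univ.erase a).erase b

/-- kinetic energy of the system in which `a, b` are replaced by their centre of mass -/
noncomputable def Kred (m : Fin N → ℝ) (a b : Fin N) (v : Cf N d) : ℝ :=
  (1 / 2) * ((m a + m b) * ‖cm m a b v‖ ^ 2) + (1 / 2) * ∑ c ∈ others a b, m c * ‖v c‖ ^ 2

/-- potential of the system in which `a, b` are replaced by their centre of mass -/
noncomputable def Ured (m : Fin N → ℝ) (a b : Fin N) (q : Cf N d) : ℝ :=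
  ∑ c ∈ others a b, (m a + m b) * m c / ‖q c - cm m a b q‖ +
    (1 / 2) * ∑ c ∈ others a b, ∑ e ∈ (others a b).erase c, m c * m e / ‖q e - q c‖

/-- energy of the reduced system -/
noncomputable def Xred (m : Fin N → ℝ) (a b : Fin N) (x : Ph N d) : ℝ :=
  Kred m a b x.2 - Ured m a b x.1

/-- `x / |x| ^ 3` -/
noncomputable def grav (x : Sp d) : Sp d := (‖x‖ ^ 3)⁻¹ • x

/-- replace the bodies `a, b` by their centre of mass -/
noncomputable def mrg (m : Fin N → ℝ) (a b : Fin N) (q : Cf N d) : Cf N d :=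
  fun i => if i = a ∨ i = b then cm m a b q else q i

/-- centre of mass of three bodies -/
noncomputable def cm3 (m : Fin N → ℝ) (a b c : Fin N) (q : Cf N d) : Sp d :=
  (m a + m b + m c)⁻¹ • (m a • q a + m b • q b + m c • q c)

/-- replace the bodies `a, b, c` by their centre of mass -/
noncomputable def mrg3 (m : Fin N → ℝ) (a b c : Fin N) (q : Cf N d) : Cf N d :=
  fun i => if i = a ∨ i = b ∨ i = c then cm3 m a b c q else q i

/-- the basic inequality: two encounters cannot be tight at the same time -/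
def StarAt (m : Fin N → ℝ) (c0 : ℝ) (a b : Fin N) (x : Ph N d) : Prop :=
  (∀ c ∈ others a b, c0 ≤ ‖x.1 a - x.1 b‖ * ‖x.2 a - x.2 b‖ +
      ‖x.1 c - cm m a b x.1‖ * ‖x.2 c - cm m a b x.2‖) ∧
  (∀ c ∈ others a b, ∀ e ∈ others a b, c ≠ e → c0 ≤ ‖x.1 a - x.1 b‖ * ‖x.2 a - x.2 b‖ +
      ‖x.1 c - x.1 e‖ * ‖x.2 c - x.2 e‖)

/-- the estimates for a state `x` whose closest pair is `a, b` -/
def Est (m : Fin N → ℝ) (A δ : ℝ) (a b : Fin N) (x : Ph N d) : Prop :=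
  ‖x.1 a - x.1 b‖ * (Kred m a b x.2 + 1) ≤ A ∧
  ‖x.1 a - x.1 b‖ * ‖x.2 a - x.2 b‖ ^ 2 ≤ A ∧
  (∀ c ∈ others a b, δ ≤ √(Kred m a b x.2 + 1) * ‖x.1 c - cm m a b x.1‖ ∧
    4 * ‖x.1 a - x.1 b‖ ≤ ‖x.1 c - cm m a b x.1‖ ∧
    2 * ‖x.1 a - x.1 b‖ ≤ ‖x.1 c - x.1 a‖ ∧ 2 * ‖x.1 a - x.1 b‖ ≤ ‖x.1 c - x.1 b‖) ∧
  (∀ c ∈ others a b, ∀ e ∈ others a b, c ≠ e →
    δ ≤ √(Kred m a b x.2 + 1) * ‖x.1 c - x.1 e‖ ∧
    2 * ‖x.1 a - x.1 b‖ ≤ ‖x.1 c - x.1 e‖)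

/-- at time `T` the solution `γ` ends in a collision of exactly the two bodies `a` and `b`
(quantitative form) -/
def BinEnd (m : Fin N → ℝ) (a b : Fin N) (γ : ℝ → Ph N d) (T : ℝ) : Prop :=
  ∃ t₀ ∈ Ico 0 T, ∃ δ > 0, ∃ C, (∀ t ∈ Ico t₀ T,
    (∀ i j, i ≠ j → ¬ (i = a ∧ j = b) → ¬ (i = b ∧ j = a) →
      δ ≤ ‖(γ t).1 i - (γ t).1 j‖) ∧
    (∀ i, ‖(γ t).1 i‖ ≤ C) ∧ (∀ c ∈ others a b, ‖(γ t).2 c‖ ≤ C) ∧ ‖cm m a b (γ t).2‖ ≤ C ∧
    ‖(γ t).1 a - (γ t).1 b‖ * ‖(γ t).2 a - (γ t).2 b‖ ^ 2 ≤ C ∧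
    |(1 / 2) * ‖(γ t).2 a - (γ t).2 b‖ ^ 2 - (m a + m b) / ‖(γ t).1 a - (γ t).1 b‖| ≤ C) ∧
    Tendsto (fun t => ‖(γ t).1 a - (γ t).1 b‖) (𝓝[<] T) (𝓝 0)

end HDN
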