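import Mathlib
import Pool.Agent.HDN.Phys

/-!
# Kinetic energy of the reduced system (project HDN)

`(1/2) m_c ‖v_c‖² ≤ Kred` for `c ∈ others a b`, `(1/2) (m_a + m_b) ‖cm v‖² ≤ Kred`;
`cm q - q_a = (m_b / (m_a + m_b)) (q_b - q_a)`.
-/

open MeasureTheory Set Filter Topology Metric
open scoped NNReal ENNReal RealInnerProductSpace

namespace HDN

variable {N d : ℕ} {m : Fin N → ℝ}

private theorem singA_mem_others {a b i : Fin N} (h1 : i ≠ a) (h2 : i ≠ b) : i ∈ others a b := by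
  unfold others
  rw [Finset.mem_erase, Finset.mem_erase]
  exact ⟨h2, h1, Finset.mem_univ i⟩

private theorem singA_pair {M1 M2 : ℝ} (h1 : 0 < M1) (h2 : 0 < M2) (x y : Sp d) :
    (M1 + M2) * ‖(M1 + M2)⁻¹ • (M1 • x + M2 • y)‖ ^ 2 + M1 * M2 / (M1 + M2) * ‖x - y‖ ^ 2 =
      M1 * ‖x‖ ^ 2 + M2 * ‖y‖ ^ 2 := by
  have hpos : 0 < M1 + M2 := by positivity
  rw [norm_smul, mul_pow, norm_inv, Real.norm_of_nonneg hpos.le, norm_add_sq_real,
    norm_sub_sq_real, norm_smul, norm_smul, Real.norm_of_nonneg h1.le, Real.norm_of_nonneg h2.le,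
    real_inner_smul_left, real_inner_smul_right]
  field_simp
  ring

theorem kin_split (hm : ∀ i, 0 < m i) {a b : Fin N} (hab : a ≠ b) (v : Cf N d) :
    Kin m v = Kred m a b v + (1 / 2) * (m a * m b / (m a + m b)) * ‖v a - v b‖ ^ 2 := by
  have h1 : ∑ i, m i * ‖v i‖ ^ 2 =
      m a * ‖v a‖ ^ 2 + (m b * ‖v b‖ ^ 2 + ∑ c ∈ others a b, m c * ‖v c‖ ^ 2) := by
    unfold others
    rw [Finset.add_sum_erase _ (fun c => m c * ‖v c‖ ^ 2)
        (Finset.mem_erase.2 ⟨hab.symm, Finset.mem_univ b⟩),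
      Finset.add_sum_erase _ (fun c => m c * ‖v c‖ ^ 2) (Finset.mem_univ a)]
  have h2 := singA_pair (hm a) (hm b) (v a) (v b)
  unfold Kin Kred cm
  rw [h1]
  linarith

private theorem singA_kred_nonneg (hm : ∀ i, 0 < m i) (a b : Fin N) (v : Cf N d) :
    0 ≤ ∑ c ∈ others a b, m c * ‖v c‖ ^ 2 :=
  Finset.sum_nonneg fun c _ => mul_nonneg (hm c).le (by positivity)

/-- `‖v_c - v_e‖` and `‖v_c - cm v‖` are bounded by `C √Kred` -/
theorem kred_ge (hm : ∀ i, 0 < m i) :
    ∃ C > 0, ∀ (v : Cf N d) (a b : Fin N), a ≠ b →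
      (∀ c ∈ others a b, ‖v c‖ ≤ C * √(Kred m a b v)) ∧ ‖cm m a b v‖ ≤ C * √(Kred m a b v) ∧
      (∀ c ∈ others a b, ‖v c - cm m a b v‖ ≤ C * √(Kred m a b v)) ∧
      (∀ c ∈ others a b, ∀ e ∈ others a b, ‖v c - v e‖ ≤ C * √(Kred m a b v)) := by
  obtain ⟨δ, hδ, hδm⟩ : ∃ δ > 0, ∀ i, δ ≤ m i := by
    rcases isEmpty_or_nonempty (Fin N) with hN | hN
    · exact ⟨1, one_pos, fun i => (hN.false i).elim⟩
    · obtain ⟨i0, hi0⟩ := Finite.exists_min m
      exact ⟨m i0, hm i0, hi0⟩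
  have hC : 0 < √(2 / δ) := Real.sqrt_pos.2 (by positivity)
  refine ⟨2 * √(2 / δ), by positivity, ?_⟩
  intro v a b hab
  have hK0 : 0 ≤ Kred m a b v := by
    unfold Kred
    have h1 := singA_kred_nonneg hm a b v
    have h2 : 0 ≤ (m a + m b) * ‖cm m a b v‖ ^ 2 :=
      mul_nonneg (add_pos (hm a) (hm b)).le (by positivity)
    linarith
  have key : ∀ z : Sp d, δ * ‖z‖ ^ 2 ≤ 2 * Kred m a b v → ‖z‖ ≤ √(2 / δ) * √(Kred m a b v) := by
    intro z hz
    rw [← Real.sqrt_mul (by positivity)]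
    apply Real.le_sqrt_of_sq_le
    rw [div_mul_eq_mul_div, le_div_iff₀ hδ]
    linarith
  have h1 : ∀ c ∈ others a b, ‖v c‖ ≤ √(2 / δ) * √(Kred m a b v) := by
    intro c hc
    apply key
    have h2 : m c * ‖v c‖ ^ 2 ≤ ∑ c ∈ others a b, m c * ‖v c‖ ^ 2 :=
      Finset.single_le_sum (f := fun c => m c * ‖v c‖ ^ 2)
        (fun c _ => mul_nonneg (hm c).le (by positivity)) hc
    have h3 : δ * ‖v c‖ ^ 2 ≤ m c * ‖v c‖ ^ 2 :=
      mul_le_mul_of_nonneg_right (hδm c) (by positivity)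
    have h4 : 0 ≤ (m a + m b) * ‖cm m a b v‖ ^ 2 :=
      mul_nonneg (add_pos (hm a) (hm b)).le (by positivity)
    unfold Kred
    linarith
  have h2 : ‖cm m a b v‖ ≤ √(2 / δ) * √(Kred m a b v) := by
    apply key
    have h3 := singA_kred_nonneg hm a b v
    have h4 : δ * ‖cm m a b v‖ ^ 2 ≤ (m a + m b) * ‖cm m a b v‖ ^ 2 := by
      apply mul_le_mul_of_nonneg_right _ (by positivity)
      have := hδm a
      have := hm b
      linarith
    unfold Kred
    linarith
  have hnn : 0 ≤ √(2 / δ) * √(Kred m a b v) := by positivity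
  refine ⟨fun c hc => ?_, ?_, fun c hc => ?_, fun c hc e he => ?_⟩
  · have := h1 c hc
    nlinarith
  · nlinarith
  · have h3 := norm_sub_le (v c) (cm m a b v)
    have h4 := h1 c hc
    nlinarith
  · have h3 := norm_sub_le (v c) (v e)
    have h4 := h1 c hc
    have h5 := h1 e he
    nlinarith

theorem cm_dist (hm : ∀ i, 0 < m i) {a b : Fin N} (hab : a ≠ b) (q : Cf N d) :
    ‖cm m a b q - q a‖ ≤ ‖q a - q b‖ ∧ ‖cm m a b q - q b‖ ≤ ‖q a - q b‖ := by
  have ha := hm a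
  have hb := hm b
  have hpos : 0 < m a + m b := by positivity
  have hne : m a + m b ≠ 0 := hpos.ne'
  have e1 : cm m a b q - q a = (m b / (m a + m b)) • (q b - q a) := by
    unfold cm
    match_scalars <;> field_simp <;> ring
  have e2 : cm m a b q - q b = (m a / (m a + m b)) • (q a - q b) := by
    unfold cm
    match_scalars <;> field_simp <;> ring
  constructor
  · rw [e1, norm_smul, norm_sub_rev (q b) (q a), Real.norm_of_nonneg (by positivity)]
    apply mul_le_of_le_one_left (norm_nonneg _)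
    rw [div_le_one hpos]
    linarith
  · rw [e2, norm_smul, Real.norm_of_nonneg (by positivity)]
    apply mul_le_of_le_one_left (norm_nonneg _)
    rw [div_le_one hpos]
    linarith

/-- from `Est`: the pair `a, b` is at most half as far apart as any other pair -/
theorem est_sep {A δ : ℝ} {a b : Fin N} (hab : a ≠ b) {x : Ph N d} (h : Est m A δ a b x)
    {i j : Fin N} (hij : i ≠ j) (h1 : ¬ (i = a ∧ j = b)) (h2 : ¬ (i = b ∧ j = a)) :
    2 * ‖x.1 a - x.1 b‖ ≤ ‖x.1 i - x.1 j‖ := by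
  obtain ⟨_, _, h3, h4⟩ := h
  by_cases hia : i = a
  · have hjb : j ≠ b := fun hj => h1 ⟨hia, hj⟩
    have hja : j ≠ a := fun hj => hij (hia.trans hj.symm)
    have := (h3 j (singA_mem_others hja hjb)).2.2.1
    rw [hia, norm_sub_rev (x.1 a) (x.1 j)]
    exact this
  · by_cases hib : i = b
    · have hja : j ≠ a := fun hj => h2 ⟨hib, hj⟩
      have hjb : j ≠ b := fun hj => hij (hib.trans hj.symm)
      have := (h3 j (singA_mem_others hja hjb)).2.2.2
      rw [hib, norm_sub_rev (x.1 b) (x.1 j)]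
      exact this
    · have hi := singA_mem_others hia hib
      by_cases hja : j = a
      · rw [hja]
        exact (h3 i hi).2.2.1
      · by_cases hjb : j = b
        · rw [hjb]
          exact (h3 i hi).2.2.2
        · exact (h4 i hi j (singA_mem_others hja hjb) hij).2

end HDN
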