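import Mathlib
import Pool.Agent.HDN.Phys

/-!
# The tidal estimate (project HDN)

`grav x = ‖x‖⁻³ x`. Second order Taylor estimate with an algebraic proof: with `a = ‖x‖`,
`b = ‖y‖`, `h = x - y`,
`grav x - grav y - (‖y‖⁻³ h - 3 ⟪y, h⟫ ‖y‖⁻⁵ y)
  = (a⁻³ - b⁻³ + 3 ⟪y,h⟫ b⁻⁵) x - 3 ⟪y,h⟫ b⁻⁵ h`, `2 ⟪y,h⟫ = a² - b² - ‖h‖²` and
`a⁻³ - b⁻³ + (3/2) b⁻⁵ (a² - b²) = (a - b)² (3 a³ + 6 a² b + 4 a b² + 2 b³) / (2 a³ b⁵)`.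
With `‖h‖ ≤ b / 2` one has `b / 2 ≤ a ≤ 3 b / 2`, `|a - b| ≤ ‖h‖`, so the whole error is
`≤ C ‖h‖² / b⁴` (any constant `C ≤ 1000` is fine).
-/

open MeasureTheory Set Filter Topology Metric
open scoped NNReal ENNReal RealInnerProductSpace

namespace HDN

variable {N d : ℕ}

theorem grav_taylor {x y : Sp d} (hy : y ≠ 0) (hxy : 2 * ‖x - y‖ ≤ ‖y‖) :
    ‖grav x - grav y - ((‖y‖ ^ 3)⁻¹ • (x - y) - (3 * ⟪y, x - y⟫ * (‖y‖ ^ 5)⁻¹) • y)‖ ≤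
      1000 * (‖x - y‖ ^ 2 / ‖y‖ ^ 4) := by
  have hb : 0 < ‖y‖ := norm_pos_iff.mpr hy
  have h1 : ‖x‖ ≤ ‖y‖ + ‖x - y‖ := by
    have := norm_add_le y (x - y)
    simpa using this
  have h2 : ‖y‖ ≤ ‖x‖ + ‖x - y‖ := by
    have := norm_sub_le x (x - y)
    simpa using this
  have hin : 2 * ⟪y, x - y⟫ = ‖x‖ ^ 2 - ‖y‖ ^ 2 - ‖x - y‖ ^ 2 := by
    have := norm_add_sq_real y (x - y)
    rw [show y + (x - y) = x by abel] at this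
    linarith
  have ha : 0 < ‖x‖ := by nlinarith
  set a := ‖x‖ with hadef
  set b := ‖y‖ with hbdef
  set r := ‖x - y‖ with hrdef
  set p := ⟪y, x - y⟫ with hpdef
  have hr0 : 0 ≤ r := norm_nonneg _
  have hp : |p| ≤ b * r := abs_real_inner_le_norm y (x - y)
  have key : grav x - grav y - ((b ^ 3)⁻¹ • (x - y) - (3 * p * (b ^ 5)⁻¹) • y)
      = ((a ^ 3)⁻¹ - (b ^ 3)⁻¹ + 3 * p * (b ^ 5)⁻¹) • x
        - (3 * p * (b ^ 5)⁻¹) • (x - y) := by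
    simp only [grav]
    rw [← hadef, ← hbdef]
    module
  rw [key]
  have hcoef : (a ^ 3)⁻¹ - (b ^ 3)⁻¹ + 3 * p * (b ^ 5)⁻¹
      = (a - b) ^ 2 * (3 * a ^ 3 + 6 * a ^ 2 * b + 4 * a * b ^ 2 + 2 * b ^ 3)
          / (2 * a ^ 3 * b ^ 5) - 3 / 2 * r ^ 2 * (b ^ 5)⁻¹ := by
    have hp' : p = (a ^ 2 - b ^ 2 - r ^ 2) / 2 := by linarith
    rw [hp']
    field_simp
    ring
  have hab : |a - b| ≤ r := by
    rw [abs_le]; constructor <;> linarith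
  have hab2 : (a - b) ^ 2 ≤ r ^ 2 := by
    rw [← sq_abs (a - b)]
    exact pow_le_pow_left₀ (abs_nonneg _) hab 2
  have ha1 : b / 2 ≤ a := by linarith
  have ha2 : a ≤ 3 / 2 * b := by linarith
  have hA0 : 0 ≤ (a - b) ^ 2 * (3 * a ^ 3 + 6 * a ^ 2 * b + 4 * a * b ^ 2 + 2 * b ^ 3)
      / (2 * a ^ 3 * b ^ 5) := by positivity
  have hA : (a - b) ^ 2 * (3 * a ^ 3 + 6 * a ^ 2 * b + 4 * a * b ^ 2 + 2 * b ^ 3)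
      / (2 * a ^ 3 * b ^ 5) * a ≤ 64 * (r ^ 2 / b ^ 4) := by
    have hnum : 3 * a ^ 3 + 6 * a ^ 2 * b + 4 * a * b ^ 2 + 2 * b ^ 3 ≤ 32 * b ^ 3 := by
      have e2 : a ^ 2 ≤ (3 / 2 * b) ^ 2 := pow_le_pow_left₀ ha.le ha2 2
      have e3 : a ^ 3 ≤ (3 / 2 * b) ^ 3 := pow_le_pow_left₀ ha.le ha2 3
      have e4 : a ^ 2 * b ≤ (3 / 2 * b) ^ 2 * b := mul_le_mul_of_nonneg_right e2 hb.le
      have e5 : a * b ^ 2 ≤ (3 / 2 * b) * b ^ 2 := mul_le_mul_of_nonneg_right ha2 (sq_nonneg b)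
      have hb3 : 0 < b ^ 3 := by positivity
      nlinarith
    have e1 : (b / 2) ^ 2 ≤ a ^ 2 := pow_le_pow_left₀ (by positivity) ha1 2
    calc (a - b) ^ 2 * (3 * a ^ 3 + 6 * a ^ 2 * b + 4 * a * b ^ 2 + 2 * b ^ 3)
          / (2 * a ^ 3 * b ^ 5) * a
        ≤ r ^ 2 * (32 * b ^ 3) / (2 * a ^ 3 * b ^ 5) * a := by gcongr
      _ = 16 * r ^ 2 / (a ^ 2 * b ^ 2) := by field_simp; ring
      _ ≤ 16 * r ^ 2 / ((b / 2) ^ 2 * b ^ 2) := by gcongr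
      _ = 64 * (r ^ 2 / b ^ 4) := by field_simp; ring
  have hB : 3 / 2 * r ^ 2 * (b ^ 5)⁻¹ * a ≤ 9 / 4 * (r ^ 2 / b ^ 4) := by
    calc 3 / 2 * r ^ 2 * (b ^ 5)⁻¹ * a ≤ 3 / 2 * r ^ 2 * (b ^ 5)⁻¹ * (3 / 2 * b) := by gcongr
      _ = 9 / 4 * (r ^ 2 / b ^ 4) := by field_simp; ring
  have hC : |3 * p * (b ^ 5)⁻¹| * r ≤ 3 * (r ^ 2 / b ^ 4) := by
    rw [abs_mul, abs_mul, abs_of_pos (show (0 : ℝ) < 3 by norm_num),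
      abs_of_pos (show 0 < (b ^ 5)⁻¹ by positivity)]
    calc 3 * |p| * (b ^ 5)⁻¹ * r ≤ 3 * (b * r) * (b ^ 5)⁻¹ * r := by gcongr
      _ = 3 * (r ^ 2 / b ^ 4) := by field_simp
  have hnn : 0 ≤ r ^ 2 / b ^ 4 := by positivity
  calc ‖((a ^ 3)⁻¹ - (b ^ 3)⁻¹ + 3 * p * (b ^ 5)⁻¹) • x - (3 * p * (b ^ 5)⁻¹) • (x - y)‖
      ≤ ‖((a ^ 3)⁻¹ - (b ^ 3)⁻¹ + 3 * p * (b ^ 5)⁻¹) • x‖
        + ‖(3 * p * (b ^ 5)⁻¹) • (x - y)‖ := norm_sub_le _ _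
    _ = |(a ^ 3)⁻¹ - (b ^ 3)⁻¹ + 3 * p * (b ^ 5)⁻¹| * a + |3 * p * (b ^ 5)⁻¹| * r := by
        rw [norm_smul, norm_smul, Real.norm_eq_abs, Real.norm_eq_abs]
    _ ≤ (64 * (r ^ 2 / b ^ 4) + 9 / 4 * (r ^ 2 / b ^ 4)) + 3 * (r ^ 2 / b ^ 4) := by
        refine add_le_add ?_ hC
        rw [hcoef]
        calc |(a - b) ^ 2 * (3 * a ^ 3 + 6 * a ^ 2 * b + 4 * a * b ^ 2 + 2 * b ^ 3)
              / (2 * a ^ 3 * b ^ 5) - 3 / 2 * r ^ 2 * (b ^ 5)⁻¹| * a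
            ≤ ((a - b) ^ 2 * (3 * a ^ 3 + 6 * a ^ 2 * b + 4 * a * b ^ 2 + 2 * b ^ 3)
              / (2 * a ^ 3 * b ^ 5) + 3 / 2 * r ^ 2 * (b ^ 5)⁻¹) * a := by
              refine mul_le_mul_of_nonneg_right ?_ ha.le
              have hB0 : 0 ≤ 3 / 2 * r ^ 2 * (b ^ 5)⁻¹ := by positivity
              rw [abs_le]; constructor <;> linarith
          _ ≤ 64 * (r ^ 2 / b ^ 4) + 9 / 4 * (r ^ 2 / b ^ 4) := by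
              rw [add_mul]; exact add_le_add hA hB
    _ ≤ 1000 * (r ^ 2 / b ^ 4) := by linarith

end HDN
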