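import Mathlib
import Pool.Agent.HDN.Phys
import Pool.Agent.HDN.TidalA

/-!
# The tidal estimate (project HDN)

Apply `grav_taylor` twice with `y` and `h = -β ρ`, `h = α ρ` where `α = μ₁/(μ₁+μ₂)`,
`β = μ₂/(μ₁+μ₂)`; the first order terms cancel because `μ₁ β = μ₂ α`.
-/

open MeasureTheory Set Filter Topology Metric
open scoped NNReal ENNReal RealInnerProductSpace

namespace HDN

variable {N d : ℕ}

/-- tidal force of a body at `y` (relative to the centre of mass) on a pair with separation `ρ` -/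
theorem tidal {μ₁ μ₂ : ℝ} (h1 : 0 < μ₁) (h2 : 0 < μ₂) {y ρ : Sp d} (hy : y ≠ 0)
    (hρ : 4 * ‖ρ‖ ≤ ‖y‖) :
    ‖μ₁ • grav (y - (μ₂ / (μ₁ + μ₂)) • ρ) + μ₂ • grav (y + (μ₁ / (μ₁ + μ₂)) • ρ) -
      (μ₁ + μ₂) • grav y‖ ≤ 1000 * (μ₁ + μ₂) * (‖ρ‖ ^ 2 / ‖y‖ ^ 4) := by
  set β := μ₂ / (μ₁ + μ₂) with hβ
  set α := μ₁ / (μ₁ + μ₂) with hα
  have hs : 0 < μ₁ + μ₂ := by positivity
  have hβ0 : 0 ≤ β := by positivity
  have hα0 : 0 ≤ α := by positivity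
  have hβ1 : β ≤ 1 := by rw [hβ, div_le_one hs]; linarith
  have hα1 : α ≤ 1 := by rw [hα, div_le_one hs]; linarith
  have hcancel : μ₁ * β = μ₂ * α := by rw [hβ, hα]; field_simp
  have hn := norm_nonneg ρ
  have e1 : ‖(y - β • ρ) - y‖ ≤ ‖ρ‖ := by
    rw [show (y - β • ρ) - y = -(β • ρ) by abel, norm_neg, norm_smul, Real.norm_eq_abs,
      abs_of_nonneg hβ0]
    nlinarith
  have e2 : ‖(y + α • ρ) - y‖ ≤ ‖ρ‖ := by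
    rw [show (y + α • ρ) - y = α • ρ by abel, norm_smul, Real.norm_eq_abs,
      abs_of_nonneg hα0]
    nlinarith
  have t1 := grav_taylor (x := y - β • ρ) hy (by nlinarith [norm_nonneg ((y - β • ρ) - y)])
  have t2 := grav_taylor (x := y + α • ρ) hy (by nlinarith [norm_nonneg ((y + α • ρ) - y)])
  set T1 := grav (y - β • ρ) - grav y - ((‖y‖ ^ 3)⁻¹ • ((y - β • ρ) - y) -
    (3 * ⟪y, (y - β • ρ) - y⟫ * (‖y‖ ^ 5)⁻¹) • y) with hT1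
  set T2 := grav (y + α • ρ) - grav y - ((‖y‖ ^ 3)⁻¹ • ((y + α • ρ) - y) -
    (3 * ⟪y, (y + α • ρ) - y⟫ * (‖y‖ ^ 5)⁻¹) • y) with hT2
  have hy4 : 0 < ‖y‖ ^ 4 := by positivity
  have b1 : ‖T1‖ ≤ 1000 * (‖ρ‖ ^ 2 / ‖y‖ ^ 4) := by
    refine t1.trans ?_
    gcongr
  have b2 : ‖T2‖ ≤ 1000 * (‖ρ‖ ^ 2 / ‖y‖ ^ 4) := by
    refine t2.trans ?_
    gcongr
  have key : μ₁ • grav (y - β • ρ) + μ₂ • grav (y + α • ρ) - (μ₁ + μ₂) • grav y =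
      μ₁ • T1 + μ₂ • T2 := by
    have s1 : (y - β • ρ) - y = (-β) • ρ := by rw [neg_smul]; abel
    have s2 : (y + α • ρ) - y = α • ρ := by abel
    rw [hT1, hT2, s1, s2, inner_smul_right, inner_smul_right]
    have c1 : μ₁ • ((‖y‖ ^ 3)⁻¹ • ((-β) • ρ)) + μ₂ • ((‖y‖ ^ 3)⁻¹ • (α • ρ)) = 0 := by
      simp only [smul_smul]
      rw [← add_smul]
      have : μ₁ * ((‖y‖ ^ 3)⁻¹ * -β) + μ₂ * ((‖y‖ ^ 3)⁻¹ * α) = 0 := by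
        linear_combination (-(‖y‖ ^ 3)⁻¹) * hcancel
      rw [this, zero_smul]
    have c2 : μ₁ • ((3 * (-β * ⟪y, ρ⟫) * (‖y‖ ^ 5)⁻¹) • y) +
        μ₂ • ((3 * (α * ⟪y, ρ⟫) * (‖y‖ ^ 5)⁻¹) • y) = 0 := by
      simp only [smul_smul]
      rw [← add_smul]
      have : μ₁ * (3 * (-β * ⟪y, ρ⟫) * (‖y‖ ^ 5)⁻¹) + μ₂ * (3 * (α * ⟪y, ρ⟫) * (‖y‖ ^ 5)⁻¹) = 0 := by
        linear_combination (-(3 * ⟪y, ρ⟫ * (‖y‖ ^ 5)⁻¹)) * hcancel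
      rw [this, zero_smul]
    rw [add_smul]
    simp only [smul_sub]
    have c3 : ∀ a b c e f g i j k l : Sp d, i + j = 0 → k + l = 0 →
        a + b - (c + e) = a - c - (i - k) + (b - e - (j - l)) := by
      intro a b c e f g i j k l h1 h2
      have h3 : a - c - (i - k) + (b - e - (j - l)) = a + b - (c + e) - (i + j) + (k + l) := by abel
      rw [h3, h1, h2]; abel
    exact c3 _ _ _ _ 0 0 _ _ _ _ c1 c2
  rw [key]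
  calc ‖μ₁ • T1 + μ₂ • T2‖ ≤ ‖μ₁ • T1‖ + ‖μ₂ • T2‖ := norm_add_le _ _
    _ = μ₁ * ‖T1‖ + μ₂ * ‖T2‖ := by
      rw [norm_smul, norm_smul, Real.norm_eq_abs, Real.norm_eq_abs, abs_of_pos h1, abs_of_pos h2]
    _ ≤ μ₁ * (1000 * (‖ρ‖ ^ 2 / ‖y‖ ^ 4)) + μ₂ * (1000 * (‖ρ‖ ^ 2 / ‖y‖ ^ 4)) := by gcongr
    _ = 1000 * (μ₁ + μ₂) * (‖ρ‖ ^ 2 / ‖y‖ ^ 4) := by ring

end HDN
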