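import Mathlib
import Pool.Agent.HDN.Phys

/-!
# The energy of the reduced system changes slowly (project HDN)

With `M = m_a + m_b`, `Q = cm q`, `W = cm v`, `ρ = q_a - q_b`: `q_a = Q + (m_b/M) ρ`,
`q_b = Q - (m_a/M) ρ`, `Q' = W`,
`M W' = ∑_c m_c (m_a grav (q_c - q_a) + m_b grav (q_c - q_b))` (the mutual forces cancel),
`m_c v_c' = -m_c (m_a grav (q_c - q_a) + m_b grav (q_c - q_b)) + ∑_e m_c m_e grav (q_e - q_c)`, and
`Ured' = -∑_c M m_c ⟪grav (q_c - Q), v_c - W⟫ - (1/2) ∑_c ∑_e m_c m_e ⟪grav (q_e - q_c), v_e - v_c⟫`,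
hence `Xred' = ∑_c m_c ⟪W - v_c, Δ_c⟫` with
`Δ_c = m_a grav (q_c - q_a) + m_b grav (q_c - q_b) - M grav (q_c - Q)`, which is estimated by
`tidal` with `y = q_c - Q`.
-/

open MeasureTheory Set Filter Topology Metric
open scoped NNReal ENNReal RealInnerProductSpace

namespace HDN

variable {N d : ℕ} {m : Fin N → ℝ}

theorem acc_eq_grav (q : Cf N d) (i : Fin N) :
    acc m q i = ∑ b ∈ Finset.univ.erase i, m b • grav (q b - q i) := by
  unfold acc grav
  refine Finset.sum_congr rfl fun b _ => ?_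
  rw [smul_smul, div_eq_mul_inv]

namespace XDerA

theorem grav_neg (x : Sp d) : grav (-x) = - grav x := by
  simp [grav]

theorem grav_sub_comm (x y : Sp d) : grav (x - y) = - grav (y - x) := by
  rw [← grav_neg, neg_sub]

theorem inv_norm_deriv {y : ℝ → Sp d} {y' : Sp d} {t : ℝ} (hy : HasDerivAt y y' t)
    (h0 : y t ≠ 0) (c : ℝ) :
    HasDerivAt (fun s => c / ‖y s‖) (-(c * ⟪grav (y t), y'⟫)) t := by
  have h1 : HasDerivAt (fun s => ‖y s‖ ^ 2) (2 * ⟪y t, y'⟫) t := hy.norm_sq
  have hn : ‖y t‖ ≠ 0 := norm_ne_zero_iff.2 h0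
  have h2 : HasDerivAt (fun s => √(‖y s‖ ^ 2)) (2 * ⟪y t, y'⟫ / (2 * √(‖y t‖ ^ 2))) t :=
    h1.sqrt (pow_ne_zero 2 hn)
  have e : (fun s => √(‖y s‖ ^ 2)) = fun s => ‖y s‖ := by
    funext s
    exact Real.sqrt_sq (norm_nonneg _)
  rw [e, Real.sqrt_sq (norm_nonneg _)] at h2
  have h3 := (h2.inv hn).const_mul c
  have e2 : (fun s => c / ‖y s‖) = fun s => c * (fun s => ‖y s‖)⁻¹ s := by
    funext s
    simp [div_eq_mul_inv]
  rw [e2]
  refine h3.congr_deriv ?_
  rw [grav, real_inner_smul_left]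
  field_simp

theorem cm_deriv {a b : Fin N} {γ : ℝ → Cf N d} {γ' : Cf N d} {t : ℝ}
    (h : ∀ i, HasDerivAt (fun s => γ s i) (γ' i) t) :
    HasDerivAt (fun s => cm m a b (γ s)) (cm m a b γ') t := by
  unfold cm
  exact (((h a).const_smul (m a)).add ((h b).const_smul (m b))).const_smul (m a + m b)⁻¹

theorem sum_erase_pair {M : Type*} [AddCommMonoid M] {a b : Fin N} (hab : a ≠ b) (f : Fin N → M) :
    ∑ e ∈ Finset.univ.erase a, f e = f b + ∑ c ∈ others a b, f c := by
  unfold others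
  rw [Finset.add_sum_erase]
  simp [hab.symm]

theorem others_comm (a b : Fin N) : others a b = others b a := by
  unfold others
  exact Finset.erase_right_comm

theorem mem_others {a b c : Fin N} : c ∈ others a b ↔ c ≠ b ∧ c ≠ a := by
  simp [others]

theorem sum_erase_other {M : Type*} [AddCommMonoid M] {a b c : Fin N} (hab : a ≠ b)
    (hc : c ∈ others a b) (f : Fin N → M) :
    ∑ e ∈ Finset.univ.erase c, f e = f a + (f b + ∑ e ∈ (others a b).erase c, f e) := by
  rw [mem_others] at hc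
  have h1 : (others a b).erase c = ((Finset.univ.erase c).erase a).erase b := by
    unfold others
    ext x
    simp only [Finset.mem_erase, Finset.mem_univ]
    tauto
  rw [h1, Finset.add_sum_erase, Finset.add_sum_erase]
  · simp [hc.2.symm]
  · simp only [Finset.mem_erase, Finset.mem_univ, and_true]
    exact ⟨hab.symm, hc.1.symm⟩

theorem cm_acc (hm : ∀ i, 0 < m i) {a b : Fin N} (hab : a ≠ b) (q : Cf N d) :
    (m a + m b) • cm m a b (acc m q) =
      ∑ c ∈ others a b, m c • (m a • grav (q c - q a) + m b • grav (q c - q b)) := by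
  have hM : m a + m b ≠ 0 := (add_pos (hm a) (hm b)).ne'
  rw [cm, smul_smul, mul_inv_cancel₀ hM, one_smul, acc_eq_grav, acc_eq_grav,
    sum_erase_pair hab, sum_erase_pair hab.symm, others_comm b a, smul_add, smul_add,
    Finset.smul_sum, Finset.smul_sum, grav_sub_comm (q b) (q a)]
  simp only [smul_add, Finset.sum_add_distrib, smul_neg, smul_smul]
  have e1 : ∀ x, ∑ c ∈ others a b, (x * m c) • grav (q c - q a) =
      ∑ c ∈ others a b, (m c * x) • grav (q c - q a) := fun x =>
    Finset.sum_congr rfl fun c _ => by rw [mul_comm]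
  have e2 : ∀ x, ∑ c ∈ others a b, (x * m c) • grav (q c - q b) =
      ∑ c ∈ others a b, (m c * x) • grav (q c - q b) := fun x =>
    Finset.sum_congr rfl fun c _ => by rw [mul_comm]
  rw [e1, e2, mul_comm (m b) (m a)]
  abel

theorem double_sum (q v : Cf N d) (S : Finset (Fin N)) :
    (1 / 2) * ∑ c ∈ S, ∑ e ∈ S.erase c, (m c * m e) * ⟪grav (q e - q c), v e - v c⟫ =
      - ∑ c ∈ S, ∑ e ∈ S.erase c, (m c * m e) * ⟪grav (q e - q c), v c⟫ := by
  have hsw : ∑ c ∈ S, ∑ e ∈ S.erase c, (m c * m e) * ⟪grav (q e - q c), v e⟫ =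
      - ∑ c ∈ S, ∑ e ∈ S.erase c, (m c * m e) * ⟪grav (q e - q c), v c⟫ := by
    have h1 : ∑ c ∈ S, ∑ e ∈ S.erase c, (m c * m e) * ⟪grav (q e - q c), v e⟫ =
        ∑ e ∈ S, ∑ c ∈ S.erase e, (m c * m e) * ⟪grav (q e - q c), v e⟫ := by
      refine Finset.sum_comm' ?_
      intro x y
      simp only [Finset.mem_erase]
      tauto
    rw [h1, ← Finset.sum_neg_distrib]
    refine Finset.sum_congr rfl fun c _ => ?_
    rw [← Finset.sum_neg_distrib]
    refine Finset.sum_congr rfl fun e _ => ?_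
    rw [grav_sub_comm (q c) (q e), inner_neg_left]
    ring
  simp only [inner_sub_right, mul_sub, Finset.sum_sub_distrib]
  rw [hsw]
  ring

end XDerA

open XDerA in
theorem xred_hasDeriv (hm : ∀ i, 0 < m i) {γ : ℝ → Ph N d} {t : ℝ} (hfree : Free (γ t).1)
    (hγ : HasDerivAt γ (nfield m (γ t)) t) {a b : Fin N} (hab : a ≠ b)
    (hc : ∀ c ∈ others a b, (γ t).1 c ≠ cm m a b (γ t).1) :
    HasDerivAt (fun s => Xred m a b (γ s))
      (∑ c ∈ others a b, m c * ⟪cm m a b (γ t).2 - (γ t).2 c,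
        m a • grav ((γ t).1 c - (γ t).1 a) + m b • grav ((γ t).1 c - (γ t).1 b) -
          (m a + m b) • grav ((γ t).1 c - cm m a b (γ t).1)⟫) t := by
  have hq : ∀ i, HasDerivAt (fun s => (γ s).1 i) ((γ t).2 i) t := by
    have h := (ContinuousLinearMap.fst ℝ (Cf N d) (Cf N d)).hasFDerivAt.comp_hasDerivAt t hγ
    exact hasDerivAt_pi.1 h
  have hv : ∀ i, HasDerivAt (fun s => (γ s).2 i) (acc m (γ t).1 i) t := by
    have h := (ContinuousLinearMap.snd ℝ (Cf N d) (Cf N d)).hasFDerivAt.comp_hasDerivAt t hγ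
    exact hasDerivAt_pi.1 h
  set q := (γ t).1 with hqdef
  set v := (γ t).2 with hvdef
  have hQ : HasDerivAt (fun s => cm m a b (γ s).1) (cm m a b v) t := cm_deriv hq
  have hW : HasDerivAt (fun s => cm m a b (γ s).2) (cm m a b (acc m q)) t := cm_deriv hv
  -- kinetic part
  have hK : HasDerivAt (fun s => Kred m a b (γ s).2)
      ((1 / 2) * ((m a + m b) * (2 * ⟪cm m a b v, cm m a b (acc m q)⟫)) +
        (1 / 2) * ∑ c ∈ others a b, m c * (2 * ⟪v c, acc m q c⟫)) t := by
    unfold Kred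
    refine ((hW.norm_sq.const_mul _).const_mul _).add (HasDerivAt.const_mul _ ?_)
    exact HasDerivAt.fun_sum fun c _ => ((hv c).norm_sq).const_mul _
  -- potential part
  have hU : HasDerivAt (fun s => Ured m a b (γ s).1)
      ((∑ c ∈ others a b, -(((m a + m b) * m c) * ⟪grav (q c - cm m a b q), v c - cm m a b v⟫)) +
        (1 / 2) * ∑ c ∈ others a b, ∑ e ∈ (others a b).erase c,
          -((m c * m e) * ⟪grav (q e - q c), v e - v c⟫)) t := by
    unfold Ured
    refine HasDerivAt.add ?_ (HasDerivAt.const_mul _ ?_)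
    · refine HasDerivAt.fun_sum fun c hcc => ?_
      exact inv_norm_deriv ((hq c).sub hQ) (sub_ne_zero.2 (hc c hcc)) _
    · refine HasDerivAt.fun_sum fun c _ => HasDerivAt.fun_sum fun e he => ?_
      have hec : e ≠ c := Finset.ne_of_mem_erase he
      exact inv_norm_deriv ((hq e).sub (hq c)) (sub_ne_zero.2 (hfree e c hec)) _
  have hX := hK.sub hU
  refine hX.congr_deriv ?_
  simp only [Finset.sum_neg_distrib]
  rw [mul_neg, double_sum]
  have h1 : (1 / 2) * ((m a + m b) * (2 * ⟪cm m a b v, cm m a b (acc m q)⟫)) =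
      ∑ c ∈ others a b, m c * ⟪cm m a b v, m a • grav (q c - q a) + m b • grav (q c - q b)⟫ := by
    have : (1 / 2) * ((m a + m b) * (2 * ⟪cm m a b v, cm m a b (acc m q)⟫)) =
        ⟪cm m a b v, (m a + m b) • cm m a b (acc m q)⟫ := by
      rw [real_inner_smul_right]
      ring
    rw [this, cm_acc hm hab, inner_sum]
    refine Finset.sum_congr rfl fun c _ => ?_
    rw [real_inner_smul_right]
  have h2 : (1 / 2) * ∑ c ∈ others a b, m c * (2 * ⟪v c, acc m q c⟫) =
      (∑ c ∈ others a b, -(m c * ⟪v c, m a • grav (q c - q a) + m b • grav (q c - q b)⟫)) +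
        ∑ c ∈ others a b, ∑ e ∈ (others a b).erase c, (m c * m e) * ⟪grav (q e - q c), v c⟫ := by
    rw [Finset.mul_sum, ← Finset.sum_add_distrib]
    refine Finset.sum_congr rfl fun c hcc => ?_
    rw [acc_eq_grav, sum_erase_other hab hcc, grav_sub_comm (q a) (q c), grav_sub_comm (q b) (q c)]
    simp only [inner_add_right, inner_sum, real_inner_smul_right, inner_neg_right, smul_neg]
    have : ∑ e ∈ (others a b).erase c, (m c * m e) * ⟪grav (q e - q c), v c⟫ =
        m c * ∑ e ∈ (others a b).erase c, m e * ⟪v c, grav (q e - q c)⟫ := by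
      rw [Finset.mul_sum]
      refine Finset.sum_congr rfl fun e _ => ?_
      rw [real_inner_comm]
      ring
    rw [this]
    ring
  rw [h1, h2]
  have h3 : ∑ c ∈ others a b, m c * ⟪cm m a b v - v c,
        m a • grav (q c - q a) + m b • grav (q c - q b) -
          (m a + m b) • grav (q c - cm m a b q)⟫ =
      ∑ c ∈ others a b, m c * ⟪cm m a b v, m a • grav (q c - q a) + m b • grav (q c - q b)⟫ +
      ∑ c ∈ others a b, -(m c * ⟪v c, m a • grav (q c - q a) + m b • grav (q c - q b)⟫) +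
      ∑ c ∈ others a b, ((m a + m b) * m c) * ⟪grav (q c - cm m a b q), v c - cm m a b v⟫ := by
    rw [← Finset.sum_add_distrib, ← Finset.sum_add_distrib]
    refine Finset.sum_congr rfl fun c _ => ?_
    rw [inner_sub_right, inner_sub_left, real_inner_smul_right, inner_sub_left, inner_sub_right,
      real_inner_comm (cm m a b v) (grav (q c - cm m a b q)),
      real_inner_comm (v c) (grav (q c - cm m a b q))]
    ring
  rw [h3]
  ring

end HDN
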