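import Mathlib
import Pool.Agent.HDN.Phys
import Pool.Agent.HDN.TidalB
import Pool.Agent.HDN.XDerA

/-!
# The energy of the reduced system changes slowly (project HDN)

`xred_hasDeriv`, Cauchy-Schwarz and `tidal` with `y = q_c - Q`, `ρ = q_a - q_b`
(`q_c - q_a = y - (m_b/M) ρ`, `q_c - q_b = y + (m_a/M) ρ`); `q_c ≠ Q` follows from
`0 < 4 ‖ρ‖ ≤ ‖y‖`. `A = 1000 (∑ m) (∑ m + 1)` or so.
-/

open MeasureTheory Set Filter Topology Metric
open scoped NNReal ENNReal RealInnerProductSpace

namespace HDN

variable {N d : ℕ} {m : Fin N → ℝ}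

theorem xred_deriv (hm : ∀ i, 0 < m i) :
    ∃ A > 0, ∀ (γ : ℝ → Ph N d) (t : ℝ), Free (γ t).1 → HasDerivAt γ (nfield m (γ t)) t →
      ∀ a b, a ≠ b →
      (∀ c ∈ others a b, 4 * ‖(γ t).1 a - (γ t).1 b‖ ≤ ‖(γ t).1 c - cm m a b (γ t).1‖) →
      ∃ D, HasDerivAt (fun s => Xred m a b (γ s)) D t ∧
        |D| ≤ A * ∑ c ∈ others a b, ‖(γ t).2 c - cm m a b (γ t).2‖ *
          (‖(γ t).1 a - (γ t).1 b‖ ^ 2 / ‖(γ t).1 c - cm m a b (γ t).1‖ ^ 4) := by
  have hS : ∀ i, m i ≤ ∑ j, m j := fun i =>
    Finset.single_le_sum (f := m) (fun j _ => (hm j).le) (Finset.mem_univ i)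
  have hS0 : 0 ≤ ∑ j, m j := Finset.sum_nonneg fun j _ => (hm j).le
  refine ⟨2000 * (∑ j, m j + 1) * (∑ j, m j + 1), by positivity, ?_⟩
  intro γ t hfree hγ a b hab hc
  set q := (γ t).1 with hq
  set v := (γ t).2 with hv
  have hma := hm a
  have hmb := hm b
  have hM : (0 : ℝ) < m a + m b := by linarith
  have hρ : 0 < ‖q a - q b‖ := norm_pos_iff.2 (sub_ne_zero.2 (hfree a b hab))
  have hne : ∀ c ∈ others a b, q c ≠ cm m a b q := by
    intro c hcc h
    have := hc c hcc
    rw [h, sub_self, norm_zero] at this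
    linarith
  refine ⟨_, xred_hasDeriv hm hfree hγ hab hne, ?_⟩
  refine (Finset.abs_sum_le_sum_abs _ _).trans ?_
  rw [Finset.mul_sum]
  refine Finset.sum_le_sum fun c hcc => ?_
  have hy : q c - cm m a b q ≠ 0 := sub_ne_zero.2 (hne c hcc)
  have ht := tidal hma hmb (y := q c - cm m a b q) (ρ := q a - q b) hy (hc c hcc)
  have e1 : q c - cm m a b q - (m b / (m a + m b)) • (q a - q b) = q c - q a := by
    have : cm m a b q + (m b / (m a + m b)) • (q a - q b) = q a := by
      have h1 : (m a + m b)⁻¹ * m a + m b / (m a + m b) = 1 := by field_simp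
      have h2 : (m a + m b)⁻¹ * m b - m b / (m a + m b) = 0 := by
        rw [div_eq_inv_mul, sub_self]
      calc cm m a b q + (m b / (m a + m b)) • (q a - q b)
          = ((m a + m b)⁻¹ * m a + m b / (m a + m b)) • q a +
            ((m a + m b)⁻¹ * m b - m b / (m a + m b)) • q b := by
            unfold cm; module
        _ = q a := by rw [h1, h2]; simp
    rw [← sub_add_eq_sub_sub, this]
  have e2 : q c - cm m a b q + (m a / (m a + m b)) • (q a - q b) = q c - q b := by
    have : cm m a b q - (m a / (m a + m b)) • (q a - q b) = q b := by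
      have h1 : (m a + m b)⁻¹ * m b + m a / (m a + m b) = 1 := by field_simp; ring
      have h2 : (m a + m b)⁻¹ * m a - m a / (m a + m b) = 0 := by
        rw [div_eq_inv_mul, sub_self]
      calc cm m a b q - (m a / (m a + m b)) • (q a - q b)
          = ((m a + m b)⁻¹ * m a - m a / (m a + m b)) • q a +
            ((m a + m b)⁻¹ * m b + m a / (m a + m b)) • q b := by
            unfold cm; module
        _ = q b := by rw [h1, h2]; simp
    have h3 : q c - cm m a b q + (m a / (m a + m b)) • (q a - q b) =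
        q c - (cm m a b q - (m a / (m a + m b)) • (q a - q b)) := by abel
    rw [h3, this]
  rw [e1, e2] at ht
  rw [abs_mul, abs_of_pos (hm c)]
  have hcs := abs_real_inner_le_norm (cm m a b v - v c)
    (m a • grav (q c - q a) + m b • grav (q c - q b) - (m a + m b) • grav (q c - cm m a b q))
  rw [norm_sub_rev (cm m a b v)] at hcs
  set X := ‖v c - cm m a b v‖
  set Y := ‖q a - q b‖ ^ 2 / ‖q c - cm m a b q‖ ^ 4
  have hX : 0 ≤ X := norm_nonneg _
  have hY : 0 ≤ Y := by positivity
  calc m c * |⟪cm m a b v - v c, m a • grav (q c - q a) + m b • grav (q c - q b) -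
        (m a + m b) • grav (q c - cm m a b q)⟫|
      ≤ m c * (X * (1000 * (m a + m b) * Y)) := by
        refine mul_le_mul_of_nonneg_left (hcs.trans ?_) (hm c).le
        exact mul_le_mul_of_nonneg_left ht hX
    _ = (1000 * m c * (m a + m b)) * (X * Y) := by ring
    _ ≤ (2000 * (∑ j, m j + 1) * (∑ j, m j + 1)) * (X * Y) := by
        refine mul_le_mul_of_nonneg_right ?_ (mul_nonneg hX hY)
        have h1 := hS a
        have h2 := hS b
        have h3 := hS c
        calc 1000 * m c * (m a + m b) ≤ 1000 * (∑ j, m j + 1) * (2 * (∑ j, m j + 1)) := by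
              gcongr
              · linarith
              · linarith
          _ = 2000 * (∑ j, m j + 1) * (∑ j, m j + 1) := by ring

end HDN
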