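import Mathlib
import Pool.Agent.HDN.Phys
import Pool.Agent.HDN.SingA
import Pool.Agent.HDN.XDerB

/-!
# The reduced kinetic energy stays bounded (project HDN)

`V² = Kred + 1`, `r = ‖q_a - q_b‖`. By `Est`: `Ured ≤ C₁ V` (`1 / ‖x_c - cm‖ ≤ V / δ`,
`1 / ‖x_c - x_e‖ ≤ V / δ`), so `Xred = Kred - Ured ≥ V² - 1 - C₁ V ≥ V² / 2 - C₂`.
`xred_deriv` and `kred_ge`: `|Xred'| ≤ A' ∑ C V r² (V / δ)⁴ = C₃ r² V⁵ ≤ C₃ A² V ≤ C₃ A² V²`
(using `r V² ≤ A`, `1 ≤ V`), so `Y = Xred + C₂ + 1 ≥ V² / 2 > 0` satisfies `|Y'| ≤ C₄ Y`, hence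
`Y ≤ Y(t₀) exp (C₄ (t - t₀))` (e.g. monotonicity of `Y exp (-C₄ t)`), bounded on `[t₀, T)`.
-/

open MeasureTheory Set Filter Topology Metric
open scoped NNReal ENNReal RealInnerProductSpace

namespace HDN

variable {N d : ℕ} {m : Fin N → ℝ}

theorem kred_nonneg (hm : ∀ i, 0 < m i) (a b : Fin N) (v : Cf N d) : 0 ≤ Kred m a b v := by
  unfold Kred
  have h1 := hm a
  have h2 := hm b
  have h3 : 0 ≤ ∑ c ∈ others a b, m c * ‖v c‖ ^ 2 :=
    Finset.sum_nonneg fun c _ => mul_nonneg (hm c).le (by positivity)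
  positivity

theorem inv_le_of_est {δ V y : ℝ} (hδ : 0 < δ) (hy : 0 ≤ y) (h : δ ≤ V * y) : 0 < y ∧ 1 / y ≤ V / δ := by
  have hy0 : 0 < y := by
    rcases hy.lt_or_eq with h1 | h1
    · exact h1
    · rw [← h1, mul_zero] at h
      linarith
  refine ⟨hy0, ?_⟩
  rw [div_le_div_iff₀ hy0 hδ]
  linarith

theorem ured_le (hm : ∀ i, 0 < m i) {A δ : ℝ} (hδ : 0 < δ) :
    ∃ C > 0, ∀ (x : Ph N d) (a b : Fin N), a ≠ b → Est m A δ a b x →
      Ured m a b x.1 ≤ C * √(Kred m a b x.2 + 1) := by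
  set F : Fin N → Fin N → ℝ := fun a b =>
    (∑ c ∈ others a b, (m a + m b) * m c + (1 / 2) * ∑ c ∈ others a b, ∑ e ∈ (others a b).erase c,
      m c * m e) / δ with hF
  have hF0 : ∀ a b, 0 ≤ F a b := by
    intro a b
    apply div_nonneg _ hδ.le
    apply add_nonneg
    · exact Finset.sum_nonneg fun c _ => mul_nonneg (add_pos (hm a) (hm b)).le (hm c).le
    · apply mul_nonneg (by norm_num)
      exact Finset.sum_nonneg fun c _ => Finset.sum_nonneg fun e _ => mul_nonneg (hm c).le (hm e).le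
  refine ⟨1 + ∑ a, ∑ b, F a b, ?_, ?_⟩
  · have : 0 ≤ ∑ a, ∑ b, F a b := Finset.sum_nonneg fun a _ => Finset.sum_nonneg fun b _ => hF0 a b
    linarith
  · intro x a b hab hE
    obtain ⟨-, -, h3, h4⟩ := hE
    set V := √(Kred m a b x.2 + 1) with hV
    have hV0 : 0 ≤ V := Real.sqrt_nonneg _
    have key : Ured m a b x.1 ≤ F a b * V := by
      unfold Ured
      have e1 : ∑ c ∈ others a b, (m a + m b) * m c / ‖x.1 c - cm m a b x.1‖ ≤
          ∑ c ∈ others a b, (m a + m b) * m c * (V / δ) := by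
        apply Finset.sum_le_sum
        intro c hc
        rw [div_eq_mul_one_div]
        apply mul_le_mul_of_nonneg_left _ (mul_nonneg (add_pos (hm a) (hm b)).le (hm c).le)
        exact (inv_le_of_est hδ (norm_nonneg _) (h3 c hc).1).2
      have e2 : ∑ c ∈ others a b, ∑ e ∈ (others a b).erase c, m c * m e / ‖x.1 e - x.1 c‖ ≤
          ∑ c ∈ others a b, ∑ e ∈ (others a b).erase c, m c * m e * (V / δ) := by
        apply Finset.sum_le_sum
        intro c hc
        apply Finset.sum_le_sum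
        intro e he
        rw [div_eq_mul_one_div]
        apply mul_le_mul_of_nonneg_left _ (mul_nonneg (hm c).le (hm e).le)
        have he' := Finset.mem_of_mem_erase he
        have hec : e ≠ c := Finset.ne_of_mem_erase he
        exact (inv_le_of_est hδ (norm_nonneg _) (h4 e he' c hc hec).1).2
      have e3 : F a b * V = ∑ c ∈ others a b, (m a + m b) * m c * (V / δ) +
          (1 / 2) * ∑ c ∈ others a b, ∑ e ∈ (others a b).erase c, m c * m e * (V / δ) := by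
        simp only [hF, ← Finset.sum_mul]
        field_simp
      rw [e3]
      linarith
    have hle : F a b ≤ 1 + ∑ a, ∑ b, F a b := by
      have h5 : F a b ≤ ∑ b, F a b :=
        Finset.single_le_sum (f := fun b => F a b) (fun b _ => hF0 a b) (Finset.mem_univ b)
      have h6 : ∑ b, F a b ≤ ∑ a, ∑ b, F a b :=
        Finset.single_le_sum (f := fun a => ∑ b, F a b)
          (fun a _ => Finset.sum_nonneg fun b _ => hF0 a b) (Finset.mem_univ a)
      linarith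
    calc Ured m a b x.1 ≤ F a b * V := key
      _ ≤ _ := mul_le_mul_of_nonneg_right hle hV0

theorem gron_bound {Y D : ℝ → ℝ} {t₀ T C : ℝ} (hD : ∀ t ∈ Ico t₀ T, HasDerivAt Y (D t) t)
    (hC : 0 ≤ C) (h : ∀ t ∈ Ico t₀ T, D t ≤ C * Y t) (h0 : 0 ≤ Y t₀) :
    ∀ t ∈ Ico t₀ T, Y t ≤ Y t₀ * Real.exp (C * (T - t₀)) := by
  intro t ht
  have hZ : ∀ s ∈ Ico t₀ T, HasDerivAt (fun s => Y s * Real.exp (-C * s))
      (D s * Real.exp (-C * s) + Y s * (Real.exp (-C * s) * (-C))) s := by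
    intro s hs
    have h1 : HasDerivAt (fun s => Real.exp (-C * s)) (Real.exp (-C * s) * (-C)) s := by
      have := ((hasDerivAt_id s).const_mul (-C)).exp
      simpa using this
    exact (hD s hs).mul h1
  have hanti : AntitoneOn (fun s => Y s * Real.exp (-C * s)) (Ico t₀ T) := by
    apply antitoneOn_of_deriv_nonpos (convex_Ico t₀ T)
    · intro s hs
      exact (hZ s hs).continuousAt.continuousWithinAt
    · intro s hs
      exact (hZ s (interior_subset hs)).differentiableAt.differentiableWithinAt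
    · intro s hs
      rw [(hZ s (interior_subset hs)).deriv]
      have h2 := h s (interior_subset hs)
      have h3 := Real.exp_pos (-C * s)
      nlinarith
  have h4 := hanti (left_mem_Ico.2 (lt_of_le_of_lt ht.1 ht.2)) ht ht.1
  simp only at h4
  have h5 : Y t ≤ Y t₀ * Real.exp (C * (t - t₀)) := by
    have h6 : Y t = Y t * Real.exp (-C * t) * Real.exp (C * t) := by
      rw [mul_assoc, ← Real.exp_add]
      simp
    have h7 : Y t₀ * Real.exp (C * (t - t₀)) = Y t₀ * Real.exp (-C * t₀) * Real.exp (C * t) := by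
      rw [mul_assoc, ← Real.exp_add]
      ring_nf
    rw [h6, h7]
    exact mul_le_mul_of_nonneg_right h4 (Real.exp_pos _).le
  refine h5.trans (mul_le_mul_of_nonneg_left ?_ h0)
  apply Real.exp_le_exp.2
  apply mul_le_mul_of_nonneg_left _ hC
  linarith [ht.2]

theorem kred_bounded (hm : ∀ i, 0 < m i) {γ : ℝ → Ph N d} {t₀ T A δ : ℝ} (ht : t₀ < T)
    (hA : 0 < A) (hδ : 0 < δ) (hγ : SolOn (nfield m) (FreeSet N d) γ (Ico t₀ T)) {a b : Fin N}
    (hab : a ≠ b) (hE : ∀ t ∈ Ico t₀ T, Est m A δ a b (γ t)) :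
    ∃ C, ∀ t ∈ Ico t₀ T, Kred m a b (γ t).2 ≤ C := by
  obtain ⟨C1, hC1, hU⟩ := ured_le (d := d) (A := A) hm hδ
  obtain ⟨A', hA', hX⟩ := xred_deriv (d := d) hm
  obtain ⟨C', hC', hK⟩ := kred_ge (d := d) hm
  -- the derivative
  have hXD : ∀ t ∈ Ico t₀ T, ∃ D, HasDerivAt (fun s => Xred m a b (γ s)) D t ∧
      |D| ≤ A' * ∑ c ∈ others a b, ‖(γ t).2 c - cm m a b (γ t).2‖ *
        (‖(γ t).1 a - (γ t).1 b‖ ^ 2 / ‖(γ t).1 c - cm m a b (γ t).1‖ ^ 4) := by
    intro t hts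
    obtain ⟨h1, h2⟩ := hγ t hts
    exact hX γ t h1 h2 a b hab fun c hc => ((hE t hts).2.2.1 c hc).2.1
  choose! D hD hDb using hXD
  set C2 : ℝ := 1 + C1 ^ 2 / 2 with hC2
  set C4 : ℝ := 2 * (A' * (∑ c ∈ others a b, C' * (A ^ 2 / δ ^ 4))) with hC4
  have hC40 : 0 ≤ C4 := by
    have : 0 ≤ ∑ c ∈ others a b, C' * (A ^ 2 / δ ^ 4) := Finset.sum_nonneg fun c _ => by positivity
    positivity
  set Y : ℝ → ℝ := fun s => Xred m a b (γ s) + C2 with hY
  have hV2 : ∀ t, √(Kred m a b (γ t).2 + 1) ^ 2 = Kred m a b (γ t).2 + 1 := by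
    intro t
    rw [Real.sq_sqrt]
    have := kred_nonneg hm a b (γ t).2
    linarith
  have hV1 : ∀ t, 1 ≤ √(Kred m a b (γ t).2 + 1) := by
    intro t
    rw [Real.one_le_sqrt]
    have := kred_nonneg hm a b (γ t).2
    linarith
  have hYge : ∀ t ∈ Ico t₀ T, (Kred m a b (γ t).2 + 1) / 2 ≤ Y t := by
    intro t hts
    have h1 := hU (γ t) a b hab (hE t hts)
    have h2 := hV2 t
    simp only [hY, Xred, hC2]
    set V := √(Kred m a b (γ t).2 + 1)
    nlinarith [sq_nonneg (V - C1)]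
  have hbound : ∀ t ∈ Ico t₀ T, D t ≤ C4 * Y t := by
    intro t hts
    have hY1 := hYge t hts
    obtain ⟨e1, -, e3, -⟩ := hE t hts
    obtain ⟨-, -, k3, -⟩ := hK (γ t).2 a b hab
    set V := √(Kred m a b (γ t).2 + 1) with hVdef
    have hVV := hV2 t
    have hV1' := hV1 t
    rw [← hVdef] at hVV hV1'
    set r := ‖(γ t).1 a - (γ t).1 b‖ with hr
    have hr0 : 0 ≤ r := norm_nonneg _
    have hrV : r ^ 2 * V ^ 4 ≤ A ^ 2 := by
      have h1 : r * V ^ 2 ≤ A := by rw [hVV]; exact e1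
      have h2 : 0 ≤ r * V ^ 2 := by positivity
      calc r ^ 2 * V ^ 4 = (r * V ^ 2) ^ 2 := by ring
        _ ≤ A ^ 2 := by gcongr
    have hsum : ∑ c ∈ others a b, ‖(γ t).2 c - cm m a b (γ t).2‖ *
        (r ^ 2 / ‖(γ t).1 c - cm m a b (γ t).1‖ ^ 4) ≤
        ∑ c ∈ others a b, C' * (A ^ 2 / δ ^ 4) * V ^ 2 := by
      apply Finset.sum_le_sum
      intro c hc
      obtain ⟨hy0, hy⟩ := inv_le_of_est hδ (norm_nonneg _) (e3 c hc).1

      have h1 : ‖(γ t).2 c - cm m a b (γ t).2‖ ≤ C' * V := by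
        refine (k3 c hc).trans (mul_le_mul_of_nonneg_left ?_ hC'.le)
        exact Real.sqrt_le_sqrt (by linarith)
      set y := ‖(γ t).1 c - cm m a b (γ t).1‖ with hydef
      have h2 : r ^ 2 / y ^ 4 ≤ A ^ 2 / δ ^ 4 := by
        have h3 : (1 / y) ^ 4 ≤ (V / δ) ^ 4 := by
          apply pow_le_pow_left₀ (by positivity) hy
        calc r ^ 2 / y ^ 4 = r ^ 2 * (1 / y) ^ 4 := by ring
          _ ≤ r ^ 2 * (V / δ) ^ 4 := by gcongr
          _ = r ^ 2 * V ^ 4 / δ ^ 4 := by ring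
          _ ≤ A ^ 2 / δ ^ 4 := by gcongr
      calc ‖(γ t).2 c - cm m a b (γ t).2‖ * (r ^ 2 / y ^ 4) ≤ (C' * V) * (A ^ 2 / δ ^ 4) := by
            apply mul_le_mul h1 h2 (by positivity) (by positivity)
        _ ≤ (C' * V ^ 2) * (A ^ 2 / δ ^ 4) := by
            have : V ≤ V ^ 2 := by nlinarith
            gcongr
        _ = C' * (A ^ 2 / δ ^ 4) * V ^ 2 := by ring
    have h5 : D t ≤ A' * ∑ c ∈ others a b, C' * (A ^ 2 / δ ^ 4) * V ^ 2 :=
      (le_abs_self _).trans ((hDb t hts).trans (mul_le_mul_of_nonneg_left hsum hA'.le))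
    have h6 : A' * ∑ c ∈ others a b, C' * (A ^ 2 / δ ^ 4) * V ^ 2 = C4 * (V ^ 2 / 2) := by
      rw [hC4, ← Finset.sum_mul]
      ring
    rw [h6] at h5
    refine h5.trans (mul_le_mul_of_nonneg_left ?_ hC40)
    rw [hVV]
    exact hY1
  have hmain := gron_bound (Y := Y) (D := D) (fun t hts => (hD t hts).add_const C2) hC40 hbound (by
    have h1 := hYge t₀ (left_mem_Ico.2 ht)
    have h2 := kred_nonneg hm a b (γ t₀).2
    linarith)
  refine ⟨2 * (Y t₀ * Real.exp (C4 * (T - t₀))), ?_⟩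
  intro t hts
  have h1 := hmain t hts
  have h2 := hYge t hts
  linarith

end HDN
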