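import Mathlib
import Pool.Agent.HDN.Phys
import Pool.Agent.HDN.SingA
import Pool.Agent.HDN.Bounded

/-!
# The end of a solution with `Est` (project HDN)
-/

open MeasureTheory Set Filter Topology Metric
open scoped NNReal ENNReal RealInnerProductSpace

namespace HDN

variable {N d : ℕ} {m : Fin N → ℝ}

theorem BinA_kred_nonneg (hm : ∀ i, 0 < m i) (a b : Fin N) (v : Cf N d) : 0 ≤ Kred m a b v := by
  unfold Kred
  have h1 : 0 ≤ ∑ c ∈ others a b, m c * ‖v c‖ ^ 2 :=
    Finset.sum_nonneg fun c _ => mul_nonneg (hm c).le (by positivity)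
  have h2 := hm a
  have h3 := hm b
  positivity

/-- a curve with bounded derivative on `[t₀, T)` is bounded -/
theorem BinA_bdd {F : Type*} [NormedAddCommGroup F] [NormedSpace ℝ F] {f f' : ℝ → F}
    {t₀ T K : ℝ} (h : t₀ < T) (hf : ∀ t ∈ Ico t₀ T, HasDerivAt f (f' t) t)
    (hb : ∀ t ∈ Ico t₀ T, ‖f' t‖ ≤ K) : ∀ t ∈ Ico t₀ T, ‖f t‖ ≤ ‖f t₀‖ + K * (T - t₀) := by
  intro t ht
  have h0 : t₀ ∈ Ico t₀ T := ⟨le_rfl, h⟩
  have hK : 0 ≤ K := (norm_nonneg _).trans (hb t₀ h0)
  have h1 := (convex_Ico t₀ T).norm_image_sub_le_of_norm_hasDerivWithin_le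
    (fun x hx => (hf x hx).hasDerivWithinAt) hb h0 ht
  have h2 : ‖t - t₀‖ ≤ T - t₀ := by
    rw [Real.norm_eq_abs, abs_of_nonneg (by linarith [ht.1])]
    linarith [ht.2]
  have h3 : ‖f t‖ ≤ ‖f t₀‖ + ‖f t - f t₀‖ := by
    calc ‖f t‖ = ‖f t₀ + (f t - f t₀)‖ := by congr 1; abel
      _ ≤ _ := norm_add_le _ _
  have h4 : K * ‖t - t₀‖ ≤ K * (T - t₀) := mul_le_mul_of_nonneg_left h2 hK
  linarith

/-- the potential is the one of the pair up to a bounded error -/
theorem BinA_pot (hm : ∀ i, 0 < m i) {a b : Fin N} (hab : a ≠ b) {δ : ℝ} (hδ : 0 < δ)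
    (q : Cf N d) (hq : ∀ i j, i ≠ j → ¬ (i = a ∧ j = b) → ¬ (i = b ∧ j = a) →
      δ ≤ ‖q i - q j‖) :
    |Pot m q - m a * m b / ‖q a - q b‖| ≤ (1 / 2) * ∑ i : Fin N, ∑ j : Fin N, m i * m j / δ := by
  set f : Fin N → Fin N → ℝ := fun i j => m i * m j / ‖q j - q i‖ with hf
  set g : Fin N → Fin N → ℝ := fun i j =>
    (if i = a then (if j = b then f a b else 0) else 0) +
      (if i = b then (if j = a then f b a else 0) else 0) with hg
  have hsum : ∑ i, ∑ j ∈ Finset.univ.erase i, g i j = f a b + f b a := by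
    simp only [hg, Finset.sum_add_distrib]
    congr 1
    · rw [Finset.sum_eq_single a]
      · rw [Finset.sum_eq_single b]
        · simp
        · intro j _ hj
          simp [hj]
        · intro h
          exact absurd (Finset.mem_erase.mpr ⟨hab.symm, Finset.mem_univ _⟩) h
      · intro i _ hi
        simp [hi]
      · intro h
        exact absurd (Finset.mem_univ _) h
    · rw [Finset.sum_eq_single b]
      · rw [Finset.sum_eq_single a]
        · simp
        · intro j _ hj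
          simp [hj]
        · intro h
          exact absurd (Finset.mem_erase.mpr ⟨hab, Finset.mem_univ _⟩) h
      · intro i _ hi
        simp [hi]
      · intro h
        exact absurd (Finset.mem_univ _) h
  have hfab : f a b = m a * m b / ‖q a - q b‖ := by
    simp only [hf]
    rw [norm_sub_rev]
  have hfba : f b a = m a * m b / ‖q a - q b‖ := by
    simp only [hf]
    rw [mul_comm (m b)]
  have hterm : ∀ i : Fin N, ∀ j ∈ Finset.univ.erase i, |f i j - g i j| ≤ m i * m j / δ := by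
    intro i j hj
    have hij : i ≠ j := (Finset.ne_of_mem_erase hj).symm
    have hpos : 0 < m i * m j := mul_pos (hm i) (hm j)
    by_cases h1 : i = a ∧ j = b
    · obtain ⟨rfl, rfl⟩ := h1
      have : f i j - g i j = 0 := by
        simp only [hg]
        simp [hij]
      rw [this, abs_zero]
      positivity
    · by_cases h2 : i = b ∧ j = a
      · obtain ⟨rfl, rfl⟩ := h2
        have : f i j - g i j = 0 := by
          simp only [hg]
          simp [hij]
        rw [this, abs_zero]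
        positivity
      · have hg0 : g i j = 0 := by
          simp only [hg]
          have e1 : (if i = a then (if j = b then f a b else 0) else 0) = 0 := by
            split_ifs with x1 x2
            · exact absurd ⟨x1, x2⟩ h1
            · rfl
            · rfl
          have e2 : (if i = b then (if j = a then f b a else 0) else 0) = 0 := by
            split_ifs with x1 x2
            · exact absurd ⟨x1, x2⟩ h2
            · rfl
            · rfl
          rw [e1, e2, add_zero]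
        rw [hg0, sub_zero]
        have hd := hq i j hij h1 h2
        have hd' : δ ≤ ‖q j - q i‖ := by rwa [norm_sub_rev]
        simp only [hf]
        rw [abs_of_nonneg (by positivity)]
        exact div_le_div_of_nonneg_left hpos.le hδ hd'
  have hmain : |∑ i, ∑ j ∈ Finset.univ.erase i, f i j - (f a b + f b a)| ≤
      ∑ i : Fin N, ∑ j : Fin N, m i * m j / δ := by
    rw [← hsum, ← Finset.sum_sub_distrib]
    refine (Finset.abs_sum_le_sum_abs _ _).trans (Finset.sum_le_sum fun i _ => ?_)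
    rw [← Finset.sum_sub_distrib]
    refine (Finset.abs_sum_le_sum_abs _ _).trans ?_
    refine (Finset.sum_le_sum (hterm i)).trans ?_
    refine Finset.sum_le_sum_of_subset_of_nonneg (Finset.subset_univ _) fun j _ _ => ?_
    have := hm i
    have := hm j
    positivity
  have heq : Pot m q - m a * m b / ‖q a - q b‖ =
      (1 / 2) * (∑ i, ∑ j ∈ Finset.univ.erase i, f i j - (f a b + f b a)) := by
    rw [hfab, hfba]
    unfold Pot
    ring
  rw [heq, abs_mul, abs_of_pos (by norm_num : (0 : ℝ) < 1 / 2)]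
  exact mul_le_mul_of_nonneg_left hmain (by norm_num)

/-- Put `V₁ = √(C + 1)`, `Kred ≤ C`. Distances: `‖x_c - x_e‖ ≥ δ / V₁`, `‖x_c - cm‖ ≥ δ / V₁`,
`‖x_c - x_a‖ ≥ ‖x_c - cm‖ - r ≥ (3/4) ‖x_c - cm‖`. Velocities: `kred_ge`. Positions of `c` and of
`cm` have bounded derivative on a bounded interval, and `x_a, x_b` are within `r` of `cm`
(`cm_dist`). Relative energy: `Kin - Pot = E`, `kin_split`, `Pot = m_a m_b / r + (bounded)`. -/
theorem binEnd_of_est (hm : ∀ i, 0 < m i) {γ : ℝ → Ph N d} {t₀ T A δ E : ℝ}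
    (ht : t₀ ∈ Ico 0 T) (hA : 0 < A) (hδ : 0 < δ)
    (hγ : SolOn (nfield m) (FreeSet N d) γ (Ico 0 T)) (hH : ∀ t ∈ Ico 0 T, Ham m (γ t) = E)
    {a b : Fin N} (hab : a ≠ b) (hE : ∀ t ∈ Ico t₀ T, Est m A δ a b (γ t))
    (hlim : Tendsto (fun t => ‖(γ t).1 a - (γ t).1 b‖) (𝓝[<] T) (𝓝 0)) :
    BinEnd m a b γ T := by
  have hsub : ∀ t ∈ Ico t₀ T, t ∈ Ico 0 T := fun t h => ⟨ht.1.trans h.1, h.2⟩
  have hγ' : SolOn (nfield m) (FreeSet N d) γ (Ico t₀ T) := fun t h => hγ t (hsub t h)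
  obtain ⟨C₁, hC₁⟩ := kred_bounded hm ht.2 hA hδ hγ' hab hE
  obtain ⟨C₂, hC₂, hge⟩ := kred_ge (N := N) (d := d) hm
  have ht0 : t₀ ∈ Ico t₀ T := ⟨le_rfl, ht.2⟩
  have hC₁0 : 0 ≤ C₁ := (BinA_kred_nonneg hm a b _).trans (hC₁ t₀ ht0)
  set V₁ := √(C₁ + 1) with hV₁
  have hV₁0 : 0 < V₁ := Real.sqrt_pos.mpr (by linarith)
  have hVle : ∀ t ∈ Ico t₀ T, √(Kred m a b (γ t).2 + 1) ≤ V₁ := fun t h =>
    Real.sqrt_le_sqrt (by linarith [hC₁ t h])
  have hKle : ∀ t ∈ Ico t₀ T, √(Kred m a b (γ t).2) ≤ √C₁ := fun t h =>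
    Real.sqrt_le_sqrt (hC₁ t h)
  set δ' := δ / (2 * V₁) with hδ'
  have hδ'0 : 0 < δ' := by positivity
  have hδ'V : 2 * δ' * V₁ = δ := by
    rw [hδ']
    field_simp
  -- lower bound for the distances
  have hfar : ∀ x : ℝ, 0 ≤ x → ∀ t ∈ Ico t₀ T, δ ≤ √(Kred m a b (γ t).2 + 1) * x → 2 * δ' ≤ x := by
    intro x hx t h hx'
    have h1 : √(Kred m a b (γ t).2 + 1) * x ≤ V₁ * x := mul_le_mul_of_nonneg_right (hVle t h) hx
    have h2 : 2 * δ' * V₁ ≤ x * V₁ := by
      rw [hδ'V]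
      linarith [mul_comm V₁ x]
    exact le_of_mul_le_mul_right h2 hV₁0
  have hoth : ∀ t ∈ Ico t₀ T, ∀ c, c ≠ a → c ≠ b →
      δ' ≤ ‖(γ t).1 c - (γ t).1 a‖ ∧ δ' ≤ ‖(γ t).1 c - (γ t).1 b‖ := by
    intro t h c hca hcb
    have hc : c ∈ others a b := by
      unfold others
      exact Finset.mem_erase.mpr ⟨hcb, Finset.mem_erase.mpr ⟨hca, Finset.mem_univ _⟩⟩
    obtain ⟨-, -, h3, -⟩ := hE t h
    obtain ⟨h4, h5, -, -⟩ := h3 c hc
    have h6 := hfar _ (norm_nonneg _) t h h4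
    obtain ⟨h7, h8⟩ := cm_dist hm hab (γ t).1
    have h9 : ‖(γ t).1 c - cm m a b (γ t).1‖ ≤
        ‖(γ t).1 c - (γ t).1 a‖ + ‖cm m a b (γ t).1 - (γ t).1 a‖ := by
      calc ‖(γ t).1 c - cm m a b (γ t).1‖ =
          ‖((γ t).1 c - (γ t).1 a) - (cm m a b (γ t).1 - (γ t).1 a)‖ := by congr 1; abel
        _ ≤ _ := norm_sub_le _ _
    have h10 : ‖(γ t).1 c - cm m a b (γ t).1‖ ≤
        ‖(γ t).1 c - (γ t).1 b‖ + ‖cm m a b (γ t).1 - (γ t).1 b‖ := by
      calc ‖(γ t).1 c - cm m a b (γ t).1‖ =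
          ‖((γ t).1 c - (γ t).1 b) - (cm m a b (γ t).1 - (γ t).1 b)‖ := by congr 1; abel
        _ ≤ _ := norm_sub_le _ _
    constructor <;> linarith
  have hdist : ∀ t ∈ Ico t₀ T, ∀ i j, i ≠ j → ¬ (i = a ∧ j = b) → ¬ (i = b ∧ j = a) →
      δ' ≤ ‖(γ t).1 i - (γ t).1 j‖ := by
    intro t h i j hij h1 h2
    by_cases hia : i = a
    · have hja : j ≠ a := by rintro rfl; exact hij hia
      have hjb : j ≠ b := fun e => h1 ⟨hia, e⟩
      rw [hia, norm_sub_rev]
      exact (hoth t h j hja hjb).1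
    · by_cases hib : i = b
      · have hjb : j ≠ b := by rintro rfl; exact hij hib
        have hja : j ≠ a := fun e => h2 ⟨hib, e⟩
        rw [hib, norm_sub_rev]
        exact (hoth t h j hja hjb).2
      · by_cases hja : j = a
        · rw [hja]
          exact (hoth t h i hia hib).1
        · by_cases hjb : j = b
          · rw [hjb]
            exact (hoth t h i hia hib).2
          · have hi : i ∈ others a b :=
              Finset.mem_erase.mpr ⟨hib, Finset.mem_erase.mpr ⟨hia, Finset.mem_univ _⟩⟩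
            have hj : j ∈ others a b :=
              Finset.mem_erase.mpr ⟨hjb, Finset.mem_erase.mpr ⟨hja, Finset.mem_univ _⟩⟩
            obtain ⟨-, -, -, h4⟩ := hE t h
            have h5 := hfar _ (norm_nonneg _) t h (h4 i hi j hj hij).1
            linarith
  -- derivatives of the positions
  have hder : ∀ t ∈ Ico t₀ T, ∀ i, HasDerivAt (fun s => (γ s).1 i) ((γ t).2 i) t := by
    intro t h i
    have h1 := (hγ' t h).2
    have h2 := ((ContinuousLinearMap.fst ℝ (Cf N d) (Cf N d)).hasFDerivAt.comp_hasDerivAt t h1)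
    exact (hasDerivAt_pi.mp h2) i
  have hcmder : ∀ t ∈ Ico t₀ T, HasDerivAt (fun s => cm m a b (γ s).1) (cm m a b (γ t).2) t := by
    intro t h
    exact (((hder t h a).const_smul (m a)).add ((hder t h b).const_smul (m b))).const_smul
      (m a + m b)⁻¹
  have hcmbdd := BinA_bdd (K := C₂ * √C₁) ht.2 hcmder (fun t h =>
    ((hge (γ t).2 a b hab).2.1).trans (mul_le_mul_of_nonneg_left (hKle t h) hC₂.le))
  have hcbdd : ∀ c ∈ others a b, ∀ t ∈ Ico t₀ T,
      ‖(γ t).1 c‖ ≤ ‖(γ t₀).1 c‖ + C₂ * √C₁ * (T - t₀) := fun c hc =>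
    BinA_bdd ht.2 (fun t h => hder t h c) (fun t h =>
      ((hge (γ t).2 a b hab).1 c hc).trans (mul_le_mul_of_nonneg_left (hKle t h) hC₂.le))
  have hr : ∀ t ∈ Ico t₀ T, ‖(γ t).1 a - (γ t).1 b‖ ≤ A := by
    intro t h
    have h1 := (hE t h).1
    have h2 := BinA_kred_nonneg hm a b (γ t).2
    nlinarith [norm_nonneg ((γ t).1 a - (γ t).1 b)]
  -- the relative energy
  set P₀ := (1 / 2) * ∑ i : Fin N, ∑ j : Fin N, m i * m j / δ' with hP₀
  have hma := hm a
  have hmb := hm b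
  set c₀ := (m a + m b) / (m a * m b) with hc₀
  have hc₀0 : 0 < c₀ := by positivity
  have henergy : ∀ t ∈ Ico t₀ T, |(1 / 2) * ‖(γ t).2 a - (γ t).2 b‖ ^ 2 -
      (m a + m b) / ‖(γ t).1 a - (γ t).1 b‖| ≤ c₀ * (|E| + C₁ + P₀) := by
    intro t h
    have h1 := BinA_pot hm hab hδ'0 (γ t).1 (hdist t h)
    have h2 := hH t (hsub t h)
    unfold Ham at h2
    rw [kin_split hm hab] at h2
    have h3 : (1 / 2) * ‖(γ t).2 a - (γ t).2 b‖ ^ 2 - (m a + m b) / ‖(γ t).1 a - (γ t).1 b‖ =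
        c₀ * (E - Kred m a b (γ t).2 +
          (Pot m (γ t).1 - m a * m b / ‖(γ t).1 a - (γ t).1 b‖)) := by
      have h4 : E - Kred m a b (γ t).2 + Pot m (γ t).1 =
          (1 / 2) * (m a * m b / (m a + m b)) * ‖(γ t).2 a - (γ t).2 b‖ ^ 2 := by linarith
      have h5 : E - Kred m a b (γ t).2 +
          (Pot m (γ t).1 - m a * m b / ‖(γ t).1 a - (γ t).1 b‖) =
          (1 / 2) * (m a * m b / (m a + m b)) * ‖(γ t).2 a - (γ t).2 b‖ ^ 2 -
            m a * m b / ‖(γ t).1 a - (γ t).1 b‖ := by linarith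
      rw [h5, hc₀]
      have h6 : (m a + m b) / (m a * m b) * ((1 / 2) * (m a * m b / (m a + m b)) *
          ‖(γ t).2 a - (γ t).2 b‖ ^ 2 - m a * m b / ‖(γ t).1 a - (γ t).1 b‖) =
          ((m a + m b) / (m a * m b) * (m a * m b / (m a + m b))) *
            ((1 / 2) * ‖(γ t).2 a - (γ t).2 b‖ ^ 2) -
            ((m a * m b) / (m a * m b)) * ((m a + m b) / ‖(γ t).1 a - (γ t).1 b‖) := by ring
      rw [h6]
      have h7 : (m a + m b) / (m a * m b) * (m a * m b / (m a + m b)) = 1 := by field_simp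
      have h8 : (m a * m b) / (m a * m b) = 1 := div_self (by positivity)
      rw [h7, h8, one_mul, one_mul]
    rw [h3, abs_mul, abs_of_pos hc₀0]
    refine mul_le_mul_of_nonneg_left ?_ hc₀0.le
    have h9 := BinA_kred_nonneg hm a b (γ t).2
    calc |E - Kred m a b (γ t).2 + (Pot m (γ t).1 - m a * m b / ‖(γ t).1 a - (γ t).1 b‖)|
        ≤ |E - Kred m a b (γ t).2| + |Pot m (γ t).1 - m a * m b / ‖(γ t).1 a - (γ t).1 b‖| :=
          abs_add_le _ _
      _ ≤ (|E| + |Kred m a b (γ t).2|) + P₀ := add_le_add (abs_sub _ _) h1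
      _ ≤ |E| + C₁ + P₀ := by
          rw [abs_of_nonneg h9]
          linarith [hC₁ t h]
  -- the constant
  set S₀ := ∑ i, ‖(γ t₀).1 i‖ with hS₀
  have hS₀i : ∀ i, ‖(γ t₀).1 i‖ ≤ S₀ := fun i =>
    Finset.single_le_sum (f := fun i => ‖(γ t₀).1 i‖) (fun j _ => norm_nonneg _)
      (Finset.mem_univ i)
  have hS₀0 : 0 ≤ S₀ := Finset.sum_nonneg fun j _ => norm_nonneg _
  have hP₀0 : 0 ≤ P₀ := by
    rw [hP₀]
    have : 0 ≤ ∑ i : Fin N, ∑ j : Fin N, m i * m j / δ' :=
      Finset.sum_nonneg fun i _ => Finset.sum_nonneg fun j _ => by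
        have := hm i
        have := hm j
        positivity
    positivity
  have hT0 : 0 ≤ T - t₀ := by linarith [ht.2]
  have hcc0 : 0 ≤ C₂ * √C₁ := by positivity
  have hD0 : 0 ≤ C₂ * √C₁ * (T - t₀) := by positivity
  have hen0 : 0 ≤ c₀ * (|E| + C₁ + P₀) := by positivity
  refine ⟨t₀, ht, δ', hδ'0, S₀ + ‖cm m a b (γ t₀).1‖ + C₂ * √C₁ * (T - t₀) + A + C₂ * √C₁ +
    c₀ * (|E| + C₁ + P₀), fun t h => ⟨hdist t h, ?_, ?_, ?_, ?_, ?_⟩, hlim⟩
  · intro i
    by_cases hi : i ∈ others a b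
    · have h1 := hcbdd i hi t h
      have h2 := hS₀i i
      have h3 := norm_nonneg (cm m a b (γ t₀).1)
      linarith
    · have h1 := hcmbdd t h
      obtain ⟨h7, h8⟩ := cm_dist hm hab (γ t).1
      have h2 := hr t h
      have h3 : i = a ∨ i = b := by
        by_contra hne
        push Not at hne
        exact hi (Finset.mem_erase.mpr ⟨hne.2, Finset.mem_erase.mpr ⟨hne.1, Finset.mem_univ _⟩⟩)
      have h4 : ‖cm m a b (γ t).1 - (γ t).1 i‖ ≤ ‖(γ t).1 a - (γ t).1 b‖ := by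
        rcases h3 with rfl | rfl
        · exact h7
        · exact h8
      have h5 : ‖(γ t).1 i‖ ≤ ‖cm m a b (γ t).1‖ + ‖cm m a b (γ t).1 - (γ t).1 i‖ := by
        calc ‖(γ t).1 i‖ = ‖cm m a b (γ t).1 - (cm m a b (γ t).1 - (γ t).1 i)‖ := by
              congr 1; abel
          _ ≤ _ := norm_sub_le _ _
      linarith
  · intro c hc
    have h1 := ((hge (γ t).2 a b hab).1 c hc).trans
      (mul_le_mul_of_nonneg_left (hKle t h) hC₂.le)
    have h3 := norm_nonneg (cm m a b (γ t₀).1)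
    linarith
  · have h1 := ((hge (γ t).2 a b hab).2.1).trans
      (mul_le_mul_of_nonneg_left (hKle t h) hC₂.le)
    have h3 := norm_nonneg (cm m a b (γ t₀).1)
    linarith
  · have h1 := (hE t h).2.1
    have h3 := norm_nonneg (cm m a b (γ t₀).1)
    linarith
  · have h1 := henergy t h
    have h3 := norm_nonneg (cm m a b (γ t₀).1)
    linarith

end HDN
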