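import Mathlib
import Pool.Agent.HDN.Phys

/-!
# Conservation of energy (project HDN)

`Kin' = ∑ m_a ⟪v_a, acc_a⟫`, and `Pot' = ∑_a m_a ⟪acc_a, v_a⟫`:
the derivative of `‖q_b - q_a‖⁻¹` is `-⟪q_b - q_a, v_b - v_a⟫ / ‖q_b - q_a‖ ^ 3`
(`HasDerivAt.norm_sq`, or `HasFDerivAt` of the norm away from `0`), symmetrise the double sum.
A function on `[0, T)` with derivative `0` is constant.
-/

open MeasureTheory Set Filter Topology Metric
open scoped NNReal ENNReal RealInnerProductSpace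

namespace HDN

variable {N d : ℕ} {m : Fin N → ℝ}

namespace ConsH

theorem hasDerivAt_norm {z : ℝ → Sp d} {z' : Sp d} {t : ℝ} (hz : HasDerivAt z z' t)
    (h0 : z t ≠ 0) : HasDerivAt (fun s => ‖z s‖) (⟪z t, z'⟫ / ‖z t‖) t := by
  have h1 := hz.norm_sq
  have h2 : ‖z t‖ ^ 2 ≠ 0 := pow_ne_zero 2 (norm_ne_zero_iff.2 h0)
  have h3 := h1.sqrt h2
  have h4 : (fun s => √(‖z s‖ ^ 2)) = fun s => ‖z s‖ := by
    funext s
    exact Real.sqrt_sq (norm_nonneg _)
  rw [h4, Real.sqrt_sq (norm_nonneg _)] at h3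
  refine h3.congr_deriv ?_
  rw [mul_div_mul_left _ _ two_ne_zero]

theorem hasDerivAt_div_norm {z : ℝ → Sp d} {z' : Sp d} {t : ℝ} (hz : HasDerivAt z z' t)
    (h0 : z t ≠ 0) (k : ℝ) :
    HasDerivAt (fun s => k / ‖z s‖) (-(k / ‖z t‖ ^ 3 * ⟪z t, z'⟫)) t := by
  have h1 := hasDerivAt_norm hz h0
  have h2 : ‖z t‖ ≠ 0 := norm_ne_zero_iff.2 h0
  have h3 := (hasDerivAt_const t k).div h1 h2
  refine h3.congr_deriv ?_
  field_simp
  ring

theorem pos_deriv {γ : ℝ → Ph N d} {t : ℝ} (h : HasDerivAt γ (nfield m (γ t)) t) (a : Fin N) :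
    HasDerivAt (fun s => (γ s).1 a) ((γ t).2 a) t := by
  have h1 : HasDerivAt (fun s => (γ s).1) (γ t).2 t := by
    have := (ContinuousLinearMap.fst ℝ (Cf N d) (Cf N d)).hasFDerivAt.comp_hasDerivAt t h
    exact this
  exact hasDerivAt_pi.1 h1 a

theorem vel_deriv {γ : ℝ → Ph N d} {t : ℝ} (h : HasDerivAt γ (nfield m (γ t)) t) (a : Fin N) :
    HasDerivAt (fun s => (γ s).2 a) (acc m (γ t).1 a) t := by
  have h1 : HasDerivAt (fun s => (γ s).2) (acc m (γ t).1) t := by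
    have := (ContinuousLinearMap.snd ℝ (Cf N d) (Cf N d)).hasFDerivAt.comp_hasDerivAt t h
    exact this
  exact hasDerivAt_pi.1 h1 a

theorem sum_erase_comm (F : Fin N → Fin N → ℝ) :
    ∑ a, ∑ b ∈ Finset.univ.erase a, F a b = ∑ a, ∑ b ∈ Finset.univ.erase a, F b a := by
  rw [Finset.sum_comm' (s' := fun b => Finset.univ.erase b) (t' := Finset.univ)]
  intro x y
  simp only [Finset.mem_univ, Finset.mem_erase, true_and, and_true]
  exact ne_comm

theorem ham_deriv {γ : ℝ → Ph N d} {t : ℝ} (hfree : Free (γ t).1)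
    (h : HasDerivAt γ (nfield m (γ t)) t) : HasDerivAt (fun s => Ham m (γ s)) 0 t := by
  have hK : HasDerivAt (fun s => Kin m (γ s).2)
      ((1 / 2) * ∑ a, m a * (2 * ⟪(γ t).2 a, acc m (γ t).1 a⟫)) t := by
    unfold Kin
    refine HasDerivAt.const_mul _ (HasDerivAt.fun_sum fun a _ => ?_)
    exact (vel_deriv h a).norm_sq.const_mul _
  have hP : HasDerivAt (fun s => Pot m (γ s).1)
      ((1 / 2) * ∑ a, ∑ b ∈ Finset.univ.erase a, -(m a * m b / ‖(γ t).1 b - (γ t).1 a‖ ^ 3 *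
        ⟪(γ t).1 b - (γ t).1 a, (γ t).2 b - (γ t).2 a⟫)) t := by
    unfold Pot
    refine HasDerivAt.const_mul _ (HasDerivAt.fun_sum fun a _ => HasDerivAt.fun_sum fun b hb => ?_)
    exact hasDerivAt_div_norm ((pos_deriv h b).sub (pos_deriv h a))
      (sub_ne_zero.2 (hfree b a (Finset.ne_of_mem_erase hb))) _
  have hH : HasDerivAt (fun s => Ham m (γ s)) _ t := hK.sub hP
  refine hH.congr_deriv ?_
  set q := (γ t).1 with hq
  set v := (γ t).2 with hv
  have e1 : (1 / 2 : ℝ) * ∑ a, m a * (2 * ⟪v a, acc m q a⟫) =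
      ∑ a, ∑ b ∈ Finset.univ.erase a, m a * m b / ‖q b - q a‖ ^ 3 * ⟪q b - q a, v a⟫ := by
    rw [Finset.mul_sum]
    refine Finset.sum_congr rfl fun a _ => ?_
    rw [acc, inner_sum, Finset.mul_sum, Finset.mul_sum, Finset.mul_sum]
    refine Finset.sum_congr rfl fun b _ => ?_
    rw [real_inner_smul_right, real_inner_comm]
    ring
  have e2 := sum_erase_comm
    (fun a b => m a * m b / ‖q b - q a‖ ^ 3 * ⟪q b - q a, v a⟫)
  have e3 : ∑ a, ∑ b ∈ Finset.univ.erase a, -(m a * m b / ‖q b - q a‖ ^ 3 *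
        ⟪q b - q a, v b - v a⟫) =
      ∑ a, ∑ b ∈ Finset.univ.erase a, m a * m b / ‖q b - q a‖ ^ 3 * ⟪q b - q a, v a⟫ +
      ∑ a, ∑ b ∈ Finset.univ.erase a, m b * m a / ‖q a - q b‖ ^ 3 * ⟪q a - q b, v b⟫ := by
    rw [← Finset.sum_add_distrib]
    refine Finset.sum_congr rfl fun a _ => ?_
    rw [← Finset.sum_add_distrib]
    refine Finset.sum_congr rfl fun b _ => ?_
    rw [inner_sub_right, norm_sub_rev (q a) (q b), ← neg_sub (q b) (q a), inner_neg_left]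
    ring
  rw [e1, e3, ← e2]
  ring

end ConsH

theorem ham_const {γ : ℝ → Ph N d} {T : ℝ}
    (hγ : SolOn (nfield m) (FreeSet N d) γ (Ico 0 T)) :
    ∀ t ∈ Ico 0 T, Ham m (γ t) = Ham m (γ 0) := by
  intro t ht
  have hd : ∀ s ∈ Icc 0 t, HasDerivAt (fun s => Ham m (γ s)) 0 s := by
    intro s hs
    obtain ⟨h1, h2⟩ := hγ s ⟨hs.1, hs.2.trans_lt ht.2⟩
    exact ConsH.ham_deriv h1 h2
  exact constant_of_has_deriv_right_zero
    (fun s hs => (hd s hs).continuousAt.continuousWithinAt)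
    (fun s hs => (hd s ⟨hs.1, hs.2.le⟩).hasDerivWithinAt) t ⟨ht.1, le_rfl⟩

end HDN
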