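import Mathlib
import Pool.Agent.HDN.Phys

/-!
# Conservation of angular momentum (project HDN)

The derivative of `∑ m_a wedge q_a v_a` is `∑ m_a wedge v_a v_a (= 0) +
∑ m_a wedge q_a acc_a = 0` (the double sum is antisymmetric: `wedge q_a (q_b - q_a) +
wedge q_b (q_a - q_b) = wedge (q_a - q_b) (q_b - q_a) = 0`), `∑ m_a v_a` is constant
(`∑ m_a acc_a = 0`), `∑ m_a q_a` has derivative `∑ m_a v_a`. `wedge` is a continuous bilinear
map. A function on `[0, T)` with derivative `0` is constant.
-/

open MeasureTheory Set Filter Topology Metric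
open scoped NNReal ENNReal RealInnerProductSpace

namespace HDN

variable {N d : ℕ} {m : Fin N → ℝ}

namespace ConsL

theorem hasDerivAt_wedge {x w : ℝ → Sp d} {x' w' : Sp d} {t : ℝ} (hx : HasDerivAt x x' t)
    (hw : HasDerivAt w w' t) (z : Sp d) :
    HasDerivAt (fun s => wedge (x s) (w s) z) (wedge x' (w t) z + wedge (x t) w' z) t := by
  simp only [wedge_apply]
  have h1 : HasDerivAt (fun s => ⟪w s, z⟫) ⟪w', z⟫ t := by
    have h := hw.inner ℝ (hasDerivAt_const t z)
    simpa using h
  have h2 : HasDerivAt (fun s => ⟪x s, z⟫) ⟪x', z⟫ t := by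
    have h := hx.inner ℝ (hasDerivAt_const t z)
    simpa using h
  refine ((h1.smul hx).sub (h2.smul hw)).congr_deriv ?_
  module

theorem wedge_self (x z : Sp d) : wedge x x z = 0 := by
  rw [wedge_apply, sub_self]

theorem antisym_sum {E : Type*} [AddCommGroup E] [Module ℝ E] (F : Fin N → Fin N → E)
    (h : ∀ a b, F a b = - F b a) : ∑ a, ∑ b ∈ Finset.univ.erase a, F a b = 0 := by
  have h0 : ∀ a, F a a = 0 := by
    intro a
    have h1 := h a a
    have h2 : (2 : ℝ) • F a a = 0 := by
      rw [two_smul]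
      nth_rw 1 [h1]
      exact neg_add_cancel _
    exact (smul_eq_zero.mp h2).resolve_left two_ne_zero
  have h1 : ∀ a, ∑ b ∈ Finset.univ.erase a, F a b = ∑ b, F a b := fun a =>
    Finset.sum_erase _ (h0 a)
  simp only [h1]
  set S := ∑ a, ∑ b, F a b with hS
  have h2 : S = - S := by
    conv_lhs => rw [hS, Finset.sum_comm]
    rw [hS, ← Finset.sum_neg_distrib]
    refine Finset.sum_congr rfl fun b _ => ?_
    rw [← Finset.sum_neg_distrib]
    exact Finset.sum_congr rfl fun a _ => h a b
  have h3 : (2 : ℝ) • S = 0 := by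
    rw [two_smul]
    nth_rw 1 [h2]
    exact neg_add_cancel _
  exact (smul_eq_zero.mp h3).resolve_left two_ne_zero

theorem sum_acc (q : Cf N d) : ∑ a, m a • acc m q a = 0 := by
  have h : ∀ a, m a • acc m q a
      = ∑ b ∈ Finset.univ.erase a, (m a * (m b / ‖q b - q a‖ ^ 3)) • (q b - q a) := by
    intro a
    simp only [acc, Finset.smul_sum, smul_smul]
  simp only [h]
  apply antisym_sum
  intro a b
  rw [norm_sub_rev (q b) (q a), ← smul_neg, neg_sub]
  congr 1
  ring

theorem wedge_sub_right (x w w' z : Sp d) : wedge x (w - w') z = wedge x w z - wedge x w' z := by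
  simp only [wedge_apply, inner_sub_left]
  module

theorem wedge_smul_right (x w z : Sp d) (c : ℝ) : wedge x (c • w) z = c • wedge x w z := by
  simp only [wedge_apply, real_inner_smul_left]
  module

theorem wedge_sum_right {ι : Type*} (s : Finset ι) (x : Sp d) (w : ι → Sp d) (z : Sp d) :
    wedge x (∑ i ∈ s, w i) z = ∑ i ∈ s, wedge x (w i) z := by
  simp only [wedge_apply, sum_inner, Finset.sum_smul, Finset.smul_sum, Finset.sum_sub_distrib]

theorem wedge_zero_right (x z : Sp d) : wedge x 0 z = 0 := by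
  simp

theorem sum_wedge_acc (q : Cf N d) (z : Sp d) :
    ∑ a, m a • wedge (q a) (acc m q a) z = 0 := by
  have h : ∀ a, m a • wedge (q a) (acc m q a) z
      = ∑ b ∈ Finset.univ.erase a,
        (m a * (m b / ‖q b - q a‖ ^ 3)) • wedge (q a) (q b - q a) z := by
    intro a
    simp only [acc, wedge_sum_right, wedge_smul_right, Finset.smul_sum, smul_smul]
  simp only [h]
  apply antisym_sum
  intro a b
  rw [norm_sub_rev (q b) (q a), wedge_sub_right, wedge_sub_right, wedge_self, wedge_self,
    sub_zero, sub_zero]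
  have e : wedge (q b) (q a) z = - wedge (q a) (q b) z := by
    simp only [wedge_apply]
    module
  rw [e, smul_neg, neg_neg]
  congr 1
  ring

theorem hasDerivAt_lop {γ : ℝ → Ph N d} {t : ℝ} (h : HasDerivAt γ (nfield m (γ t)) t)
    (z : Sp d) : HasDerivAt (fun s => Lop m (γ s) z) 0 t := by
  have hq : ∀ a, HasDerivAt (fun s => (γ s).1 a) ((γ t).2 a) t := by
    intro a
    have h1 := h.fst
    exact (hasDerivAt_pi.mp h1) a
  have hv : ∀ a, HasDerivAt (fun s => (γ s).2 a) (acc m (γ t).1 a) t := by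
    intro a
    have h1 := h.snd
    exact (hasDerivAt_pi.mp h1) a
  have hA : HasDerivAt (fun s => ∑ a, m a • wedge ((γ s).1 a) ((γ s).2 a) z)
      (∑ a, m a • (wedge ((γ t).2 a) ((γ t).2 a) z
        + wedge ((γ t).1 a) (acc m (γ t).1 a) z)) t := by
    apply HasDerivAt.fun_sum
    intro a _
    exact (hasDerivAt_wedge (hq a) (hv a) z).const_smul (m a)
  have hQ : HasDerivAt (fun s => ∑ a, m a • (γ s).1 a) (∑ a, m a • (γ t).2 a) t := by
    apply HasDerivAt.fun_sum
    intro a _
    exact (hq a).const_smul (m a)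
  have hV : HasDerivAt (fun s => ∑ a, m a • (γ s).2 a) (∑ a, m a • acc m (γ t).1 a) t := by
    apply HasDerivAt.fun_sum
    intro a _
    exact (hv a).const_smul (m a)
  have hB := (hasDerivAt_wedge hQ hV z).const_smul ((∑ a, m a)⁻¹)
  have hC := hA.sub hB
  have e1 : (∑ a, m a • (wedge ((γ t).2 a) ((γ t).2 a) z
        + wedge ((γ t).1 a) (acc m (γ t).1 a) z)) = 0 := by
    simp only [wedge_self, zero_add]
    exact sum_wedge_acc _ z
  rw [e1, wedge_self, sum_acc, wedge_zero_right, add_zero, smul_zero, sub_zero] at hC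
  refine hC.congr_of_eventuallyEq (Filter.Eventually.of_forall fun s => ?_)
  simp [Lop]

end ConsL

theorem lop_const {γ : ℝ → Ph N d} {T : ℝ}
    (hγ : SolOn (nfield m) (FreeSet N d) γ (Ico 0 T)) :
    ∀ t ∈ Ico 0 T, Lop m (γ t) = Lop m (γ 0) := by
  intro t ht
  ext1 z
  have hd : ∀ s ∈ Icc 0 t, HasDerivAt (fun s => Lop m (γ s) z) 0 s := fun s hs =>
    ConsL.hasDerivAt_lop (hγ s ⟨hs.1, lt_of_le_of_lt hs.2 ht.2⟩).2 z
  exact constant_of_has_deriv_right_zero (a := 0) (b := t)
    (fun s hs => (hd s hs).continuousAt.continuousWithinAt)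
    (fun s hs => (hd s (Ico_subset_Icc_self hs)).hasDerivWithinAt) t ⟨ht.1, le_rfl⟩

end HDN
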