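import Mathlib
import Pool.Agent.HDN.Phys

/-!
# Painleve's theorem: at a singularity the smallest distance tends to zero (project HDN)

Let `E = Ham m (γ 0)`. Whenever all distances are `≥ ε` one has
`Kin = E + Pot ≤ |E| + (∑ m)^2 / (2 ε)` (at most), hence all speeds are `≤ C(ε)`.

`pain_step`: if all distances are `≥ ε` at a time `t₁` with `(T - t₁) * 8 * C(ε/2) ≤ ε`
then all distances are `≥ ε / 2` on `[t₁, T)`: otherwise let `t₂` be the first time at which some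
distance is `≤ ε / 2`; on `[t₁, t₂]` all speeds are `≤ C(ε / 2)`, so each distance changes by at
most `2 C(ε/2) (T - t₁) ≤ ε / 4`.

`painleve`: otherwise there is `ε > 0` such that for every `t₀ < T` there is `t₁ ∈ [t₀, T)` with all
distances `≥ ε`; by `pain_step` all distances are `≥ ε / 2` on `[t₁, T)`, on the compact interval
`[0, t₁]` all distances have a positive lower bound; so all distances are `≥ ε' > 0` on `[0, T)`,
all speeds are bounded, all positions are bounded, and `γ` stays in the compact set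
`{x | ‖x‖ ≤ R ∧ ∀ a ≠ b, ε' ≤ ‖x.1 a - x.1 b‖} ⊆ FreeSet`, contradiction.
-/

open MeasureTheory Set Filter Topology Metric
open scoped NNReal ENNReal RealInnerProductSpace

namespace HDN

variable {N d : ℕ} {m : Fin N → ℝ}

/-- speeds are controlled by the smallest distance -/
theorem speed_bound (hm : ∀ i, 0 < m i) (E : ℝ) {ε : ℝ} (hε : 0 < ε) :
    ∃ C > 0, ∀ x : Ph N d, Ham m x = E → (∀ a b, a ≠ b → ε ≤ ‖x.1 a - x.1 b‖) →
      ∀ a, ‖x.2 a‖ ≤ C := by
  obtain ⟨P, hP⟩ : ∃ P : ℝ, P = (1 / 2) * ∑ a : Fin N, ∑ b ∈ Finset.univ.erase a,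
      m a * m b / ε := ⟨_, rfl⟩
  have hP0 : 0 ≤ P := by
    rw [hP]
    apply mul_nonneg (by norm_num)
    refine Finset.sum_nonneg fun a _ => Finset.sum_nonneg fun b _ => ?_
    exact div_nonneg (mul_nonneg (hm a).le (hm b).le) hε.le
  have hX : ∀ a, 0 ≤ 2 * (|E| + P) / m a := fun a =>
    div_nonneg (by positivity) (hm a).le
  refine ⟨1 + ∑ a, 2 * (|E| + P) / m a, ?_, ?_⟩
  · have := Finset.sum_nonneg fun a (_ : a ∈ (Finset.univ : Finset (Fin N))) => hX a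
    linarith
  · intro x hE hd a
    have hPot : Pot m x.1 ≤ P := by
      rw [hP]
      unfold Pot
      apply mul_le_mul_of_nonneg_left _ (by norm_num)
      refine Finset.sum_le_sum fun a _ => Finset.sum_le_sum fun b hb => ?_
      have hba : b ≠ a := (Finset.mem_erase.1 hb).1
      exact div_le_div_of_nonneg_left (mul_nonneg (hm a).le (hm b).le) hε (hd b a hba)
    have hKin : Kin m x.2 ≤ |E| + P := by
      have h1 : Kin m x.2 = E + Pot m x.1 := by
        rw [← hE]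
        unfold Ham
        ring
      rw [h1]
      exact add_le_add (le_abs_self E) hPot
    have h2 : (1 / 2) * (m a * ‖x.2 a‖ ^ 2) ≤ Kin m x.2 := by
      unfold Kin
      apply mul_le_mul_of_nonneg_left _ (by norm_num)
      exact Finset.single_le_sum (f := fun a => m a * ‖x.2 a‖ ^ 2)
        (fun b _ => mul_nonneg (hm b).le (sq_nonneg _)) (Finset.mem_univ a)
    have h3 : ‖x.2 a‖ ^ 2 ≤ 2 * (|E| + P) / m a := by
      rw [le_div_iff₀ (hm a)]
      nlinarith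
    have h4 : 2 * (|E| + P) / m a ≤ ∑ a, 2 * (|E| + P) / m a :=
      Finset.single_le_sum (f := fun a => 2 * (|E| + P) / m a) (fun b _ => hX b)
        (Finset.mem_univ a)
    have h5 := norm_nonneg (x.2 a)
    nlinarith [sq_nonneg (‖x.2 a‖ - 1)]

theorem PainA_deriv {γ : ℝ → Ph N d} {t : ℝ} {x : Ph N d} (h : HasDerivAt γ (nfield m x) t)
    (a b : Fin N) :
    HasDerivAt (fun s => (γ s).1 a - (γ s).1 b) (x.2 a - x.2 b) t := by
  have h1 : HasDerivAt (fun s => (γ s).1) x.2 t := h.fst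
  have h2 := hasDerivAt_pi.1 h1
  exact (h2 a).sub (h2 b)

theorem pain_step (hm : ∀ i, 0 < m i) (E : ℝ) {ε : ℝ} (hε : 0 < ε) :
    ∃ η > 0, ∀ (γ : ℝ → Ph N d) (T t₁ : ℝ), t₁ < T → T - t₁ ≤ η →
      SolOn (nfield m) (FreeSet N d) γ (Ico t₁ T) → (∀ t ∈ Ico t₁ T, Ham m (γ t) = E) →
      (∀ a b, a ≠ b → ε ≤ ‖(γ t₁).1 a - (γ t₁).1 b‖) →
      ∀ t ∈ Ico t₁ T, ∀ a b, a ≠ b → ε / 2 ≤ ‖(γ t).1 a - (γ t).1 b‖ := by
  obtain ⟨C, hC, hsp⟩ := speed_bound (N := N) (d := d) hm E (half_pos hε)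
  refine ⟨ε / (8 * C), by positivity, ?_⟩
  intro γ T t₁ _ hη hsol hE hinit
  intro s hs a₀ b₀ hab₀
  by_contra hlt
  push Not at hlt
  have hder : ∀ t ∈ Icc t₁ s, ∀ a b, HasDerivAt (fun s => (γ s).1 a - (γ s).1 b)
      ((γ t).2 a - (γ t).2 b) t := fun t ht a b =>
    PainA_deriv (hsol t ⟨ht.1, lt_of_le_of_lt ht.2 hs.2⟩).2 a b
  have hcont : ∀ a b, ContinuousOn (fun t => (γ t).1 a - (γ t).1 b) (Icc t₁ s) :=
    fun a b t ht => (hder t ht a b).continuousAt.continuousWithinAt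
  let S : Set ℝ := ⋃ a : Fin N, ⋃ b : Fin N, ⋃ _ : a ≠ b,
    {t ∈ Icc t₁ s | ‖(γ t).1 a - (γ t).1 b‖ ≤ ε / 2}
  have hSclosed : IsClosed S := by
    refine isClosed_iUnion_of_finite fun a => isClosed_iUnion_of_finite fun b =>
      isClosed_iUnion_of_finite fun _ => ?_
    exact ((hcont a b).norm).preimage_isClosed_of_isClosed isClosed_Icc isClosed_Iic
  have hSsub : S ⊆ Icc t₁ s := by
    intro t ht
    simp only [S, mem_iUnion] at ht
    obtain ⟨a, b, _, ht'⟩ := ht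
    exact ht'.1
  have hSne : S.Nonempty := by
    refine ⟨s, ?_⟩
    simp only [S, mem_iUnion]
    exact ⟨a₀, b₀, hab₀, ⟨hs.1, le_rfl⟩, hlt.le⟩
  obtain ⟨t₂, ht₂, hleast⟩ :=
    (isCompact_Icc.of_isClosed_subset hSclosed hSsub).exists_isLeast hSne
  have hbefore : ∀ t ∈ Ico t₁ t₂, ∀ a b, a ≠ b → ε / 2 ≤ ‖(γ t).1 a - (γ t).1 b‖ := by
    intro t ht a b hab
    by_contra hcon
    push Not at hcon
    have htS : t ∈ S := by
      simp only [S, mem_iUnion]
      exact ⟨a, b, hab, ⟨ht.1, ht.2.le.trans (hSsub ht₂).2⟩, hcon.le⟩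
    exact absurd (hleast htS) (not_le.2 ht.2)
  have hI := hSsub ht₂
  have ht₂' := ht₂
  simp only [S, mem_iUnion] at ht₂'
  obtain ⟨a, b, hab, _, hle⟩ := ht₂'
  have hmv : ‖((γ t₂).1 a - (γ t₂).1 b) - ((γ t₁).1 a - (γ t₁).1 b)‖ ≤ 2 * C * (t₂ - t₁) := by
    refine norm_image_sub_le_of_norm_deriv_right_le_segment
      (f := fun t => (γ t).1 a - (γ t).1 b) (f' := fun t => (γ t).2 a - (γ t).2 b)
      ((hcont a b).mono (Icc_subset_Icc_right hI.2)) ?_ ?_ t₂ ⟨hI.1, le_rfl⟩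
    · intro t ht
      exact (hder t ⟨ht.1, ht.2.le.trans hI.2⟩ a b).hasDerivWithinAt
    · intro t ht
      have htT : t ∈ Ico t₁ T := ⟨ht.1, lt_of_lt_of_le ht.2 (hI.2.trans hs.2.le)⟩
      have h1 := hsp (γ t) (hE t htT) (hbefore t ht)
      calc ‖(γ t).2 a - (γ t).2 b‖ ≤ ‖(γ t).2 a‖ + ‖(γ t).2 b‖ := norm_sub_le _ _
        _ ≤ C + C := add_le_add (h1 a) (h1 b)
        _ = 2 * C := by ring
  have h3 : t₂ - t₁ ≤ ε / (8 * C) := by
    have : t₂ - t₁ ≤ T - t₁ := by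
      have := hI.2.trans hs.2.le
      linarith
    exact this.trans hη
  have h4 : 2 * C * (t₂ - t₁) ≤ ε / 4 := by
    calc 2 * C * (t₂ - t₁) ≤ 2 * C * (ε / (8 * C)) :=
          mul_le_mul_of_nonneg_left h3 (by positivity)
      _ = ε / 4 := by field_simp; norm_num
  have h5 := hinit a b hab
  have h6 : ‖(γ t₁).1 a - (γ t₁).1 b‖ ≤ ‖(γ t₂).1 a - (γ t₂).1 b‖ +
      ‖((γ t₂).1 a - (γ t₂).1 b) - ((γ t₁).1 a - (γ t₁).1 b)‖ := by
    rw [norm_sub_rev ((γ t₂).1 a - (γ t₂).1 b)]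
    have := norm_add_le ((γ t₂).1 a - (γ t₂).1 b)
      (((γ t₁).1 a - (γ t₁).1 b) - ((γ t₂).1 a - (γ t₂).1 b))
    rwa [add_sub_cancel] at this
  linarith

end HDN
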