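import Mathlib
import Pool.Agent.HDN.Phys
import Pool.Agent.HDN.ConsH
import Pool.Agent.HDN.PainA

/-!
# Painleve's theorem: at a singularity the smallest distance tends to zero (project HDN)

Let `E = Ham m (γ 0)`. Whenever all distances are `≥ ε` one has
`Kin = E + Pot ≤ |E| + (∑ m)^2 / (2 ε)` (at most), hence all speeds are `≤ C(ε)`.

`pain_step`: if all distances are `≥ ε` at a time `t₁` with `(T - t₁) * 8 * C(ε/2) ≤ ε`
then all distances are `≥ ε / 2` on `[t₁, T)`: otherwise let `t₂` be the first time at which some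
distance is `≤ ε / 2`; on `[t₁, t₂]` all speeds are `≤ C(ε / 2)`, so each distance changes by at
most `2 C(ε/2) (T - t₁) ≤ ε / 4`.

`painleve`: otherwise there is `ε > 0` such that for every `t₀ < T` there is `t₁ ∈ [t₀, T)` with all
distances `≥ ε`; by `pain_step` all distances are `≥ ε / 2` on `[t₁, T)`, on the compact interval
`[0, t₁]` all distances have a positive lower bound; so all distances are `≥ ε' > 0` on `[0, T)`,
all speeds are bounded, all positions are bounded, and `γ` stays in the compact set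
`{x | ‖x‖ ≤ R ∧ ∀ a ≠ b, ε' ≤ ‖x.1 a - x.1 b‖} ⊆ FreeSet`, contradiction.
-/

open MeasureTheory Set Filter Topology Metric
open scoped NNReal ENNReal RealInnerProductSpace

namespace HDN

variable {N d : ℕ} {m : Fin N → ℝ}

private theorem painB_deriv {γ : ℝ → Ph N d} {S : Set ℝ}
    (hγ : SolOn (nfield m) (FreeSet N d) γ S) {t : ℝ} (ht : t ∈ S) (a : Fin N) :
    HasDerivAt (fun s => (γ s).1 a) ((γ t).2 a) t := by
  have h1 : HasDerivAt γ (nfield m (γ t)) t := (hγ t ht).2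
  have h2 : HasDerivAt (fun s => (γ s).1) ((γ t).2) t := by
    have := (hasFDerivAt_fst (𝕜 := ℝ) (p := γ t)).comp_hasDerivAt t h1
    exact this
  exact hasDerivAt_pi.1 h2 a

theorem painleve (hm : ∀ i, 0 < m i) {γ : ℝ → Ph N d} {T : ℝ} (hT : 0 < T)
    (hγ : SolOn (nfield m) (FreeSet N d) γ (Ico 0 T))
    (hK : ∀ K, IsCompact K → K ⊆ FreeSet N d → ∃ t ∈ Ico 0 T, γ t ∉ K) :
    ∀ ε > 0, ∃ t₀ ∈ Ico 0 T, ∀ t ∈ Ico t₀ T, ∃ a b, a ≠ b ∧ ‖(γ t).1 a - (γ t).1 b‖ < ε := by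
  intro ε hε
  by_contra hcon
  push Not at hcon
  have hE := ham_const hγ
  obtain ⟨η, hη, hstep⟩ := pain_step (N := N) (d := d) hm (Ham m (γ 0)) hε
  obtain ⟨t₁, ht₁, hd₁⟩ := hcon (max 0 (T - η)) ⟨le_max_left _ _, max_lt hT (by linarith)⟩
  have ht₁0 : 0 ≤ t₁ := (le_max_left _ _).trans ht₁.1
  have hsub : Ico t₁ T ⊆ Ico 0 T := Ico_subset_Ico_left ht₁0
  have h2 : ∀ t ∈ Ico t₁ T, ∀ a b, a ≠ b → ε / 2 ≤ ‖(γ t).1 a - (γ t).1 b‖ := by
    refine hstep γ T t₁ ht₁.2 ?_ (fun t ht => hγ t (hsub ht)) (fun t ht => hE t (hsub ht)) ?_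
    · have := (le_max_right 0 (T - η)).trans ht₁.1
      linarith
    · intro a b hab
      exact hd₁ a b hab
  -- lower bound on the compact interval
  have hcont : ContinuousOn γ (Icc 0 t₁) := fun t ht =>
    ((hγ t ⟨ht.1, lt_of_le_of_lt ht.2 ht₁.2⟩).2).continuousAt.continuousWithinAt
  have h3 : ∀ p : Fin N × Fin N, ∃ e > 0, p.1 ≠ p.2 →
      ∀ t ∈ Icc 0 t₁, e ≤ ‖(γ t).1 p.1 - (γ t).1 p.2‖ := by
    rintro ⟨a, b⟩
    by_cases hab : a = b
    · exact ⟨1, one_pos, fun h => absurd hab h⟩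
    · have hc : ContinuousOn (fun t => ‖(γ t).1 a - (γ t).1 b‖) (Icc 0 t₁) := by
        have hc1 : Continuous fun x : Ph N d => ‖x.1 a - x.1 b‖ := by fun_prop
        exact hc1.comp_continuousOn hcont
      obtain ⟨s, hs, hmin⟩ := isCompact_Icc.exists_isMinOn (nonempty_Icc.2 ht₁0) hc
      refine ⟨‖(γ s).1 a - (γ s).1 b‖, ?_, fun _ t ht => hmin ht⟩
      have hfree : Free (γ s).1 := (hγ s ⟨hs.1, lt_of_le_of_lt hs.2 ht₁.2⟩).1
      exact norm_pos_iff.2 (sub_ne_zero.2 (hfree a b hab))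
  choose e he hle using h3
  obtain ⟨e₁, he₁, hle₁⟩ : ∃ e₁ > 0, ∀ p, e₁ ≤ e p := by
    rcases isEmpty_or_nonempty (Fin N × Fin N) with hN | hN
    · exact ⟨1, one_pos, fun p => isEmptyElim p⟩
    · obtain ⟨q, -, hq⟩ := Finset.exists_min_image (Finset.univ : Finset (Fin N × Fin N)) e
        Finset.univ_nonempty
      exact ⟨e q, he q, fun p => hq p (Finset.mem_univ p)⟩
  set ε' := min e₁ (ε / 2) with hε'
  have hε'pos : 0 < ε' := lt_min he₁ (by linarith)
  have h4 : ∀ t ∈ Ico 0 T, ∀ a b, a ≠ b → ε' ≤ ‖(γ t).1 a - (γ t).1 b‖ := by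
    intro t ht a b hab
    rcases le_total t t₁ with h | h
    · exact (min_le_left _ _).trans ((hle₁ (a, b)).trans (hle (a, b) hab t ⟨ht.1, h⟩))
    · exact (min_le_right _ _).trans (h2 t ⟨h, ht.2⟩ a b hab)
  obtain ⟨C, hC, hspeed⟩ := speed_bound (N := N) (d := d) hm (Ham m (γ 0)) hε'pos
  have h5 : ∀ t ∈ Ico 0 T, ∀ a, ‖(γ t).2 a‖ ≤ C := fun t ht a =>
    hspeed (γ t) (hE t ht) (h4 t ht) a
  have h6 : ∀ t ∈ Ico 0 T, ∀ a, ‖(γ t).1 a‖ ≤ ‖(γ 0).1‖ + C * T := by
    intro t ht a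
    have h7 : ‖(γ t).1 a - (γ 0).1 a‖ ≤ C * (t - 0) := by
      refine norm_image_sub_le_of_norm_deriv_le_segment' (f := fun s => (γ s).1 a)
        (f' := fun s => (γ s).2 a) (a := 0) (b := t) ?_ ?_ t (right_mem_Icc.2 ht.1)
      · intro s hs
        exact (painB_deriv hγ (⟨hs.1, lt_of_le_of_lt hs.2 ht.2⟩ : s ∈ Ico 0 T) a).hasDerivWithinAt
      · intro s hs
        exact h5 s ⟨hs.1, hs.2.trans ht.2⟩ a
    have h8 : ‖(γ 0).1 a‖ ≤ ‖(γ 0).1‖ := norm_le_pi_norm _ a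
    have h9 : ‖(γ t).1 a‖ ≤ ‖(γ t).1 a - (γ 0).1 a‖ + ‖(γ 0).1 a‖ := by
      have := norm_add_le ((γ t).1 a - (γ 0).1 a) ((γ 0).1 a)
      rwa [sub_add_cancel] at this
    have h10 : C * (t - 0) ≤ C * T := by
      apply mul_le_mul_of_nonneg_left _ hC.le
      linarith [ht.2]
    linarith
  set R := ‖(γ 0).1‖ + C * T + C with hR
  have hRT : 0 ≤ C * T := by positivity
  set K : Set (Ph N d) := closedBall 0 R ∩ {x | ∀ a b, a ≠ b → ε' ≤ ‖x.1 a - x.1 b‖} with hKdef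
  have hKc : IsCompact K := by
    refine (isCompact_closedBall 0 R).inter_right ?_
    simp only [Set.ofPred_forall]
    refine isClosed_iInter fun a => isClosed_iInter fun b => isClosed_iInter fun _ => ?_
    exact isClosed_le continuous_const (by fun_prop)
  have hKf : K ⊆ FreeSet N d := by
    intro x hx a b hab heq
    have := hx.2 a b hab
    rw [heq, sub_self, norm_zero] at this
    linarith
  obtain ⟨t, ht, hnot⟩ := hK K hKc hKf
  apply hnot
  refine ⟨?_, h4 t ht⟩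
  rw [mem_closedBall_zero_iff, Prod.norm_def]
  refine max_le ?_ ?_
  · refine (pi_norm_le_iff_of_nonneg (by positivity)).2 fun a => ?_
    exact (h6 t ht a).trans (by linarith)
  · refine (pi_norm_le_iff_of_nonneg (by positivity)).2 fun a => ?_
    refine (h5 t ht a).trans ?_
    have := norm_nonneg (γ 0).1
    linarith

end HDN
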