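import Mathlib
import Pool.Agent.HDN.Phys

/-!
# The closest pair does not change (project HDN)

`min_const`: continuous positive functions `f p` on `[t₀, T)`, finitely many, such that at every
time the minimal one is at most half of every other one. Then the same `p` is minimal at all times:
for `p' ≠ p` the function `f p' - f p` is positive at `t₀`; if it is negative or zero somewhere,
consider the infimum `t*` of the times `t` at which `f p t ≤ f p' t` for all `p'` fails; there
(continuity) `f p t* ≤ f p' t*` for all `p'`, so `2 f p t* ≤ f p' t*` for all `p' ≠ p`, and the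
strict inequality `f p < f p'` persists on a neighbourhood, contradiction.
(Alternatively intermediate value theorem for `f p - min_{p' ≠ p} f p'`.)
-/

open MeasureTheory Set Filter Topology Metric
open scoped NNReal ENNReal RealInnerProductSpace

namespace HDN

theorem min_const {ι : Type*} [Finite ι] {f : ι → ℝ → ℝ} {t₀ T : ℝ}
    (hc : ∀ p, ContinuousOn (f p) (Ico t₀ T)) (hpos : ∀ p, ∀ t ∈ Ico t₀ T, 0 < f p t)
    (h : ∀ t ∈ Ico t₀ T, ∀ p, (∀ p', f p t ≤ f p' t) → ∀ p', p' ≠ p → 2 * f p t ≤ f p' t)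
    {p : ι} (hp : ∀ p', f p t₀ ≤ f p' t₀) :
    ∀ t ∈ Ico t₀ T, ∀ p', f p t ≤ f p' t := by
  intro t ht
  have hsub : Icc t₀ t ⊆ Ico t₀ T := fun u hu => ⟨hu.1, lt_of_le_of_lt hu.2 ht.2⟩
  have hcc : ∀ p, ContinuousOn (f p) (Icc t₀ t) := fun p => (hc p).mono hsub
  have hcl : IsClosed ({u | ∀ p', f p u ≤ f p' u} ∩ Icc t₀ t) := by
    have h1 : {u | ∀ p', f p u ≤ f p' u} ∩ Icc t₀ t
        = Icc t₀ t ∩ ⋂ p', {u | u ∈ Icc t₀ t ∧ f p u ≤ f p' u} := by
      ext u
      simp only [mem_inter_iff, mem_setOf_eq, mem_iInter]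
      constructor
      · rintro ⟨h1, h2⟩
        exact ⟨h2, fun p' => ⟨h2, h1 p'⟩⟩
      · rintro ⟨h1, h2⟩
        exact ⟨fun p' => (h2 p').2, h1⟩
    rw [h1]
    exact isClosed_Icc.inter
      (isClosed_iInter fun p' => isClosed_Icc.isClosed_le (hcc p) (hcc p'))
  have key : Icc t₀ t ⊆ {u | ∀ p', f p u ≤ f p' u} := by
    refine IsClosed.Icc_subset_of_forall_exists_gt hcl hp ?_
    rintro s ⟨hs1, hs2⟩ y hy
    have hsI : s ∈ Ico t₀ T := ⟨hs2.1, hs2.2.trans ht.2⟩
    have hev : ∀ p', ∀ᶠ u in 𝓝[>] s, f p u ≤ f p' u := by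
      intro p'
      by_cases hpp : p' = p
      · subst hpp
        exact Filter.Eventually.of_forall fun u => le_rfl
      · have h2 := h s hsI p hs1 p' hpp
        have h3 := hpos p s hsI
        have h4 : f p s < f p' s := by linarith
        have hcs : ∀ q, Tendsto (f q) (𝓝[>] s) (𝓝 (f q s)) := by
          intro q
          have h5 : ContinuousWithinAt (f q) (Ico t₀ T) s := hc q s hsI
          have h6 : 𝓝[>] s ≤ 𝓝[Ico t₀ T] s := by
            rw [nhdsWithin_le_iff]
            have h7 : Ioo s T ∈ 𝓝[>] s := Ioo_mem_nhdsGT hsI.2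
            exact Filter.mem_of_superset h7 fun u hu => ⟨hsI.1.trans hu.1.le, hu.2⟩
          exact h5.tendsto.mono_left h6
        have h8 := (hcs p).eventually_lt (hcs p') h4
        exact h8.mono fun u hu => hu.le
    have hall : ∀ᶠ u in 𝓝[>] s, ∀ p', f p u ≤ f p' u := Filter.eventually_all.mpr hev
    have hy2 : ∀ᶠ u in 𝓝[>] s, u ∈ Ioo s y := Ioo_mem_nhdsGT hy
    obtain ⟨u, hu1, hu2⟩ := (hall.and hy2).exists
    exact ⟨u, hu1, hu2.1, hu2.2.le⟩
  exact key ⟨ht.1, le_rfl⟩

end HDN
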