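import Mathlib
import Pool.Agent.HDN.Phys
import Pool.Agent.HDN.PairA

/-!
# The closest pair does not change (project HDN)

Apply `min_const` with `ι = {p : Fin N × Fin N // p.1 < p.2}` and
`f p t = ‖(γ t).1 p.1.1 - (γ t).1 p.1.2‖` on `[t₀, T)`, where `t₀` is taken from `hsmall` for
`ε = r0`; the minimal pair at `t₀` exists because `ι` is finite and nonempty (`hsmall` gives a pair).
The minimal distance is `< r0` on `[t₀, T)`, so `hsep` applies to every minimal pair.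
-/

open MeasureTheory Set Filter Topology Metric
open scoped NNReal ENNReal RealInnerProductSpace

namespace HDN

variable {N d : ℕ}

/-- if the smallest distance tends to `0` and is always at most half of the second smallest one
when it is `≤ r0`, there is a pair which is the closest one on some `[t₀, T)` -/
theorem exists_pair {γ : ℝ → Ph N d} {T : ℝ}
    (hcont : ContinuousOn γ (Ico 0 T)) (hfree : ∀ t ∈ Ico 0 T, Free (γ t).1)
    (hsmall : ∀ ε > 0, ∃ t₀ ∈ Ico 0 T, ∀ t ∈ Ico t₀ T, ∃ a b, a ≠ b ∧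
      ‖(γ t).1 a - (γ t).1 b‖ < ε)
    {r0 : ℝ} (hr0 : 0 < r0)
    (hsep : ∀ t ∈ Ico 0 T, ∀ a b, a ≠ b → ‖(γ t).1 a - (γ t).1 b‖ ≤ r0 →
      (∀ i j, i ≠ j → ‖(γ t).1 a - (γ t).1 b‖ ≤ ‖(γ t).1 i - (γ t).1 j‖) →
      ∀ i j, i ≠ j → ¬ (i = a ∧ j = b) → ¬ (i = b ∧ j = a) →
        2 * ‖(γ t).1 a - (γ t).1 b‖ ≤ ‖(γ t).1 i - (γ t).1 j‖) :
    ∃ a b, a ≠ b ∧ ∃ t₀ ∈ Ico 0 T, ∀ t ∈ Ico t₀ T, ‖(γ t).1 a - (γ t).1 b‖ ≤ r0 ∧
      ∀ i j, i ≠ j → ‖(γ t).1 a - (γ t).1 b‖ ≤ ‖(γ t).1 i - (γ t).1 j‖ := by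
  classical
  obtain ⟨t₀, ht₀, hsm⟩ := hsmall r0 hr0
  set f : {p : Fin N × Fin N // p.1 < p.2} → ℝ → ℝ :=
    fun p t => ‖(γ t).1 p.1.1 - (γ t).1 p.1.2‖ with hf
  -- a minimal pair bounds all distances
  have hall : ∀ t (p : {p : Fin N × Fin N // p.1 < p.2}), (∀ p', f p t ≤ f p' t) →
      ∀ i j, i ≠ j → ‖(γ t).1 p.1.1 - (γ t).1 p.1.2‖ ≤ ‖(γ t).1 i - (γ t).1 j‖ := by
    intro t p hp i j hij
    rcases lt_or_gt_of_ne hij with hlt | hgt
    · exact hp ⟨(i, j), hlt⟩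
    · have h1 := hp ⟨(j, i), hgt⟩
      rw [norm_sub_rev ((γ t).1 i)]
      exact h1
  have hsmallmin : ∀ t ∈ Ico t₀ T, ∀ p : {p : Fin N × Fin N // p.1 < p.2},
      (∀ p', f p t ≤ f p' t) → ‖(γ t).1 p.1.1 - (γ t).1 p.1.2‖ ≤ r0 := by
    intro t ht p hp
    obtain ⟨a, b, hab, hlt⟩ := hsm t ht
    exact (hall t p hp a b hab).trans hlt.le
  have hsub : Ico t₀ T ⊆ Ico 0 T := Ico_subset_Ico_left ht₀.1
  have ht₀m : t₀ ∈ Ico t₀ T := ⟨le_refl _, ht₀.2⟩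
  have hne : Nonempty {p : Fin N × Fin N // p.1 < p.2} := by
    obtain ⟨a, b, hab, _⟩ := hsm t₀ ht₀m
    rcases lt_or_gt_of_ne hab with hlt | hgt
    · exact ⟨⟨(a, b), hlt⟩⟩
    · exact ⟨⟨(b, a), hgt⟩⟩
  obtain ⟨p, hp⟩ := Finite.exists_min (fun p => f p t₀)
  have hcoord : ∀ i, ContinuousOn (fun t => (γ t).1 i) (Ico t₀ T) := fun i =>
    ((continuous_apply i).comp continuous_fst).comp_continuousOn (hcont.mono hsub)
  have hmain := min_const (f := f) (t₀ := t₀) (T := T)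
    (fun p => ((hcoord p.1.1).sub (hcoord p.1.2)).norm)
    (fun p t ht => norm_pos_iff.2 (sub_ne_zero.2 (hfree t (hsub ht) _ _ p.2.ne)))
    (fun t ht p hp p' hp' => by
      refine hsep t (hsub ht) p.1.1 p.1.2 p.2.ne (hsmallmin t ht p hp) (hall t p hp)
        p'.1.1 p'.1.2 p'.2.ne ?_ ?_
      · rintro ⟨h1, h2⟩
        exact hp' (Subtype.ext (Prod.ext h1 h2))
      · rintro ⟨h1, h2⟩
        have h3 := p.2
        have h4 := p'.2
        rw [h1, h2] at h4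
        exact lt_asymm h3 h4)
    hp
  refine ⟨p.1.1, p.1.2, p.2.ne, t₀, ht₀, fun t ht => ⟨hsmallmin t ht p (hmain t ht),
    hall t p (hmain t ht)⟩⟩

end HDN
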