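import Mathlib
import Pool.Agent.HDN.Phys

/-!
# Norm of `wedge`, semicontinuity of the rank (project HDN)
-/

open MeasureTheory Set Filter Topology Metric
open scoped NNReal ENNReal RealInnerProductSpace

namespace HDN

variable {N d : ℕ} {m : Fin N → ℝ}

theorem wedge_norm_le (x w : Sp d) : ‖wedge x w‖ ≤ 2 * (‖x‖ * ‖w‖) := by
  refine ContinuousLinearMap.opNorm_le_bound _ (by positivity) (fun z => ?_)
  rw [wedge_apply]
  have h1 : ‖⟪w, z⟫ • x‖ ≤ ‖w‖ * ‖z‖ * ‖x‖ := by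
    rw [norm_smul]
    exact mul_le_mul_of_nonneg_right (norm_inner_le_norm w z) (norm_nonneg _)
  have h2 : ‖⟪x, z⟫ • w‖ ≤ ‖x‖ * ‖z‖ * ‖w‖ := by
    rw [norm_smul]
    exact mul_le_mul_of_nonneg_right (norm_inner_le_norm x z) (norm_nonneg _)
  calc ‖⟪w, z⟫ • x - ⟪x, z⟫ • w‖ ≤ ‖⟪w, z⟫ • x‖ + ‖⟪x, z⟫ • w‖ := norm_sub_le _ _
    _ ≤ ‖w‖ * ‖z‖ * ‖x‖ + ‖x‖ * ‖z‖ * ‖w‖ := add_le_add h1 h2
    _ = 2 * (‖x‖ * ‖w‖) * ‖z‖ := by ring

/-- lower semicontinuity of the rank (`ContinuousLinearMap.isOpen_setOf_nat_le_rank`) -/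
theorem exists_dist_of_rank (A : Sp d →L[ℝ] Sp d) {k : ℕ} (hk : k ≤ lrank A) :
    ∃ c > 0, ∀ B : Sp d →L[ℝ] Sp d, lrank B < k → c ≤ ‖A - B‖ := by
  have hrank : ∀ B : Sp d →L[ℝ] Sp d,
      ((lrank B : ℕ) : Cardinal) = LinearMap.rank (B : Sp d →ₗ[ℝ] Sp d) := by
    intro B
    unfold lrank LinearMap.rank
    exact Module.finrank_eq_rank ℝ _
  have hopen : IsOpen {f : Sp d →L[ℝ] Sp d |
      (k : Cardinal) ≤ LinearMap.rank (f : Sp d →ₗ[ℝ] Sp d)} :=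
    isOpen_setOfPred_nat_le_rank k
  have hA : A ∈ {f : Sp d →L[ℝ] Sp d |
      (k : Cardinal) ≤ LinearMap.rank (f : Sp d →ₗ[ℝ] Sp d)} := by
    show (k : Cardinal) ≤ LinearMap.rank (A : Sp d →ₗ[ℝ] Sp d)
    rw [← hrank A]
    exact_mod_cast hk
  obtain ⟨c, hc, hball⟩ := Metric.isOpen_iff.1 hopen A hA
  refine ⟨c, hc, fun B hB => ?_⟩
  by_contra hlt
  push Not at hlt
  have hBm : B ∈ Metric.ball A c := by
    rw [Metric.mem_ball, dist_comm, dist_eq_norm]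
    exact hlt
  have h1 : (k : Cardinal) ≤ LinearMap.rank (B : Sp d →ₗ[ℝ] Sp d) := hball hBm
  rw [← hrank B] at h1
  have h2 : k ≤ lrank B := by exact_mod_cast h1
  omega

end HDN
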