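import Mathlib
import Pool.Agent.HDN.Phys

/-!
# Angular momentum of merged systems (project HDN)

`∑ m_i q_i` and `∑ m_i v_i` are not changed by a merge, so the difference is
`∑_{i ∈ C} m_i wedge q_i v_i - M_C wedge Q_C V_C`, `C = {a, b}` or `C = {a, b, c}` (in the second
case with `q_a = q_b = cm m a b q`). Use bilinearity of `wedge` (`ext z`, `simp`, `module` /
`field_simp`).
-/

open MeasureTheory Set Filter Topology Metric
open scoped NNReal ENNReal RealInnerProductSpace

namespace HDN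

variable {N d : ℕ} {m : Fin N → ℝ}

theorem RankB_sum_split {E : Type*} [AddCommGroup E] {a b : Fin N} (hab : a ≠ b)
    (f : Fin N → E) : ∑ i, f i = f a + f b + ∑ i ∈ others a b, f i := by
  rw [← Finset.add_sum_erase _ f (Finset.mem_univ a),
    ← Finset.add_sum_erase (Finset.univ.erase a) f
      (Finset.mem_erase.mpr ⟨hab.symm, Finset.mem_univ b⟩), add_assoc, others]

theorem RankB_sum_split3 {E : Type*} [AddCommGroup E] {a b c : Fin N} (hab : a ≠ b)
    (hac : a ≠ c) (hbc : b ≠ c) (f : Fin N → E) :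
    ∑ i, f i = f a + f b + f c + ∑ i ∈ (others a b).erase c, f i := by
  rw [RankB_sum_split hab, ← Finset.add_sum_erase (others a b) f (a := c)
    (by simp [others, hac.symm, hbc.symm]), ← add_assoc]

theorem RankB_mem_others {a b i : Fin N} : i ∈ others a b ↔ i ≠ a ∧ i ≠ b := by
  simp [others, and_comm]

theorem RankB_wedge2 {p q : ℝ} (hp : 0 < p) (hq : 0 < q) (x y v w : Sp d) :
    p • wedge x v + q • wedge y w =
      p • wedge ((p + q)⁻¹ • (p • x + q • y)) ((p + q)⁻¹ • (p • v + q • w)) +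
      q • wedge ((p + q)⁻¹ • (p • x + q • y)) ((p + q)⁻¹ • (p • v + q • w)) +
        (p * q / (p + q)) • wedge (x - y) (v - w) := by
  have h : p + q ≠ 0 := by positivity
  apply ContinuousLinearMap.ext
  intro z
  simp only [add_apply, smul_apply, wedge_apply,
    inner_add_left, inner_sub_left, real_inner_smul_left]
  match_scalars <;> field_simp <;> ring

theorem RankB_wedge3 {p q r : ℝ} (hp : 0 < p) (hq : 0 < q) (hr : 0 < r) (x y z v w u : Sp d) :
    p • wedge ((p + q)⁻¹ • (p • x + q • y)) ((p + q)⁻¹ • (p • v + q • w)) +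
    q • wedge ((p + q)⁻¹ • (p • x + q • y)) ((p + q)⁻¹ • (p • v + q • w)) +
    r • wedge z u =
      p • wedge ((p + q + r)⁻¹ • (p • x + q • y + r • z))
        ((p + q + r)⁻¹ • (p • v + q • w + r • u)) +
      q • wedge ((p + q + r)⁻¹ • (p • x + q • y + r • z))
        ((p + q + r)⁻¹ • (p • v + q • w + r • u)) +
      r • wedge ((p + q + r)⁻¹ • (p • x + q • y + r • z))
        ((p + q + r)⁻¹ • (p • v + q • w + r • u)) +
        ((p + q) * r / (p + q + r)) • wedge (z - (p + q)⁻¹ • (p • x + q • y))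
          (u - (p + q)⁻¹ • (p • v + q • w)) := by
  have h : p + q ≠ 0 := by positivity
  have h3 : p + q + r ≠ 0 := by positivity
  apply ContinuousLinearMap.ext
  intro z'
  simp only [add_apply, smul_apply, wedge_apply,
    inner_add_left, inner_sub_left, real_inner_smul_left]
  match_scalars <;> field_simp <;> ring

theorem RankB_mrg_left {a b : Fin N} (q : Cf N d) : mrg m a b q a = cm m a b q := by
  simp [mrg]

theorem RankB_mrg_right {a b : Fin N} (q : Cf N d) : mrg m a b q b = cm m a b q := by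
  simp [mrg]

theorem RankB_mrg_other {a b i : Fin N} (q : Cf N d) (h : i ∈ others a b) :
    mrg m a b q i = q i := by
  rw [RankB_mem_others] at h
  simp [mrg, h.1, h.2]

theorem RankB_mrg_sum {a b : Fin N} (hm : ∀ i, 0 < m i) (hab : a ≠ b) (q : Cf N d) :
    ∑ i, m i • mrg m a b q i = ∑ i, m i • q i := by
  have h : m a + m b ≠ 0 := (add_pos (hm a) (hm b)).ne'
  rw [RankB_sum_split hab, RankB_sum_split hab (fun i => m i • q i), RankB_mrg_left,
    RankB_mrg_right, Finset.sum_congr rfl fun i hi => by rw [RankB_mrg_other q hi]]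
  congr 1
  rw [cm, ← add_smul, smul_smul, mul_inv_cancel₀ h, one_smul]

theorem RankB_mrg3_sum {a b c : Fin N} (hm : ∀ i, 0 < m i) (hab : a ≠ b) (hac : a ≠ c)
    (hbc : b ≠ c) (q : Cf N d) :
    ∑ i, m i • mrg3 m a b c q i = ∑ i, m i • q i := by
  have h : m a + m b + m c ≠ 0 := (add_pos (add_pos (hm a) (hm b)) (hm c)).ne'
  rw [RankB_sum_split3 hab hac hbc, RankB_sum_split3 hab hac hbc (fun i => m i • q i)]
  have e : ∀ i ∈ (others a b).erase c, m i • mrg3 m a b c q i = m i • q i := by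
    intro i hi
    rw [Finset.mem_erase, RankB_mem_others] at hi
    simp [mrg3, hi.1, hi.2.1, hi.2.2]
  rw [Finset.sum_congr rfl e]
  congr 1
  have ea : mrg3 m a b c q a = cm3 m a b c q := by simp [mrg3]
  have eb : mrg3 m a b c q b = cm3 m a b c q := by simp [mrg3]
  have ec : mrg3 m a b c q c = cm3 m a b c q := by simp [mrg3]
  rw [ea, eb, ec, cm3, ← add_smul, ← add_smul, smul_smul, mul_inv_cancel₀ h, one_smul]

/-- the angular momentum splits -/
theorem lop_mrg {a b : Fin N} (hm : ∀ i, 0 < m i) (hab : a ≠ b) (x : Ph N d) :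
    Lop m x = Lop m (mrg m a b x.1, mrg m a b x.2) +
      (m a * m b / (m a + m b)) • wedge (x.1 a - x.1 b) (x.2 a - x.2 b) := by
  have h : m a + m b ≠ 0 := (add_pos (hm a) (hm b)).ne'
  unfold Lop
  simp only
  rw [RankB_mrg_sum hm hab, RankB_mrg_sum hm hab,
    RankB_sum_split hab (fun i => m i • wedge (x.1 i) (x.2 i)),
    RankB_sum_split hab (fun i => m i • wedge (mrg m a b x.1 i) (mrg m a b x.2 i))]
  have e : ∀ i ∈ others a b, m i • wedge (mrg m a b x.1 i) (mrg m a b x.2 i) =
      m i • wedge (x.1 i) (x.2 i) := fun i hi => by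
    rw [RankB_mrg_other _ hi, RankB_mrg_other _ hi]
  rw [Finset.sum_congr rfl e, RankB_mrg_left, RankB_mrg_left, RankB_mrg_right, RankB_mrg_right,
    RankB_wedge2 (hm a) (hm b), cm, cm]
  abel

theorem lop_mrg3 {a b c : Fin N} (hm : ∀ i, 0 < m i) (hab : a ≠ b) (hac : a ≠ c) (hbc : b ≠ c)
    (x : Ph N d) :
    Lop m (mrg m a b x.1, mrg m a b x.2) = Lop m (mrg3 m a b c x.1, mrg3 m a b c x.2) +
      ((m a + m b) * m c / (m a + m b + m c)) •
        wedge (x.1 c - cm m a b x.1) (x.2 c - cm m a b x.2) := by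
  unfold Lop
  simp only
  rw [RankB_mrg_sum hm hab, RankB_mrg_sum hm hab, RankB_mrg3_sum hm hab hac hbc,
    RankB_mrg3_sum hm hab hac hbc,
    RankB_sum_split3 hab hac hbc (fun i => m i • wedge (mrg m a b x.1 i) (mrg m a b x.2 i)),
    RankB_sum_split3 hab hac hbc
      (fun i => m i • wedge (mrg3 m a b c x.1 i) (mrg3 m a b c x.2 i))]
  have e1 : ∀ i ∈ (others a b).erase c, m i • wedge (mrg m a b x.1 i) (mrg m a b x.2 i) =
      m i • wedge (x.1 i) (x.2 i) := fun i hi => by
    rw [RankB_mrg_other _ (Finset.mem_of_mem_erase hi),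
      RankB_mrg_other _ (Finset.mem_of_mem_erase hi)]
  have e2 : ∀ i ∈ (others a b).erase c,
      m i • wedge (mrg3 m a b c x.1 i) (mrg3 m a b c x.2 i) = m i • wedge (x.1 i) (x.2 i) := by
    intro i hi
    rw [Finset.mem_erase, RankB_mem_others] at hi
    simp [mrg3, hi.1, hi.2.1, hi.2.2]
  have hc : c ∈ others a b := by
    rw [RankB_mem_others]; exact ⟨hac.symm, hbc.symm⟩
  have ea : ∀ q : Cf N d, mrg3 m a b c q a = cm3 m a b c q := fun q => by simp [mrg3]
  have eb : ∀ q : Cf N d, mrg3 m a b c q b = cm3 m a b c q := fun q => by simp [mrg3]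
  have ec : ∀ q : Cf N d, mrg3 m a b c q c = cm3 m a b c q := fun q => by simp [mrg3]
  rw [Finset.sum_congr rfl e1, Finset.sum_congr rfl e2, RankB_mrg_left, RankB_mrg_left,
    RankB_mrg_right, RankB_mrg_right, RankB_mrg_other _ hc, RankB_mrg_other _ hc, ea, ea, eb, eb,
    ec, ec]
  unfold cm cm3
  rw [RankB_wedge3 (hm a) (hm b) (hm c) (x.1 a) (x.1 b) (x.1 c) (x.2 a) (x.2 b) (x.2 c)]
  abel

end HDN
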