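import Mathlib
import Pool.Agent.HDN.Phys

/-!
# Rank of the angular momentum of a merged system (project HDN)
-/

open MeasureTheory Set Filter Topology Metric
open scoped NNReal ENNReal RealInnerProductSpace

namespace HDN

variable {N d : ℕ} {m : Fin N → ℝ}

namespace RankC

theorem wedge_sub_left (x y w : Sp d) : wedge (x - y) w = wedge x w - wedge y w := by
  ext1 z
  simp only [wedge_apply, _root_.sub_apply, inner_sub_left]
  module

theorem wedge_sub_right (x w y : Sp d) : wedge x (w - y) = wedge x w - wedge x y := by
  ext1 z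
  simp only [wedge_apply, _root_.sub_apply, inner_sub_left]
  module

theorem wedge_smul_left (c : ℝ) (x w : Sp d) : wedge (c • x) w = c • wedge x w := by
  ext1 z
  simp only [wedge_apply, _root_.smul_apply, real_inner_smul_left]
  module

theorem wedge_smul_right (c : ℝ) (x w : Sp d) : wedge x (c • w) = c • wedge x w := by
  ext1 z
  simp only [wedge_apply, _root_.smul_apply, real_inner_smul_left]
  module

theorem wedge_zero_left (w : Sp d) : wedge 0 w = 0 := by
  ext1 z
  simp [wedge_apply]

theorem wedge_zero_right (w : Sp d) : wedge w 0 = 0 := by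
  ext1 z
  simp [wedge_apply]

theorem wedge_add_left (x y w : Sp d) : wedge (x + y) w = wedge x w + wedge y w := by
  ext1 z
  simp only [wedge_apply, _root_.add_apply, inner_add_left]
  module

theorem wedge_add_right (x w y : Sp d) : wedge x (w + y) = wedge x w + wedge x y := by
  ext1 z
  simp only [wedge_apply, _root_.add_apply, inner_add_left]
  module

theorem wedge_sum_left {T : Type*} (s : Finset T) (f : T → Sp d) (w : Sp d) :
    wedge (∑ i ∈ s, f i) w = ∑ i ∈ s, wedge (f i) w := by
  classical
  induction s using Finset.induction_on with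
  | empty => simp [wedge_zero_left]
  | insert i s hi ih => rw [Finset.sum_insert hi, Finset.sum_insert hi, wedge_add_left, ih]

theorem wedge_sum_right {T : Type*} (s : Finset T) (f : T → Sp d) (w : Sp d) :
    wedge w (∑ i ∈ s, f i) = ∑ i ∈ s, wedge w (f i) := by
  classical
  induction s using Finset.induction_on with
  | empty => simp [wedge_zero_right]
  | insert i s hi ih => rw [Finset.sum_insert hi, Finset.sum_insert hi, wedge_add_right, ih]

/-- the angular momentum with respect to the centre of mass is invariant under translations of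
the positions and of the velocities -/
theorem lop_translate (hM : ∑ i, m i ≠ 0) (x : Ph N d) (p w : Sp d) :
    Lop m (fun i => x.1 i - p, fun i => x.2 i - w) = Lop m x := by
  have h1 : ∑ i, m i • (x.1 i - p) = ∑ i, m i • x.1 i - (∑ i, m i) • p := by
    simp only [smul_sub, Finset.sum_sub_distrib, Finset.sum_smul]
  have h2 : ∑ i, m i • (x.2 i - w) = ∑ i, m i • x.2 i - (∑ i, m i) • w := by
    simp only [smul_sub, Finset.sum_sub_distrib, Finset.sum_smul]
  have h3 : ∑ i, m i • wedge (x.1 i - p) (x.2 i - w) =
      ∑ i, m i • wedge (x.1 i) (x.2 i) - wedge (∑ i, m i • x.1 i) w -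
        wedge p (∑ i, m i • x.2 i) + (∑ i, m i) • wedge p w := by
    have h5 : (∑ i, m i) • wedge p w = ∑ i, m i • wedge p w := by
      ext1 z
      rw [_root_.smul_apply, _root_.sum_apply]
      simp only [_root_.smul_apply]
      rw [Finset.sum_smul]
    rw [wedge_sum_left, wedge_sum_right, h5, ← Finset.sum_sub_distrib,
      ← Finset.sum_sub_distrib, ← Finset.sum_add_distrib]
    apply Finset.sum_congr rfl
    intro i _
    rw [wedge_sub_left, wedge_sub_right, wedge_sub_right, wedge_smul_left, wedge_smul_right]
    module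
  simp only [Lop]
  rw [h1, h2, h3]
  set M := ∑ i, m i with hMdef
  set X := ∑ i, m i • x.1 i
  set V := ∑ i, m i • x.2 i
  have h4 : wedge (X - M • p) (V - M • w) =
      wedge X V - M • wedge X w - M • wedge p V + (M * M) • wedge p w := by
    rw [wedge_sub_left, wedge_sub_right, wedge_sub_right, wedge_smul_left, wedge_smul_left,
      wedge_smul_right, wedge_smul_right]
    module
  rw [h4]
  simp only [smul_add, smul_sub, smul_smul, inv_mul_cancel₀ hM, ← mul_assoc, one_smul, one_mul]
  abel

end RankC

/-- If the bodies `b` and `e` sit on top of the bodies `a` and `c` (with the same velocities), the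
rank of the angular momentum is at most `2 (N - 3)`: `Lop m x` is unchanged if `x.1 a` is subtracted
from all positions and `x.2 a` from all velocities, and then its range lies in the span of the
`N - 3` relative positions and the `N - 3` relative velocities of the bodies not in `{a, b, e}`. -/
theorem lrank_lop_le {a b c e : Fin N} (hm : ∀ i, 0 < m i) (hab : a ≠ b) (hae : a ≠ e)
    (hbe : b ≠ e) (hcb : c ≠ b) (hce : c ≠ e) (x : Ph N d) (hb : x.1 b = x.1 a ∧ x.2 b = x.2 a)
    (he : x.1 e = x.1 c ∧ x.2 e = x.2 c) :
    lrank (Lop m x) ≤ 2 * (N - 3) := by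
  classical
  have hM : ∑ i, m i ≠ 0 :=
    (Finset.sum_pos (fun i _ => hm i) ⟨a, Finset.mem_univ a⟩).ne'
  rw [← RankC.lop_translate hM x (x.1 a) (x.2 a)]
  set y : Cf N d := fun i => x.1 i - x.1 a with hy
  set v : Cf N d := fun i => x.2 i - x.2 a with hv
  set T : Finset (Fin N) := ((Finset.univ.erase a).erase b).erase e with hT
  have hTcard : T.card = N - 3 := by
    rw [hT, Finset.card_erase_of_mem, Finset.card_erase_of_mem, Finset.card_erase_of_mem,
      Finset.card_univ, Fintype.card_fin]
    · omega
    · exact Finset.mem_univ a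
    · exact Finset.mem_erase.2 ⟨hab.symm, Finset.mem_univ b⟩
    · exact Finset.mem_erase.2 ⟨hbe.symm, Finset.mem_erase.2 ⟨hae.symm, Finset.mem_univ e⟩⟩
  set F : Finset (Sp d) := T.image y ∪ T.image v with hF
  have hFcard : F.card ≤ 2 * (N - 3) := by
    calc F.card ≤ (T.image y).card + (T.image v).card := Finset.card_union_le _ _
      _ ≤ T.card + T.card := Nat.add_le_add Finset.card_image_le Finset.card_image_le
      _ = 2 * (N - 3) := by rw [hTcard]; omega
  set S : Submodule ℝ (Sp d) := Submodule.span ℝ (F : Set (Sp d)) with hS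
  have hya : y a = 0 := sub_self _
  have hva : v a = 0 := sub_self _
  have hyb : y b = 0 := by rw [hy]; simp [hb.1]
  have hvb : v b = 0 := by rw [hv]; simp [hb.2]
  have hmemT : ∀ i ∈ T, y i ∈ S ∧ v i ∈ S := by
    intro i hi
    constructor
    · exact Submodule.subset_span (by
        rw [hF, Finset.coe_union]
        exact Or.inl (by rw [Finset.mem_coe]; exact Finset.mem_image_of_mem _ hi))
    · exact Submodule.subset_span (by
        rw [hF, Finset.coe_union]
        exact Or.inr (by rw [Finset.mem_coe]; exact Finset.mem_image_of_mem _ hi))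
  have hmemc : ∀ i, i ≠ b → i ≠ e → y i ∈ S ∧ v i ∈ S := by
    intro i hib hie
    by_cases hia : i = a
    · rw [hia, hya, hva]
      exact ⟨S.zero_mem, S.zero_mem⟩
    · apply hmemT
      rw [hT]
      simp [hib, hie, hia]
  have hmem : ∀ i, y i ∈ S ∧ v i ∈ S := by
    intro i
    by_cases hib : i = b
    · rw [hib, hyb, hvb]
      exact ⟨S.zero_mem, S.zero_mem⟩
    by_cases hie : i = e
    · have h1 : y i = y c := by rw [hie, hy]; simp [he.1]
      have h2 : v i = v c := by rw [hie, hv]; simp [he.2]
      rw [h1, h2]
      exact hmemc c hcb hce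
    · exact hmemc i hib hie
  have hw : ∀ p q : Sp d, p ∈ S → q ∈ S → ∀ z, wedge p q z ∈ S := by
    intro p q hp hq z
    rw [wedge_apply]
    exact S.sub_mem (S.smul_mem _ hp) (S.smul_mem _ hq)
  have hrange : LinearMap.range (Lop m (y, v) : Sp d →ₗ[ℝ] Sp d) ≤ S := by
    rintro _ ⟨z, rfl⟩
    change Lop m (y, v) z ∈ S
    simp only [Lop, _root_.sub_apply, _root_.sum_apply,
      _root_.smul_apply]
    refine S.sub_mem (S.sum_mem fun i _ => S.smul_mem _ (hw _ _ (hmem i).1 (hmem i).2 z))
      (S.smul_mem _ (hw _ _ (S.sum_mem fun i _ => S.smul_mem _ (hmem i).1)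
        (S.sum_mem fun i _ => S.smul_mem _ (hmem i).2) z))
  calc lrank (Lop m (y, v)) ≤ Module.finrank ℝ S := Submodule.finrank_mono hrange
    _ ≤ F.card := finrank_span_finset_le_card F
    _ ≤ 2 * (N - 3) := hFcard

end HDN
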