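import Mathlib
import Pool.Agent.HDN.Phys
import Pool.Agent.HDN.RankA
import Pool.Agent.HDN.RankB
import Pool.Agent.HDN.RankC

/-!
# The basic inequality (project HDN)

Take `c` from `exists_dist_of_rank` for `L`, `k = 2 * N - 4`. For `x` with `Lop m x = L` and
`c ∈ others a b`: `‖L - Lop (mrg3 ...)‖ ≤ 2 M (‖q_ab‖ ‖v_ab‖ + ‖q_c - cm‖ ‖v_c - cm‖)`, `M = ∑ m`
(`lop_mrg`, `lop_mrg3`, `wedge_norm_le`; the reduced masses are `≤ M`) and
`lrank (Lop (mrg3 ..)) ≤ 2 (N - 3) < 2 N - 4` (`N ≥ 3` because there are three different indices).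
For `c ≠ e ∈ others a b` merge `a, b` and then `c, e` (`lop_mrg` twice; `mrg m c e (mrg m a b q)`).
So `c0 = c / (2 M)` works.
-/

open MeasureTheory Set Filter Topology Metric
open scoped NNReal ENNReal RealInnerProductSpace

namespace HDN

variable {N d : ℕ} {m : Fin N → ℝ}

private theorem redmass_le {s t M : ℝ} (hs : 0 < s) (ht : 0 < t) (htM : t ≤ M) :
    |s * t / (s + t)| ≤ M := by
  have h0 : 0 < s * t / (s + t) := by positivity
  rw [abs_of_pos h0]
  refine le_trans ?_ htM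
  rw [div_le_iff₀ (by positivity)]
  nlinarith [mul_pos ht ht]

private theorem three_le {a b c : Fin N} (hab : a ≠ b) (hac : a ≠ c) (hbc : b ≠ c) : 3 ≤ N := by
  have h1 : ({a, b, c} : Finset (Fin N)).card = 3 := by
    rw [Finset.card_eq_three]
    exact ⟨a, b, c, hab, hac, hbc, rfl⟩
  have h2 : ({a, b, c} : Finset (Fin N)).card ≤ (Finset.univ : Finset (Fin N)).card :=
    Finset.card_le_card (Finset.subset_univ _)
  rw [h1, Finset.card_univ, Fintype.card_fin] at h2
  exact h2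

/-- the key estimate -/
private theorem key_est {A B₁ B₂ : Sp d →L[ℝ] Sp d} {x w y z : Sp d} {μ ν M c : ℝ}
    (hμ : |μ| ≤ M) (hν : |ν| ≤ M) (hM : 0 < M)
    (h1 : A = B₁ + μ • wedge x w) (h2 : B₁ = B₂ + ν • wedge y z) (hc : c ≤ ‖A - B₂‖) :
    c / (2 * M) ≤ ‖x‖ * ‖w‖ + ‖y‖ * ‖z‖ := by
  have h3 : A - B₂ = ν • wedge y z + μ • wedge x w := by
    rw [h1, h2]; abel
  have h4 : ‖A - B₂‖ ≤ |ν| * (2 * (‖y‖ * ‖z‖)) + |μ| * (2 * (‖x‖ * ‖w‖)) := by
    rw [h3]
    refine (norm_add_le _ _).trans (add_le_add ?_ ?_)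
    · rw [norm_smul, Real.norm_eq_abs]
      exact mul_le_mul_of_nonneg_left (wedge_norm_le y z) (abs_nonneg _)
    · rw [norm_smul, Real.norm_eq_abs]
      exact mul_le_mul_of_nonneg_left (wedge_norm_le x w) (abs_nonneg _)
  have h5 : |ν| * (2 * (‖y‖ * ‖z‖)) ≤ M * (2 * (‖y‖ * ‖z‖)) :=
    mul_le_mul_of_nonneg_right hν (by positivity)
  have h6 : |μ| * (2 * (‖x‖ * ‖w‖)) ≤ M * (2 * (‖x‖ * ‖w‖)) :=
    mul_le_mul_of_nonneg_right hμ (by positivity)
  rw [div_le_iff₀ (by positivity)]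
  nlinarith

/-- from `lop_mrg`, `lop_mrg3` (or `lop_mrg` twice, the second time for the pair `c, e`),
`lrank_lop_le`, `exists_dist_of_rank` and `wedge_norm_le` -/
theorem star_of_rank (hm : ∀ i, 0 < m i) (L : Sp d →L[ℝ] Sp d) (hL : 2 * N - 4 ≤ lrank L) :
    ∃ c0 > 0, ∀ x : Ph N d, Lop m x = L → ∀ a b, a ≠ b → StarAt m c0 a b x := by
  obtain ⟨c1, hc1, hdist⟩ := exists_dist_of_rank L hL
  have hle : ∀ i, m i ≤ ∑ j, m j + 1 := fun i => by
    have : m i ≤ ∑ j, m j :=
      Finset.single_le_sum (fun j _ => (hm j).le) (Finset.mem_univ i)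
    linarith
  have hM : 0 < ∑ j, m j + 1 := by
    have : 0 ≤ ∑ j, m j := Finset.sum_nonneg fun j _ => (hm j).le
    linarith
  refine ⟨c1 / (2 * (∑ j, m j + 1)), by positivity, ?_⟩
  intro x hx a b hab
  constructor
  · intro c hc
    have hcb : c ≠ b := (Finset.mem_erase.1 hc).1
    have hca : c ≠ a := (Finset.mem_erase.1 (Finset.mem_erase.1 hc).2).1
    have h3 : 3 ≤ N := three_le hab hca.symm hcb.symm
    have hr := lrank_lop_le (a := a) (b := b) (c := a) (e := c) hm hab hca.symm hcb.symm hab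
      hca.symm (mrg3 m a b c x.1, mrg3 m a b c x.2)
      ⟨by simp [mrg3], by simp [mrg3]⟩ ⟨by simp [mrg3], by simp [mrg3]⟩
    have hd := hdist (Lop m (mrg3 m a b c x.1, mrg3 m a b c x.2)) (by omega)
    refine key_est (redmass_le (hm a) (hm b) (hle b))
      (redmass_le (add_pos (hm a) (hm b)) (hm c) (hle c)) hM ?_
      (lop_mrg3 hm hab hca.symm hcb.symm x) hd
    rw [← hx]
    exact lop_mrg hm hab x
  · intro c hc e he hce
    have hcb : c ≠ b := (Finset.mem_erase.1 hc).1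
    have hca : c ≠ a := (Finset.mem_erase.1 (Finset.mem_erase.1 hc).2).1
    have heb : e ≠ b := (Finset.mem_erase.1 he).1
    have hea : e ≠ a := (Finset.mem_erase.1 (Finset.mem_erase.1 he).2).1
    have h3 : 3 ≤ N := three_le hab hca.symm hcb.symm
    have hr := lrank_lop_le (a := a) (b := b) (c := c) (e := e) hm hab hea.symm heb.symm hcb hce
      (mrg m c e (mrg m a b x.1), mrg m c e (mrg m a b x.2))
      ⟨by simp [mrg, hca.symm, hea.symm, hcb.symm, heb.symm],
        by simp [mrg, hca.symm, hea.symm, hcb.symm, heb.symm]⟩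
      ⟨by simp [mrg], by simp [mrg]⟩
    have hd := hdist (Lop m (mrg m c e (mrg m a b x.1), mrg m c e (mrg m a b x.2))) (by omega)
    have hk := lop_mrg (a := c) (b := e) hm hce (mrg m a b x.1, mrg m a b x.2)
    have e1 : ∀ q : Cf N d, mrg m a b q c = q c := fun q => by simp [mrg, hca, hcb]
    have e2 : ∀ q : Cf N d, mrg m a b q e = q e := fun q => by simp [mrg, hea, heb]
    simp only [e1, e2] at hk
    refine key_est (redmass_le (hm a) (hm b) (hle b)) (redmass_le (hm c) (hm e) (hle e)) hM ?_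
      hk hd
    rw [← hx]
    exact lop_mrg hm hab x

end HDN
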