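import Mathlib
import Pool.Agent.HDN.Phys
import Pool.Agent.HDN.SingA

/-!
# Estimates at a single time near a close encounter (project HDN)

Write `r = ‖x.1 a - x.1 b‖` (the smallest distance), `V = √(Kred + 1)`.
* `kin_split`: `Kin = Kred + (1/2) μ ‖v_a - v_b‖²`, `μ = m_a m_b / (m_a + m_b)`.
* `Pot ≤ (∑ m)² / (2 r)`, so `Kin ≤ |E| + (∑ m)² / (2 r) ≤ C / r` if `r ≤ 1`; hence
  `r (Kred + 1) ≤ A`, `r ‖v_a - v_b‖² ≤ A`.
* `r ‖v_a - v_b‖ ≤ √(A r)` is `≤ c0 / 2` for small `r`, so `StarAt` gives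
  `c0 / 2 ≤ ‖x_c - cm‖ ‖v_c - cm v‖`, and `‖v_c - cm v‖ ≤ C √Kred ≤ C V` (because
  `(1/2) m_c ‖v_c‖² ≤ Kred`, `(1/2) (m_a + m_b) ‖cm v‖² ≤ Kred`). So `δ ≤ V ‖x_c - cm‖`; similarly
  for two bodies `c ≠ e`.
* `V ≤ √(A / r)`, so `‖x_c - cm‖ ≥ δ √(r / A) ≥ 4 r` for small `r`; `‖cm - x_a‖ ≤ r`,
  `‖cm - x_b‖ ≤ r` give the distances to `a` and `b`.
-/

open MeasureTheory Set Filter Topology Metric
open scoped NNReal ENNReal RealInnerProductSpace

namespace HDN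

variable {N d : ℕ} {m : Fin N → ℝ}

private theorem pot_le (hm : ∀ i, 0 < m i) {q : Cf N d} {r : ℝ} (hr : 0 < r)
    (h : ∀ i j, i ≠ j → r ≤ ‖q i - q j‖) :
    Pot m q ≤ (∑ i, m i) ^ 2 / (2 * r) := by
  have h1 : ∀ a ∈ (Finset.univ : Finset (Fin N)),
      ∑ b ∈ Finset.univ.erase a, m a * m b / ‖q b - q a‖ ≤ m a * (∑ b, m b) / r := by
    intro a _
    have h2 : ∑ b ∈ Finset.univ.erase a, m a * m b / ‖q b - q a‖
        ≤ ∑ b ∈ Finset.univ.erase a, m a * m b / r := by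
      refine Finset.sum_le_sum fun b hb => ?_
      have hne : b ≠ a := Finset.ne_of_mem_erase hb
      exact div_le_div_of_nonneg_left (mul_pos (hm a) (hm b)).le hr (h b a hne)
    have h3 : ∑ b ∈ Finset.univ.erase a, m a * m b / r ≤ ∑ b, m a * m b / r := by
      refine Finset.sum_le_sum_of_subset_of_nonneg (Finset.erase_subset _ _) fun b _ _ => ?_
      exact div_nonneg (mul_pos (hm a) (hm b)).le hr.le
    have h4 : ∑ b, m a * m b / r = m a * (∑ b, m b) / r := by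
      rw [Finset.mul_sum, Finset.sum_div]
    rw [← h4]
    exact h2.trans h3
  have h5 : ∑ a, ∑ b ∈ Finset.univ.erase a, m a * m b / ‖q b - q a‖
      ≤ ∑ a, m a * (∑ b, m b) / r := Finset.sum_le_sum h1
  have h6 : ∑ a, m a * (∑ b, m b) / r = (∑ i, m i) ^ 2 / r := by
    rw [← Finset.sum_div, ← Finset.sum_mul, sq]
  unfold Pot
  rw [h6] at h5
  have h7 : (∑ i, m i) ^ 2 / (2 * r) = (1 / 2) * ((∑ i, m i) ^ 2 / r) := by
    field_simp
  rw [h7]
  linarith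

private theorem kred_nonneg (hm : ∀ i, 0 < m i) (a b : Fin N) (v : Cf N d) :
    0 ≤ Kred m a b v := by
  unfold Kred
  have h1 : 0 ≤ (m a + m b) * ‖cm m a b v‖ ^ 2 :=
    mul_nonneg (add_pos (hm a) (hm b)).le (sq_nonneg _)
  have h2 : 0 ≤ ∑ c ∈ others a b, m c * ‖v c‖ ^ 2 :=
    Finset.sum_nonneg fun c _ => mul_nonneg (hm c).le (sq_nonneg _)
  linarith

theorem single_time (hm : ∀ i, 0 < m i) (E : ℝ) {c0 : ℝ} (hc0 : 0 < c0) :
    ∃ r0 > 0, ∃ A > 0, ∃ δ > 0, ∀ x : Ph N d, Free x.1 → Ham m x = E → ∀ a b, a ≠ b →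
      StarAt m c0 a b x → ‖x.1 a - x.1 b‖ ≤ r0 →
      (∀ i j, i ≠ j → ‖x.1 a - x.1 b‖ ≤ ‖x.1 i - x.1 j‖) → Est m A δ a b x := by
  obtain ⟨C, hC, hCv⟩ := kred_ge (d := d) hm
  set K1 : ℝ := |E| + (∑ i, m i) ^ 2 / 2 with hK1
  have hK1' : 0 ≤ K1 := by positivity
  set D : ℝ := ∑ i, ∑ j, (m i + m j) / (m i * m j) with hD
  have hterm : ∀ i j, 0 < (m i + m j) / (m i * m j) := fun i j =>
    div_pos (add_pos (hm i) (hm j)) (mul_pos (hm i) (hm j))
  have hDge : ∀ a b, (m a + m b) / (m a * m b) ≤ D := by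
    intro a b
    have h1 : (m a + m b) / (m a * m b) ≤ ∑ j, (m a + m j) / (m a * m j) :=
      Finset.single_le_sum (f := fun j => (m a + m j) / (m a * m j))
        (fun j _ => (hterm a j).le) (Finset.mem_univ b)
    have h2 : ∑ j, (m a + m j) / (m a * m j) ≤ D :=
      Finset.single_le_sum (f := fun i => ∑ j, (m i + m j) / (m i * m j))
        (fun i _ => Finset.sum_nonneg fun j _ => (hterm i j).le) (Finset.mem_univ a)
    exact h1.trans h2
  have hD0 : 0 ≤ D := Finset.sum_nonneg fun i _ => Finset.sum_nonneg fun j _ => (hterm i j).le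
  set A : ℝ := K1 + 1 + 2 * K1 * D with hA
  have hA0 : 0 < A := by
    have : 0 ≤ 2 * K1 * D := by positivity
    linarith
  set δ : ℝ := c0 / (2 * C) with hδ
  have hδ0 : 0 < δ := by positivity
  refine ⟨min 1 (min ((c0 / 2) ^ 2 / A) (δ ^ 2 / (16 * A))), by positivity, A, hA0, δ, hδ0, ?_⟩
  intro x hfree hE a b hab hstar hr0 hmin
  set r : ℝ := ‖x.1 a - x.1 b‖ with hr
  have hrpos : 0 < r := norm_pos_iff.mpr (sub_ne_zero.mpr (hfree a b hab))
  have hr1 : r ≤ 1 := hr0.trans (min_le_left _ _)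
  have hr2 : r ≤ (c0 / 2) ^ 2 / A := hr0.trans ((min_le_right _ _).trans (min_le_left _ _))
  have hr3 : r ≤ δ ^ 2 / (16 * A) := hr0.trans ((min_le_right _ _).trans (min_le_right _ _))
  have hr2' : r * A ≤ (c0 / 2) ^ 2 := (le_div_iff₀ hA0).mp hr2
  have hr3' : r * (16 * A) ≤ δ ^ 2 := (le_div_iff₀ (by positivity)).mp hr3
  have hpot := pot_le hm hrpos hmin
  have hkin : Kin m x.2 = E + Pot m x.1 := by
    have : Kin m x.2 - Pot m x.1 = E := hE
    linarith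
  have hrkin : r * Kin m x.2 ≤ K1 := by
    have h1 : r * Pot m x.1 ≤ (∑ i, m i) ^ 2 / 2 := by
      have h2 := mul_le_mul_of_nonneg_left hpot hrpos.le
      have h3 : r * ((∑ i, m i) ^ 2 / (2 * r)) = (∑ i, m i) ^ 2 / 2 := by
        field_simp
      linarith
    have h4 : r * E ≤ |E| := by
      have h5 : r * E ≤ r * |E| := mul_le_mul_of_nonneg_left (le_abs_self E) hrpos.le
      have h6 : r * |E| ≤ 1 * |E| := mul_le_mul_of_nonneg_right hr1 (abs_nonneg E)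
      linarith
    rw [hkin]
    linarith
  have hsplit := kin_split hm hab x.2
  have hkred0 := kred_nonneg hm a b x.2
  have hμ : 0 < m a * m b / (m a + m b) :=
    div_pos (mul_pos (hm a) (hm b)) (add_pos (hm a) (hm b))
  have hkredle : Kred m a b x.2 ≤ Kin m x.2 := by
    have : 0 ≤ (1 / 2) * (m a * m b / (m a + m b)) * ‖x.2 a - x.2 b‖ ^ 2 := by positivity
    linarith
  have hV : r * (Kred m a b x.2 + 1) ≤ A := by
    have h1 : r * Kred m a b x.2 ≤ r * Kin m x.2 := mul_le_mul_of_nonneg_left hkredle hrpos.le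
    have h2 : 0 ≤ 2 * K1 * D := by positivity
    have h3 : r * (Kred m a b x.2 + 1) = r * Kred m a b x.2 + r := by ring
    linarith
  have hvab : r * ‖x.2 a - x.2 b‖ ^ 2 ≤ A := by
    have h1 : (1 / 2) * (m a * m b / (m a + m b)) * ‖x.2 a - x.2 b‖ ^ 2 ≤ Kin m x.2 := by
      linarith
    have h2 : ‖x.2 a - x.2 b‖ ^ 2
        = 2 * ((m a + m b) / (m a * m b)) *
          ((1 / 2) * (m a * m b / (m a + m b)) * ‖x.2 a - x.2 b‖ ^ 2) := by
      have ha := (hm a).ne'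
      have hb := (hm b).ne'
      have hs : m a + m b ≠ 0 := (add_pos (hm a) (hm b)).ne'
      field_simp
    have h3 : ‖x.2 a - x.2 b‖ ^ 2 ≤ 2 * ((m a + m b) / (m a * m b)) * Kin m x.2 := by
      rw [h2]
      exact mul_le_mul_of_nonneg_left h1 (by have := hterm a b; positivity)
    have h4 : r * ‖x.2 a - x.2 b‖ ^ 2 ≤ 2 * ((m a + m b) / (m a * m b)) * (r * Kin m x.2) := by
      have := mul_le_mul_of_nonneg_left h3 hrpos.le
      linarith
    have h5 : 2 * ((m a + m b) / (m a * m b)) * (r * Kin m x.2)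
        ≤ 2 * ((m a + m b) / (m a * m b)) * K1 :=
      mul_le_mul_of_nonneg_left hrkin (by have := hterm a b; positivity)
    have h6 : 2 * ((m a + m b) / (m a * m b)) * K1 ≤ 2 * D * K1 := by
      have := hDge a b
      have h7 : ((m a + m b) / (m a * m b)) * K1 ≤ D * K1 := mul_le_mul_of_nonneg_right this hK1'
      linarith
    linarith
  have hrv : r * ‖x.2 a - x.2 b‖ ≤ c0 / 2 := by
    have h1 : (r * ‖x.2 a - x.2 b‖) ^ 2 ≤ (c0 / 2) ^ 2 := by
      have h2 : (r * ‖x.2 a - x.2 b‖) ^ 2 = r * (r * ‖x.2 a - x.2 b‖ ^ 2) := by ring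
      rw [h2]
      exact (mul_le_mul_of_nonneg_left hvab hrpos.le).trans hr2'
    exact (pow_le_pow_iff_left₀ (by positivity) (by positivity) two_ne_zero).mp h1
  set V : ℝ := √(Kred m a b x.2 + 1) with hVdef
  have hVsq : V ^ 2 = Kred m a b x.2 + 1 := Real.sq_sqrt (by linarith)
  have hV0 : 0 ≤ V := Real.sqrt_nonneg _
  have hsq : √(Kred m a b x.2) ≤ V := Real.sqrt_le_sqrt (by linarith)
  -- the basic estimate
  have key : ∀ y u : ℝ, 0 ≤ y → u ≤ C * √(Kred m a b x.2) →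
      c0 ≤ r * ‖x.2 a - x.2 b‖ + y * u → δ ≤ V * y ∧ 4 * r ≤ y := by
    intro y u hy hu hc
    have h1 : c0 / 2 ≤ y * u := by linarith
    have h2 : y * u ≤ y * (C * V) :=
      mul_le_mul_of_nonneg_left (hu.trans (mul_le_mul_of_nonneg_left hsq hC.le)) hy
    have h3 : δ ≤ V * y := by
      rw [hδ, div_le_iff₀ (by positivity)]
      have h4 : V * y * (2 * C) = 2 * (y * (C * V)) := by ring
      linarith
    refine ⟨h3, ?_⟩
    have h5 : δ ^ 2 ≤ (V * y) ^ 2 := pow_le_pow_left₀ hδ0.le h3 2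
    have h6 : r * δ ^ 2 ≤ A * y ^ 2 := by
      have h7 : r * δ ^ 2 ≤ r * (V * y) ^ 2 := mul_le_mul_of_nonneg_left h5 hrpos.le
      have h8 : r * (V * y) ^ 2 = (r * (Kred m a b x.2 + 1)) * y ^ 2 := by
        rw [mul_pow, hVsq]; ring
      have h9 : (r * (Kred m a b x.2 + 1)) * y ^ 2 ≤ A * y ^ 2 :=
        mul_le_mul_of_nonneg_right hV (sq_nonneg y)
      linarith
    have h10 : A * (4 * r) ^ 2 ≤ A * y ^ 2 := by
      have h11 : r * (r * (16 * A)) ≤ r * δ ^ 2 := mul_le_mul_of_nonneg_left hr3' hrpos.le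
      have h12 : A * (4 * r) ^ 2 = r * (r * (16 * A)) := by ring
      linarith
    have h13 : (4 * r) ^ 2 ≤ y ^ 2 := le_of_mul_le_mul_left h10 hA0
    exact (pow_le_pow_iff_left₀ (by positivity) hy two_ne_zero).mp h13
  obtain ⟨hv1, _, hv3, hv4⟩ := hCv x.2 a b hab
  obtain ⟨hca, hcb⟩ := cm_dist hm hab x.1
  refine ⟨hV, hvab, ?_, ?_⟩
  · intro c hc
    obtain ⟨h1, h2⟩ := key _ _ (norm_nonneg _) (hv3 c hc) (hstar.1 c hc)
    refine ⟨h1, h2, ?_, ?_⟩
    · have h3 : ‖x.1 c - cm m a b x.1‖ ≤ ‖x.1 c - x.1 a‖ + ‖cm m a b x.1 - x.1 a‖ := by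
        have h4 : x.1 c - cm m a b x.1 = (x.1 c - x.1 a) - (cm m a b x.1 - x.1 a) := by abel
        rw [h4]
        exact norm_sub_le _ _
      linarith
    · have h3 : ‖x.1 c - cm m a b x.1‖ ≤ ‖x.1 c - x.1 b‖ + ‖cm m a b x.1 - x.1 b‖ := by
        have h4 : x.1 c - cm m a b x.1 = (x.1 c - x.1 b) - (cm m a b x.1 - x.1 b) := by abel
        rw [h4]
        exact norm_sub_le _ _
      linarith
  · intro c hc e he hce
    obtain ⟨h1, h2⟩ := key _ _ (norm_nonneg _) (hv4 c hc e he) (hstar.2 c hc e he hce)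
    exact ⟨h1, by linarith⟩

end HDN
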