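import Mathlib
import Pool.Agent.HDN.Phys
import Pool.Agent.HDN.ConsH
import Pool.Agent.HDN.ConsL
import Pool.Agent.HDN.RankD
import Pool.Agent.HDN.SingB
import Pool.Agent.HDN.PairB
import Pool.Agent.HDN.PainB
import Pool.Agent.HDN.BinA

/-!
# The deterministic theorem (project HDN)

If the angular momentum has rank at least `2 N - 4`, every singularity is a collision of exactly
two bodies. `star_of_rank` (with `L = Lop m (γ 0)`, `lop_const`), `single_time` (with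
`E = Ham m (γ 0)`, `ham_const`), `painleve`, `est_sep` and `exists_pair` give a pair `a, b` and `t₀`
with `Est` on `[t₀, T)`; `r → 0` by `painleve`; `binEnd_of_est`.
-/

open MeasureTheory Set Filter Topology Metric
open scoped NNReal ENNReal RealInnerProductSpace

namespace HDN

variable {N d : ℕ} {m : Fin N → ℝ}

theorem binEnd_of_rank (hm : ∀ i, 0 < m i) {γ : ℝ → Ph N d} {T : ℝ} (hT : 0 < T)
    (hγ : SolOn (nfield m) (FreeSet N d) γ (Ico 0 T))
    (hK : ∀ K, IsCompact K → K ⊆ FreeSet N d → ∃ t ∈ Ico 0 T, γ t ∉ K)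
    (hrank : 2 * N - 4 ≤ lrank (Lop m (γ 0))) :
    ∃ a b, a ≠ b ∧ BinEnd m a b γ T := by
  obtain ⟨c0, hc0, hstar⟩ := star_of_rank hm (Lop m (γ 0)) hrank
  obtain ⟨r0, hr0, A, hA, δ, hδ, hsing⟩ := single_time (d := d) hm (Ham m (γ 0)) hc0
  have hP := painleve hm hT hγ hK
  have hEst : ∀ t ∈ Ico 0 T, ∀ a b, a ≠ b → ‖(γ t).1 a - (γ t).1 b‖ ≤ r0 →
      (∀ i j, i ≠ j → ‖(γ t).1 a - (γ t).1 b‖ ≤ ‖(γ t).1 i - (γ t).1 j‖) →
      Est m A δ a b (γ t) := by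
    intro t ht a b hab h1 h2
    exact hsing (γ t) (hγ t ht).1 (ham_const hγ t ht) a b hab
      (hstar (γ t) (lop_const hγ t ht) a b hab) h1 h2
  have hcont : ContinuousOn γ (Ico 0 T) := fun t ht =>
    (hγ t ht).2.continuousAt.continuousWithinAt
  obtain ⟨a, b, hab, t₀, ht₀, hpair⟩ := exists_pair hcont (fun t ht => (hγ t ht).1) hP hr0
    (fun t ht a b hab h1 h2 i j hij h3 h4 => est_sep hab (hEst t ht a b hab h1 h2) hij h3 h4)
  refine ⟨a, b, hab, binEnd_of_est hm ht₀ hA hδ hγ (ham_const hγ) hab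
    (fun t ht => hEst t ⟨ht₀.1.trans ht.1, ht.2⟩ a b hab (hpair t ht).1 (hpair t ht).2) ?_⟩
  rw [Metric.tendsto_nhds]
  intro ε hε
  obtain ⟨t₁, ht₁, h1⟩ := hP ε hε
  have hmem : Ioo (max t₀ t₁) T ∈ 𝓝[<] T := Ioo_mem_nhdsLT (max_lt ht₀.2 ht₁.2)
  filter_upwards [hmem] with t ht
  have ht0 : t ∈ Ico t₀ T := ⟨((le_max_left _ _).trans_lt ht.1).le, ht.2⟩
  obtain ⟨i, j, hij, h2⟩ := h1 t ⟨((le_max_right _ _).trans_lt ht.1).le, ht.2⟩
  rw [Real.dist_eq, sub_zero, abs_of_nonneg (norm_nonneg _)]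
  exact ((hpair t ht0).2 i j hij).trans_lt h2

end HDN
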