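import Mathlib
import Pool.Agent.HDN.Defs

/-!
# Compact exhaustion of an open set (project HDN)

`K n = closedBall 0 n ∩ {x | ((n : ℝ≥0∞) + 1)⁻¹ ≤ infEDist x Ωᶜ}` (`Metric.infEDist`; it is
`⊤` if `Ωᶜ = ∅`).
-/

open MeasureTheory Set Filter Topology Metric
open scoped NNReal ENNReal RealInnerProductSpace

namespace HDN

variable {V : Type*} [NormedAddCommGroup V] [NormedSpace ℝ V] [FiniteDimensional ℝ V]

/-- compact exhaustion of an open set -/
theorem exists_seq_compact {Ω : Set V} (hΩ : IsOpen Ω) :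
    ∃ K : ℕ → Set V, (∀ n, IsCompact (K n)) ∧ (∀ n, K n ⊆ Ω) ∧ (∀ n, K n ⊆ interior (K (n + 1))) ∧
      ∀ K', IsCompact K' → K' ⊆ Ω → ∃ n, K' ⊆ interior (K n) := by
  haveI : ProperSpace V := FiniteDimensional.proper ℝ V
  haveI : LocallyCompactSpace Ω := hΩ.locallyCompactSpace
  let E : CompactExhaustion Ω := default
  have hstep : ∀ n, Subtype.val '' E n ⊆ interior (Subtype.val '' E (n + 1) : Set V) := by
    intro n
    have h1 : Subtype.val '' interior (E (n + 1)) ⊆
        interior (Subtype.val '' E (n + 1) : Set V) :=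
      interior_maximal (Set.image_mono interior_subset)
        (hΩ.isOpenMap_subtype_val _ isOpen_interior)
    exact (Set.image_mono (E.subset_interior_succ n)).trans h1
  refine ⟨fun n => Subtype.val '' E n, fun n => (E.isCompact n).image continuous_subtype_val,
    fun n => ?_, hstep, fun K' hK' hK'Ω => ?_⟩
  · rintro _ ⟨x, _, rfl⟩
    exact x.2
  · have h1 : IsCompact (Subtype.val ⁻¹' K' : Set Ω) := by
      rw [Topology.IsInducing.subtypeVal.isCompact_preimage_iff (by
        rw [Subtype.range_coe]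
        exact hK'Ω)]
      exact hK'
    obtain ⟨n, hn⟩ := E.exists_superset_of_isCompact h1
    refine ⟨n + 1, fun x hx => hstep n ⟨⟨x, hK'Ω hx⟩, hn hx, rfl⟩⟩

end HDN
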