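import Mathlib
import Pool.Agent.HDN.Defs

/-!
# Truncation of a `C^1` field (project HDN)

Choose an open `W` with `K ⊆ W`, `closure W ⊆ Ω` compact
(`exists_open_between_and_isCompact_closure`), a smooth function `χ` with `χ = 1` on `K` and
`χ = 0` off `W` (`exists_contMDiffMap_zero_one_of_isClosed` with the model `𝓘(ℝ, V)`, closed
sets `Wᶜ` and `K`), `g = χ • f`. `g` is `C^1` (product on `Ω`, and near points off `closure W` it is
zero), has compact support, so `ContDiff.lipschitzWith_of_hasCompactSupport`, and it is bounded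
(continuous with compact support).
-/

open MeasureTheory Set Filter Topology Metric
open scoped NNReal ENNReal RealInnerProductSpace Manifold ContDiff

namespace HDN

variable {V : Type*} [NormedAddCommGroup V] [NormedSpace ℝ V]

theorem exists_trunc [FiniteDimensional ℝ V] {f : V → V} {Ω K : Set V} (hΩ : IsOpen Ω)
    (hf : ContDiffOn ℝ 1 f Ω) (hK : IsCompact K) (hKΩ : K ⊆ Ω) :
    ∃ (g : V → V) (L C : ℝ≥0), LipschitzWith L g ∧ (∀ x, ‖g x‖ ≤ C) ∧ EqOn g f K := by
  have hprop : ProperSpace V := FiniteDimensional.proper ℝ V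
  obtain ⟨W, hWo, hKW, hWΩ, hWc⟩ := exists_open_between_and_isCompact_closure hK hΩ hKΩ
  have hdis : Disjoint Wᶜ K := by
    rw [Set.disjoint_left]
    intro x hx hxK
    exact hx (hKW hxK)
  obtain ⟨χ, hχ0, hχ1, -⟩ := exists_contMDiffMap_zero_one_of_isClosed (n := 1) 𝓘(ℝ, V)
    hWo.isClosed_compl hK.isClosed hdis
  have hχ : ContDiff ℝ 1 (χ : V → ℝ) := χ.contMDiff.contDiff
  have hzero : ∀ x, x ∉ closure W → χ x • f x = 0 := by
    intro x hx
    have hxW : x ∈ Wᶜ := fun h => hx (subset_closure h)
    have h0 : χ x = 0 := hχ0 hxW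
    rw [h0, zero_smul]
  have hg : ContDiff ℝ 1 (fun x => χ x • f x) := by
    rw [contDiff_iff_contDiffAt]
    intro x
    by_cases hx : x ∈ Ω
    · exact hχ.contDiffAt.smul (hf.contDiffAt (hΩ.mem_nhds hx))
    · have hxc : x ∉ closure W := fun h => hx (hWΩ h)
      have hev : (fun y => χ y • f y) =ᶠ[𝓝 x] fun _ => (0 : V) := by
        filter_upwards [isClosed_closure.isOpen_compl.mem_nhds hxc] with y hy
        exact hzero y hy
      exact contDiffAt_const.congr_of_eventuallyEq hev
  have hsupp : HasCompactSupport (fun x => χ x • f x) :=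
    HasCompactSupport.intro hWc hzero
  obtain ⟨L, hL⟩ := hg.lipschitzWith_of_hasCompactSupport hsupp one_ne_zero
  obtain ⟨C, hC⟩ := hg.continuous.bounded_above_of_compact_support hsupp
  refine ⟨fun x => χ x • f x, L, C.toNNReal, hL, ?_, ?_⟩
  · intro x
    exact (hC x).trans (Real.le_coe_toNNReal C)
  · intro x hx
    have h1 : χ x = 1 := hχ1 hx
    change χ x • f x = f x
    rw [h1, one_smul]

end HDN
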