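import Mathlib
import Pool.Agent.HDN.Defs

/-!
# Global flow of a bounded globally Lipschitz field (project HDN)

Picard-Lindelöf (`IsPicardLindelof.of_time_independent` and
`IsPicardLindelof.exists_eq_forall_mem_Icc_hasDerivWithinAt₀`) on `[-n, n]` with radius
`a = C * n` (possible because `g` is bounded by `C` everywhere), uniqueness
(`ODE_solution_unique_of_mem_Ioo`) glues the solutions for `n = 1, 2, ...`.
-/

open MeasureTheory Set Filter Topology Metric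
open scoped NNReal ENNReal RealInnerProductSpace

namespace HDN

variable {V : Type*} [NormedAddCommGroup V] [NormedSpace ℝ V]

/-- solution on `(-n, n)` -/
private theorem FlowB_loc [CompleteSpace V] {g : V → V} {L C : ℝ≥0} (hL : LipschitzWith L g)
    (hC : ∀ x, ‖g x‖ ≤ C) (x : V) (n : ℕ) :
    ∃ α : ℝ → V, α 0 = x ∧ ∀ t ∈ Ioo (-(n : ℝ)) n, HasDerivAt α (g (α t)) t := by
  have h0 : (0 : ℝ) ∈ Icc (-(n : ℝ)) n := ⟨by simp, by simp⟩
  have hp : IsPicardLindelof (fun _ ↦ g) (⟨0, h0⟩ : Icc (-(n : ℝ)) n) x (C * n) 0 C L := by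
    refine IsPicardLindelof.of_time_independent (fun y _ ↦ hC y) hL.lipschitzOnWith ?_
    simp
  obtain ⟨α, h1, h2⟩ := hp.exists_eq_forall_mem_Icc_hasDerivWithinAt₀
  exact ⟨α, h1, fun t ht ↦
    (h2 t (Ioo_subset_Icc_self ht)).hasDerivAt (Icc_mem_nhds ht.1 ht.2)⟩

theorem exists_globalFlow [CompleteSpace V] {g : V → V} {L C : ℝ≥0} (hL : LipschitzWith L g)
    (hC : ∀ x, ‖g x‖ ≤ C) :
    ∃ Φ : ℝ → V → V, (∀ x, Φ 0 x = x) ∧ ∀ x t, HasDerivAt (fun s => Φ s x) (g (Φ t x)) t := by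
  choose α h0 hα using fun x n ↦ FlowB_loc hL hC x n
  have key : ∀ (x : V) (m n : ℕ) (_ : m ≤ n) (s : ℝ), s ∈ Ioo (-(m : ℝ)) m →
      α x m s = α x n s := by
    intro x m n hmn s hs
    have hm : (0 : ℝ) < m := by linarith [hs.1, hs.2]
    have hmn' : (m : ℝ) ≤ n := by exact_mod_cast hmn
    refine ODE_solution_unique_of_mem_Ioo (v := fun _ ↦ g) (s := fun _ ↦ univ) (K := L) (t₀ := 0)
      (fun t _ ↦ hL.lipschitzOnWith) ⟨by linarith, hm⟩ (fun t ht ↦ ⟨hα x m t ht, mem_univ _⟩)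
      (fun t ht ↦ ⟨hα x n t ⟨by linarith [ht.1], by linarith [ht.2]⟩, mem_univ _⟩) ?_ hs
    rw [h0, h0]
  have key2 : ∀ (x : V) (m n : ℕ) (s : ℝ), |s| < m → |s| < n → α x m s = α x n s := by
    intro x m n s hm hn
    rcases le_total m n with h | h
    · exact key x m n h s (abs_lt.mp hm)
    · exact (key x n m h s (abs_lt.mp hn)).symm
  have hceil : ∀ s : ℝ, |s| < ((⌈|s|⌉₊ + 1 : ℕ) : ℝ) := by
    intro s
    have := Nat.le_ceil |s|
    push_cast
    linarith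
  refine ⟨fun t x ↦ α x (⌈|t|⌉₊ + 1) t, fun x ↦ h0 x _, fun x t ↦ ?_⟩
  have ht := hceil t
  have h1 := hα x (⌈|t|⌉₊ + 1) t (abs_lt.mp ht)
  refine h1.congr_of_eventuallyEq ?_
  have h2 : ∀ᶠ s : ℝ in 𝓝 t, |s| < ((⌈|t|⌉₊ + 1 : ℕ) : ℝ) :=
    (continuous_abs.tendsto t).eventually (gt_mem_nhds ht)
  filter_upwards [h2] with s hs
  exact key2 x _ _ s (hceil s) hs

end HDN
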