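import Mathlib
import Pool.Agent.HDN.Defs
import Pool.Agent.HDN.FlowA
import Pool.Agent.HDN.FlowB

/-!
# Basic properties of flows (project HDN)

Uniqueness (`ODE_solution_unique_of_mem_Icc_right`, `ODE_solution_unique_univ`) and Gronwall
(`dist_le_of_trajectories_ODE`; for negative times apply it to the reversed curve
`s ↦ Φ (-s) x` and the field `-g`).
-/

open MeasureTheory Set Filter Topology Metric
open scoped NNReal ENNReal RealInnerProductSpace

namespace HDN

variable {V : Type*} [NormedAddCommGroup V] [NormedSpace ℝ V]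

theorem exists_flow [FiniteDimensional ℝ V] {f : V → V} {Ω K : Set V} (hΩ : IsOpen Ω)
    (hf : ContDiffOn ℝ 1 f Ω) (hK : IsCompact K) (hKΩ : K ⊆ Ω) : Nonempty (Flow f K) := by
  have : CompleteSpace V := FiniteDimensional.complete ℝ V
  obtain ⟨g, L, C, h1, h2, h3⟩ := exists_trunc hΩ hf hK hKΩ
  obtain ⟨Φ, h4, h5⟩ := exists_globalFlow h1 h2
  exact ⟨⟨g, L, C, h1, h2, h3, Φ, h4, h5⟩⟩

namespace Flow

variable {f : V → V} {K : Set V} (F : Flow f K)

/-- the flow line through `x`, shifted in time -/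
theorem deriv_shift (x : V) (c t : ℝ) :
    HasDerivAt (fun s => F.Φ (s + c) x) (F.g (F.Φ (t + c) x)) t :=
  (F.deriv x (t + c)).comp_add_const t c

theorem continuous_line (x : V) : Continuous fun s => F.Φ s x :=
  continuous_iff_continuousAt.2 fun t => (F.deriv x t).continuousAt

include F in
/-- uniqueness forward in time: a curve which solves `x' = f x` inside `K` is a flow line -/
theorem eq_of_sol {γ : ℝ → V} {a b : ℝ} (hab : a ≤ b) (hc : ContinuousOn γ (Icc a b))
    (hγ : ∀ t ∈ Ico a b, γ t ∈ K ∧ HasDerivWithinAt γ (f (γ t)) (Ici t) t) :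
    ∀ t ∈ Icc a b, γ t = F.Φ (t - a) (γ a) := by
  have key : EqOn γ (fun t => F.Φ (t + -a) (γ a)) (Icc a b) := by
    refine ODE_solution_unique (v := fun _ => F.g) (K := F.L) (fun _ => F.lip) hc ?_ ?_ ?_ ?_
    · intro t ht
      have h := (hγ t ht).2
      rwa [← F.eqOn (hγ t ht).1] at h
    · exact (F.continuous_line (γ a)).comp (continuous_id.add continuous_const) |>.continuousOn
    · intro t _
      exact (F.deriv_shift (γ a) (-a) t).hasDerivWithinAt
    · simp [F.zero]
  intro t ht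
  simpa [sub_eq_add_neg] using key ht

/-- group law -/
theorem comp (s t : ℝ) (x : V) : F.Φ s (F.Φ t x) = F.Φ (s + t) x := by
  have h : (fun s => F.Φ s (F.Φ t x)) = fun s => F.Φ (s + t) x := by
    refine ODE_solution_unique_univ (v := fun _ => F.g) (K := F.L) (s := fun _ => univ) (t₀ := 0)
      (fun _ => F.lip.lipschitzOnWith) ?_ ?_ ?_
    · intro r
      exact ⟨F.deriv (F.Φ t x) r, mem_univ _⟩
    · intro r
      exact ⟨F.deriv_shift x t r, mem_univ _⟩
    · simp [F.zero]
  exact congrFun h s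

theorem dist_le_of_nonneg {t : ℝ} (ht : 0 ≤ t) (x y : V) :
    dist (F.Φ t x) (F.Φ t y) ≤ dist x y * Real.exp (F.L * t) := by
  have h := dist_le_of_trajectories_ODE (v := fun _ => F.g) (K := F.L) (δ := dist x y)
    (a := 0) (b := t) (f := fun s => F.Φ s x) (g := fun s => F.Φ s y) (fun _ => F.lip)
    (F.continuous_line x).continuousOn (fun s _ => (F.deriv x s).hasDerivWithinAt)
    (F.continuous_line y).continuousOn (fun s _ => (F.deriv y s).hasDerivWithinAt)
    (by simp [F.zero]) t ⟨ht, le_rfl⟩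
  simpa using h

theorem deriv_neg (x : V) (t : ℝ) :
    HasDerivAt (fun s => F.Φ (-s) x) (-F.g (F.Φ (-t) x)) t := by
  have h := (F.deriv x (-t)).scomp t (hasDerivAt_neg t)
  rw [neg_one_smul] at h
  exact h

theorem dist_le_of_nonneg' {t : ℝ} (ht : 0 ≤ t) (x y : V) :
    dist (F.Φ (-t) x) (F.Φ (-t) y) ≤ dist x y * Real.exp (F.L * t) := by
  have hc : ∀ x, Continuous fun s : ℝ => F.Φ (-s) x := fun x =>
    (F.continuous_line x).comp continuous_neg
  have h := dist_le_of_trajectories_ODE (v := fun _ x => -F.g x) (K := F.L) (δ := dist x y)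
    (a := 0) (b := t) (f := fun s => F.Φ (-s) x) (g := fun s => F.Φ (-s) y)
    (fun _ => by
      have := F.lip.neg
      exact this)
    (hc x).continuousOn (fun s _ => (F.deriv_neg x s).hasDerivWithinAt)
    (hc y).continuousOn (fun s _ => (F.deriv_neg y s).hasDerivWithinAt)
    (by simp [F.zero]) t ⟨ht, le_rfl⟩
  simpa using h

theorem dist_le (t : ℝ) (x y : V) :
    dist (F.Φ t x) (F.Φ t y) ≤ Real.exp (F.L * |t|) * dist x y := by
  rcases le_total 0 t with ht | ht
  · rw [abs_of_nonneg ht, mul_comm]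
    exact F.dist_le_of_nonneg ht x y
  · rw [abs_of_nonpos ht, mul_comm]
    have h := F.dist_le_of_nonneg' (t := -t) (by linarith) x y
    simpa using h

/-- Gronwall -/
theorem lipschitz (t : ℝ) : LipschitzWith (Real.toNNReal (Real.exp (F.L * |t|))) (F.Φ t) := by
  refine LipschitzWith.of_dist_le_mul fun x y => ?_
  rw [Real.coe_toNNReal _ (Real.exp_pos _).le]
  exact F.dist_le t x y

theorem dist_time (x : V) (s t : ℝ) : dist (F.Φ s x) (F.Φ t x) ≤ F.C * dist s t := by
  have h : LipschitzWith F.C fun s => F.Φ s x := by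
    refine lipschitzWith_of_nnnorm_deriv_le (𝕜 := ℝ) (fun t => (F.deriv x t).differentiableAt) ?_
    intro t
    rw [(F.deriv x t).deriv]
    have := F.bdd (F.Φ t x)
    exact_mod_cast this
  exact h.dist_le_mul s t

/-- the flow is Lipschitz in both variables for times in a bounded interval -/
theorem lipschitzOn (T : ℝ) : ∃ c : ℝ≥0, LipschitzOnWith c (fun p : ℝ × V => F.Φ p.1 p.2)
    (Icc (-T) T ×ˢ (univ : Set V)) := by
  refine ⟨F.C + Real.toNNReal (Real.exp (F.L * T)), LipschitzOnWith.of_dist_le_mul ?_⟩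
  rintro ⟨s, x⟩ ⟨hs, -⟩ ⟨t, y⟩ ⟨ht, -⟩
  simp only at hs ht ⊢
  have hT : |t| ≤ T := abs_le.2 ht
  have h1 : dist (F.Φ s x) (F.Φ t x) ≤ F.C * dist s t := F.dist_time x s t
  have h2 : dist (F.Φ t x) (F.Φ t y) ≤ Real.exp (F.L * |t|) * dist x y := F.dist_le t x y
  have h3 : Real.exp (F.L * |t|) ≤ Real.exp (F.L * T) :=
    Real.exp_le_exp.2 (mul_le_mul_of_nonneg_left hT F.L.2)
  have h4 : dist s t ≤ dist (s, x) (t, y) := by
    rw [Prod.dist_eq]
    exact le_max_left _ _
  have h5 : dist x y ≤ dist (s, x) (t, y) := by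
    rw [Prod.dist_eq]
    exact le_max_right _ _
  have h6 : (0 : ℝ) ≤ F.C := F.C.2
  have h7 : ((F.C + Real.toNNReal (Real.exp (F.L * T)) : ℝ≥0) : ℝ) =
      (F.C : ℝ) + Real.exp (F.L * T) := by
    rw [NNReal.coe_add, Real.coe_toNNReal _ (Real.exp_pos _).le]
  calc dist (F.Φ s x) (F.Φ t y) ≤ dist (F.Φ s x) (F.Φ t x) + dist (F.Φ t x) (F.Φ t y) :=
        dist_triangle _ _ _
    _ ≤ F.C * dist s t + Real.exp (F.L * |t|) * dist x y := add_le_add h1 h2
    _ ≤ F.C * dist (s, x) (t, y) + Real.exp (F.L * T) * dist (s, x) (t, y) := by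
        refine add_le_add (mul_le_mul_of_nonneg_left h4 h6) ?_
        exact mul_le_mul h3 h5 dist_nonneg (Real.exp_pos _).le
    _ = _ := by rw [h7]; ring

end Flow

end HDN
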