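import Mathlib
import Pool.Agent.HDN.Defs
import Pool.Agent.HDN.FlowC
import Pool.Agent.HDN.Exhaust

/-!
# Dimension of the set from which a linear space is reached (project HDN)

As in `NullReach.lean`: the set is contained in the union over `n k : ℕ` of the images of
`(univ : Set W) ×ˢ Icc 0 k ⊆ W × ℝ` under the map `(p, s) ↦ (F n).Φ (-s) (ι p)`, which is Lipschitz
there (`Flow.lipschitzOn`, `ι` is Lipschitz). Use `LipschitzOnWith.dimH_image_le`, `dimH_iUnion`,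
`dimH_mono`, `Real.dimH_univ_eq_finrank` (finrank of `W × ℝ` is `finrank W + 1`).
-/

open MeasureTheory Set Filter Topology Metric
open scoped NNReal ENNReal RealInnerProductSpace

namespace HDN

variable {V : Type*} [NormedAddCommGroup V] [NormedSpace ℝ V] [FiniteDimensional ℝ V]

theorem dimH_reach {W : Type*} [NormedAddCommGroup W] [NormedSpace ℝ W] [FiniteDimensional ℝ W]
    {f : V → V} {Ω C : Set V} (hΩ : IsOpen Ω) (hf : ContDiffOn ℝ 1 f Ω) (ι : W →ₗ[ℝ] V)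
    (hC : C ⊆ range ι) :
    dimH (Reach f Ω C) ≤ (Module.finrank ℝ W + 1 : ℕ) := by
  obtain ⟨K, hKc, hKΩ, -, hKex⟩ := exists_seq_compact hΩ
  have F : ∀ n, Flow f (K n) := fun n => (exists_flow hΩ hf (hKc n) (hKΩ n)).some
  set S : ℕ → ℕ → Set V := fun n k =>
    (fun p : W × ℝ => (F n).Φ (-p.2) (ι p.1)) '' ((univ : Set W) ×ˢ Icc (0 : ℝ) k) with hS
  have hsub : Reach f Ω C ⊆ ⋃ n, ⋃ k, S n k := by
    rintro x ⟨s, hs, ζ, hζ0, hζ, hζC⟩
    obtain ⟨w, hw⟩ := hC hζC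
    have hcont : ContinuousOn ζ (Icc 0 s) := fun t ht =>
      ((hζ t ht).2.continuousAt).continuousWithinAt
    have hcomp : IsCompact (ζ '' Icc 0 s) := isCompact_Icc.image_of_continuousOn hcont
    have hsubΩ : ζ '' Icc 0 s ⊆ Ω := by
      rintro y ⟨t, ht, rfl⟩
      exact (hζ t ht).1
    obtain ⟨n, hn⟩ := hKex _ hcomp hsubΩ
    obtain ⟨k, hk⟩ := exists_nat_ge s
    have hflow := (F n).eq_of_sol hs hcont (fun t ht =>
      ⟨interior_subset (hn (mem_image_of_mem ζ (Ico_subset_Icc_self ht))),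
        (hζ t (Ico_subset_Icc_self ht)).2.hasDerivWithinAt⟩) s ⟨hs, le_rfl⟩
    refine mem_iUnion.2 ⟨n, mem_iUnion.2 ⟨k, (w, s), ⟨mem_univ _, hs, hk⟩, ?_⟩⟩
    show (F n).Φ (-s) (ι w) = x
    rw [hw, hflow, sub_zero, (F n).comp, neg_add_cancel, (F n).zero, hζ0]
  have hone : ∀ n k, dimH (S n k) ≤ (Module.finrank ℝ W + 1 : ℕ) := by
    intro n k
    obtain ⟨c, hc⟩ := (F n).lipschitzOn k
    let g : W × ℝ →L[ℝ] ℝ × V :=
      (-(ContinuousLinearMap.snd ℝ W ℝ)).prod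
        ((LinearMap.toContinuousLinearMap ι).comp (ContinuousLinearMap.fst ℝ W ℝ))
    have hg : LipschitzWith ‖g‖₊ g := g.lipschitz
    have hmaps : MapsTo g ((univ : Set W) ×ˢ Icc (0 : ℝ) k)
        (Icc (-(k : ℝ)) k ×ˢ (univ : Set V)) := by
      rintro ⟨w, t⟩ ⟨-, ht0, htk⟩
      refine ⟨⟨?_, ?_⟩, mem_univ _⟩
      · show -(k : ℝ) ≤ -t
        have : t ≤ (k : ℝ) := htk
        linarith
      · show -t ≤ (k : ℝ)
        have h0 : (0 : ℝ) ≤ t := ht0
        have : t ≤ (k : ℝ) := htk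
        linarith
    have hlip : LipschitzOnWith (c * ‖g‖₊) (fun p : W × ℝ => (F n).Φ (-p.2) (ι p.1))
        ((univ : Set W) ×ˢ Icc (0 : ℝ) k) := by
      have := hc.comp (hg.lipschitzOnWith (s := (univ : Set W) ×ˢ Icc (0 : ℝ) k)) hmaps
      exact this
    calc dimH (S n k) ≤ dimH ((univ : Set W) ×ˢ Icc (0 : ℝ) k) := hlip.dimH_image_le
      _ ≤ dimH (univ : Set (W × ℝ)) := dimH_mono (subset_univ _)
      _ = (Module.finrank ℝ W + 1 : ℕ) := by
        rw [Real.dimH_univ_eq_finrank, Module.finrank_prod, Module.finrank_self]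
  calc dimH (Reach f Ω C) ≤ dimH (⋃ n, ⋃ k, S n k) := dimH_mono hsub
    _ ≤ (Module.finrank ℝ W + 1 : ℕ) := by
      rw [dimH_iUnion]
      refine iSup_le fun n => ?_
      rw [dimH_iUnion]
      exact iSup_le fun k => hone n k

end HDN
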