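import Mathlib
import Pool.Agent.HDN.Phys

/-!
# Regularisation of a binary collision (project HDN)

Extended state `z = ((ρ, η), (r, κ), (h, A), (y, w))` for a pair `a ≠ b`:
`ρ = q_a - q_b`, `r = ‖ρ‖`, `u = v_a - v_b`, `η = r u`, `κ = ⟪ρ, u⟫`, `h = ‖u‖²/2 - M/r`,
`A = ‖u‖² ρ - ⟪ρ, u⟫ u - (M/r) ρ` (`M = m_a + m_b`), `y_c = q_c`, `w_c = v_c` for
`c ≠ a, b`, `y_a = cm q`, `w_a = cm v`. In the time `s` with `dt = r ds` the equations of motion are
regular at `r = 0`:
`ρ' = η`, `η' = 2 h ρ - A + r² F`, `r' = κ`, `κ' = 2 h r + M + r ⟪ρ, F⟫`, `h' = ⟪η, F⟫`,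
`A' = 2 ⟪η, F⟫ ρ - ⟪ρ, F⟫ η - ⟪ρ, η⟫ F`, `y' = r w`, `w' = r G(ρ, y)`,
where `F` is the difference of the accelerations of `a` and `b` caused by the other bodies.
-/

open MeasureTheory Set Filter Topology Metric
open scoped NNReal ENNReal RealInnerProductSpace

namespace HDN

variable {N d : ℕ}

/-- indices of the bodies other than `b` -/
abbrev Idx (b : Fin N) := {i : Fin N // i ≠ b}

/-- extended phase space -/
abbrev Ext (d : ℕ) {N : ℕ} (b : Fin N) :=
  (Sp d × Sp d) × (ℝ × ℝ) × (ℝ × Sp d) × ((Idx b → Sp d) × (Idx b → Sp d))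

/-- build a configuration from the separation `ρ` of the pair `a, b` and the positions `y` of the
other bodies and of the centre of mass of the pair (stored at the index `a`) -/
noncomputable def unred (m : Fin N → ℝ) {a b : Fin N} (hab : a ≠ b) (ρ : Sp d)
    (y : Idx b → Sp d) : Cf N d := fun i =>
  if h : i = b then y ⟨a, hab⟩ - (m a / (m a + m b)) • ρ
  else if i = a then y ⟨i, h⟩ + (m b / (m a + m b)) • ρ else y ⟨i, h⟩

/-- projection to the physical phase space -/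
noncomputable def eproj (m : Fin N → ℝ) {a b : Fin N} (hab : a ≠ b) (z : Ext d b) : Ph N d :=
  (unred m hab z.1.1 z.2.2.2.1, unred m hab (z.2.1.1⁻¹ • z.1.2) z.2.2.2.2)

/-- difference of the accelerations of `a` and `b` caused by the other bodies -/
noncomputable def tforce (m : Fin N → ℝ) (a b : Fin N) (q : Cf N d) : Sp d :=
  ∑ c ∈ others a b, m c • (grav (q c - q a) - grav (q c - q b))

/-- acceleration of the centre of mass of `a, b` -/
noncomputable def cmacc (m : Fin N → ℝ) (a b : Fin N) (q : Cf N d) : Sp d :=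
  ∑ c ∈ others a b, (m c / (m a + m b)) • (m a • grav (q c - q a) + m b • grav (q c - q b))

/-- acceleration of the body `i` -/
noncomputable def gacc (m : Fin N → ℝ) (q : Cf N d) (i : Fin N) : Sp d :=
  ∑ e ∈ Finset.univ.erase i, m e • grav (q e - q i)

/-- the regularised vector field -/
noncomputable def efield (m : Fin N → ℝ) {a b : Fin N} (hab : a ≠ b) (z : Ext d b) : Ext d b :=
  let ρ := z.1.1
  let η := z.1.2
  let r := z.2.1.1
  let κ := z.2.1.2
  let h := z.2.2.1.1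
  let A := z.2.2.1.2
  let w := z.2.2.2.2
  let q := unred m hab ρ z.2.2.2.1
  let F := tforce m a b q
  ((η, (2 * h) • ρ - A + r ^ 2 • F), (κ, 2 * h * r + (m a + m b) + r * ⟪ρ, F⟫),
    (⟪η, F⟫, (2 * ⟪η, F⟫) • ρ - ⟪ρ, F⟫ • η - ⟪ρ, η⟫ • F),
    (r • w, r • fun i : Idx b => if i.1 = a then cmacc m a b q else gacc m q i.1))

/-- no collision except possibly the one of the pair `a, b` -/
def eset (m : Fin N → ℝ) {a b : Fin N} (hab : a ≠ b) : Set (Ext d b) :=
  {z | ∀ i j, i ≠ j → ¬ (i = a ∧ j = b) → ¬ (i = b ∧ j = a) →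
    unred m hab z.1.1 z.2.2.2.1 i ≠ unred m hab z.1.1 z.2.2.2.1 j}

/-- the extended state of a physical state -/
noncomputable def elift (m : Fin N → ℝ) (a b : Fin N) (x : Ph N d) : Ext d b :=
  let ρ := x.1 a - x.1 b
  let u := x.2 a - x.2 b
  ((ρ, ‖ρ‖ • u), (‖ρ‖, ⟪ρ, u⟫),
    ((1 / 2) * ‖u‖ ^ 2 - (m a + m b) / ‖ρ‖,
      ‖u‖ ^ 2 • ρ - ⟪ρ, u⟫ • u - ((m a + m b) / ‖ρ‖) • ρ),
    (fun i => if i.1 = a then cm m a b x.1 else x.1 i.1,
      fun i => if i.1 = a then cm m a b x.2 else x.2 i.1))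

/-- the collision states -/
def ecoll (d : ℕ) (b : Fin N) : Set (Ext d b) := {z | z.1 = 0 ∧ z.2.1 = 0}

/-- the physical states from which the regularised flow reaches a collision state -/
def Ncol (m : Fin N → ℝ) {a b : Fin N} (hab : a ≠ b) : Set (Ph N d) :=
  eproj m hab '' (Reach (efield m hab) (eset m hab) (ecoll d b) ∩ {z | z.2.1.1 ≠ 0})

end HDN
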