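import Mathlib
import Pool.Agent.HDN.Ext

/-!
# The projection of the lift (project HDN)
-/

open MeasureTheory Set Filter Topology Metric
open scoped NNReal ENNReal RealInnerProductSpace

namespace HDN

variable {N d : ℕ} {m : Fin N → ℝ} {a b : Fin N}

theorem unred_lift (hm : ∀ i, 0 < m i) (hab : a ≠ b) (q : Cf N d) :
    unred m hab (q a - q b) (fun i => if i.1 = a then cm m a b q else q i.1) = q := by
  have hM : m a + m b ≠ 0 := (add_pos (hm a) (hm b)).ne'
  funext i
  by_cases hb : i = b
  · subst hb
    simp only [unred, dif_pos, if_true, cm]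
    match_scalars <;> field_simp <;> ring
  · by_cases ha : i = a
    · subst ha
      simp only [unred, hb, dif_neg, not_false_iff, if_true, cm]
      match_scalars <;> field_simp <;> ring
    · simp only [unred, hb, ha, dif_neg, not_false_iff, if_false]

theorem eproj_elift (hm : ∀ i, 0 < m i) (hab : a ≠ b) {x : Ph N d} (hx : x.1 a ≠ x.1 b) :
    eproj m hab (elift m a b x) = x := by
  have h0 : ‖x.1 a - x.1 b‖ ≠ 0 := norm_ne_zero_iff.2 (sub_ne_zero.2 hx)
  simp only [eproj, elift, smul_smul, inv_mul_cancel₀ h0, one_smul]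
  rw [unred_lift hm hab x.1, unred_lift hm hab x.2]

end HDN
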