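import Mathlib
import Pool.Agent.HDN.Ext

/-!
# Relative motion and centre of mass motion of a pair (project HDN)
-/

open MeasureTheory Set Filter Topology Metric
open scoped NNReal ENNReal RealInnerProductSpace

namespace HDN

variable {N d : ℕ} {m : Fin N → ℝ} {a b : Fin N}

private lemma grav_neg (x : Sp d) : grav (-x) = -grav x := by
  simp [grav]

private lemma grav_swap (x y : Sp d) : grav (x - y) = -grav (y - x) := by
  rw [← grav_neg, neg_sub]

private lemma acc_eq (m : Fin N → ℝ) (q : Cf N d) (i : Fin N) :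
    acc m q i = ∑ e ∈ Finset.univ.erase i, m e • grav (q e - q i) := by
  unfold acc
  refine Finset.sum_congr rfl fun e _ => ?_
  rw [grav, smul_smul, div_eq_mul_inv]

private lemma acc_a (hab : a ≠ b) (m : Fin N → ℝ) (q : Cf N d) :
    acc m q a = m b • grav (q b - q a) + ∑ c ∈ others a b, m c • grav (q c - q a) := by
  rw [acc_eq, others]
  rw [← Finset.add_sum_erase _ _ (Finset.mem_erase.2 ⟨hab.symm, Finset.mem_univ b⟩)]

private lemma acc_b (hab : a ≠ b) (m : Fin N → ℝ) (q : Cf N d) :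
    acc m q b = m a • grav (q a - q b) + ∑ c ∈ others a b, m c • grav (q c - q b) := by
  rw [acc_eq, others, Finset.erase_right_comm]
  rw [← Finset.add_sum_erase _ _ (Finset.mem_erase.2 ⟨hab, Finset.mem_univ a⟩)]

/-- relative motion and centre of mass motion of the pair -/
theorem pair_deriv (hm : ∀ i, 0 < m i) (hab : a ≠ b) {γ : ℝ → Ph N d} {t : ℝ}
    (hfree : Free (γ t).1) (hγ : HasDerivAt γ (nfield m (γ t)) t) :
    HasDerivAt (fun s => (γ s).1 a - (γ s).1 b) ((γ t).2 a - (γ t).2 b) t ∧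
    HasDerivAt (fun s => (γ s).2 a - (γ s).2 b)
      (-((m a + m b) / ‖(γ t).1 a - (γ t).1 b‖ ^ 3) • ((γ t).1 a - (γ t).1 b) +
        tforce m a b (γ t).1) t ∧
    HasDerivAt (fun s => cm m a b (γ s).1) (cm m a b (γ t).2) t ∧
    HasDerivAt (fun s => cm m a b (γ s).2) (cmacc m a b (γ t).1) t := by
  have h1 : HasDerivAt (fun s => (γ s).1) (γ t).2 t := hγ.fst
  have h2 : HasDerivAt (fun s => (γ s).2) (acc m (γ t).1) t := hγ.snd
  have p : ∀ i, HasDerivAt (fun s => (γ s).1 i) ((γ t).2 i) t := hasDerivAt_pi.1 h1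
  have v : ∀ i, HasDerivAt (fun s => (γ s).2 i) (acc m (γ t).1 i) t := hasDerivAt_pi.1 h2
  have hM : m a + m b ≠ 0 := (add_pos (hm a) (hm b)).ne'
  refine ⟨(p a).sub (p b), ?_, ?_, ?_⟩
  · have e : -((m a + m b) / ‖(γ t).1 a - (γ t).1 b‖ ^ 3) • ((γ t).1 a - (γ t).1 b) +
        tforce m a b (γ t).1 = acc m (γ t).1 a - acc m (γ t).1 b := ?_
    · rw [e]
      exact (v a).sub (v b)
    rw [acc_a hab, acc_b hab, tforce, grav_swap ((γ t).1 b) ((γ t).1 a)]
    have hs : ∑ c ∈ others a b, m c • (grav ((γ t).1 c - (γ t).1 a) -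
        grav ((γ t).1 c - (γ t).1 b)) = ∑ c ∈ others a b, m c • grav ((γ t).1 c - (γ t).1 a) -
        ∑ c ∈ others a b, m c • grav ((γ t).1 c - (γ t).1 b) := by
      rw [← Finset.sum_sub_distrib]
      exact Finset.sum_congr rfl fun c _ => smul_sub _ _ _
    rw [hs, grav, div_eq_mul_inv]
    module
  · exact (((p a).const_smul (m a)).add ((p b).const_smul (m b))).const_smul (m a + m b)⁻¹
  · have e : cmacc m a b (γ t).1 =
        (m a + m b)⁻¹ • (m a • acc m (γ t).1 a + m b • acc m (γ t).1 b) := ?_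
    · rw [e]
      exact (((v a).const_smul (m a)).add ((v b).const_smul (m b))).const_smul (m a + m b)⁻¹
    rw [acc_a hab, acc_b hab, cmacc, grav_swap ((γ t).1 b) ((γ t).1 a)]
    have hs : ∑ c ∈ others a b, (m c / (m a + m b)) • (m a • grav ((γ t).1 c - (γ t).1 a) +
        m b • grav ((γ t).1 c - (γ t).1 b)) =
        (m a + m b)⁻¹ • (m a • ∑ c ∈ others a b, m c • grav ((γ t).1 c - (γ t).1 a) +
          m b • ∑ c ∈ others a b, m c • grav ((γ t).1 c - (γ t).1 b)) := by
      rw [Finset.smul_sum, Finset.smul_sum, ← Finset.sum_add_distrib, Finset.smul_sum]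
      refine Finset.sum_congr rfl fun c _ => ?_
      rw [div_eq_mul_inv]
      module
    rw [hs]
    module

end HDN
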