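import Mathlib
import Pool.Agent.HDN.Ext

/-!
# Derivatives of the regularised variables (project HDN)
-/

open MeasureTheory Set Filter Topology Metric
open scoped NNReal ENNReal RealInnerProductSpace

namespace HDN

variable {N d : ℕ}

/-- a curve `ρ` with `ρ' = u`, `u' = -(M/‖ρ‖³) ρ + F`: derivatives of the regularised
variables. Here `r = ‖ρ t‖`. -/
theorem kepler_deriv {ρ u : ℝ → Sp d} {t M : ℝ} {F : Sp d} (h0 : ρ t ≠ 0)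
    (h1 : HasDerivAt ρ (u t) t)
    (h2 : HasDerivAt u (-(M / ‖ρ t‖ ^ 3) • ρ t + F) t) :
    HasDerivAt (fun s => ‖ρ s‖) (⟪ρ t, u t⟫ / ‖ρ t‖) t ∧
    HasDerivAt (fun s => ‖ρ s‖ • u s)
      (‖ρ t‖⁻¹ • ((2 * ((1 / 2) * ‖u t‖ ^ 2 - M / ‖ρ t‖)) • ρ t -
        (‖u t‖ ^ 2 • ρ t - ⟪ρ t, u t⟫ • u t - (M / ‖ρ t‖) • ρ t) + ‖ρ t‖ ^ 2 • F)) t ∧
    HasDerivAt (fun s => ⟪ρ s, u s⟫)
      (‖ρ t‖⁻¹ * (2 * ((1 / 2) * ‖u t‖ ^ 2 - M / ‖ρ t‖) * ‖ρ t‖ + M + ‖ρ t‖ * ⟪ρ t, F⟫)) t ∧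
    HasDerivAt (fun s => (1 / 2) * ‖u s‖ ^ 2 - M / ‖ρ s‖)
      (‖ρ t‖⁻¹ * ⟪‖ρ t‖ • u t, F⟫) t ∧
    HasDerivAt (fun s => ‖u s‖ ^ 2 • ρ s - ⟪ρ s, u s⟫ • u s - (M / ‖ρ s‖) • ρ s)
      (‖ρ t‖⁻¹ • ((2 * ⟪‖ρ t‖ • u t, F⟫) • ρ t - ⟪ρ t, F⟫ • (‖ρ t‖ • u t) -
        ⟪ρ t, ‖ρ t‖ • u t⟫ • F)) t := by
  have hr : 0 < ‖ρ t‖ := norm_pos_iff.mpr h0
  have hr0 : ‖ρ t‖ ≠ 0 := hr.ne'
  -- the norm
  have hn : HasDerivAt (fun s => ‖ρ s‖) (⟪ρ t, u t⟫ / ‖ρ t‖) t := by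
    have h3 : HasDerivAt (fun s => ‖ρ s‖ ^ 2) (2 * ⟪ρ t, u t⟫) t := h1.norm_sq
    have h4 := h3.sqrt (by positivity)
    have h5 : (fun s => √(‖ρ s‖ ^ 2)) = fun s => ‖ρ s‖ := by
      funext s
      exact Real.sqrt_sq (norm_nonneg _)
    rw [h5, Real.sqrt_sq hr.le] at h4
    have h6 : 2 * ⟪ρ t, u t⟫ / (2 * ‖ρ t‖) = ⟪ρ t, u t⟫ / ‖ρ t‖ :=
      mul_div_mul_left _ _ two_ne_zero
    rwa [h6] at h4
  -- the quotient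
  have hq : HasDerivAt (fun s => M / ‖ρ s‖) (-(M * (⟪ρ t, u t⟫ / ‖ρ t‖)) / ‖ρ t‖ ^ 2) t := by
    have h3 := (hasDerivAt_const t M).div hn hr0
    have h4 : (0 * ‖ρ t‖ - M * (⟪ρ t, u t⟫ / ‖ρ t‖)) / ‖ρ t‖ ^ 2
        = -(M * (⟪ρ t, u t⟫ / ‖ρ t‖)) / ‖ρ t‖ ^ 2 := by
      rw [zero_mul, zero_sub]
    rw [← h4]
    exact h3
  -- inner products with the acceleration
  have iu : ⟪u t, -(M / ‖ρ t‖ ^ 3) • ρ t + F⟫ = -(M / ‖ρ t‖ ^ 3) * ⟪ρ t, u t⟫ + ⟪u t, F⟫ := by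
    rw [inner_add_right, real_inner_smul_right, real_inner_comm (ρ t) (u t)]
  have ir : ⟪ρ t, -(M / ‖ρ t‖ ^ 3) • ρ t + F⟫ = -(M / ‖ρ t‖ ^ 3) * ‖ρ t‖ ^ 2 + ⟪ρ t, F⟫ := by
    rw [inner_add_right, real_inner_smul_right, real_inner_self_eq_norm_sq]
  have hk : HasDerivAt (fun s => ⟪ρ s, u s⟫)
      (-(M / ‖ρ t‖ ^ 3) * ‖ρ t‖ ^ 2 + ⟪ρ t, F⟫ + ‖u t‖ ^ 2) t := by
    have h3 := h1.inner ℝ h2
    rw [ir, real_inner_self_eq_norm_sq] at h3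
    exact h3
  have hu2 : HasDerivAt (fun s => ‖u s‖ ^ 2)
      (2 * (-(M / ‖ρ t‖ ^ 3) * ⟪ρ t, u t⟫ + ⟪u t, F⟫)) t := by
    have h3 := h2.norm_sq
    rw [iu] at h3
    exact h3
  refine ⟨hn, ?_, ?_, ?_, ?_⟩
  · have h3 := hn.smul h2
    refine h3.congr_deriv ?_
    match_scalars <;> field_simp <;> ring
  · refine hk.congr_deriv ?_
    field_simp
    ring
  · have h3 := (hu2.const_mul (1 / 2)).sub hq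
    refine h3.congr_deriv ?_
    rw [real_inner_smul_left]
    field_simp
    ring
  · have h3 := ((hu2.smul h1).sub (hk.smul h2)).sub (hq.smul h1)
    refine h3.congr_deriv ?_
    rw [real_inner_smul_left, real_inner_smul_right]
    match_scalars <;> field_simp <;> ring

end HDN
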