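import Mathlib
import Pool.Agent.HDN.Ext
import Pool.Agent.HDN.ExtLA
import Pool.Agent.HDN.ExtLB
import Pool.Agent.HDN.ExtLC

/-!
# The lift of a physical solution solves the regularised equations (project HDN)

`pair_deriv`, `kepler_deriv` with `ρ = q_a - q_b`, `u = v_a - v_b`, `M = m_a + m_b`,
`F = tforce m a b q`, `unred_lift`; for the components `y, w` use `HasDerivAt` componentwise
(`hasDerivAt_pi`), `acc m q i = gacc m q i`.
-/

open MeasureTheory Set Filter Topology Metric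
open scoped NNReal ENNReal RealInnerProductSpace

namespace HDN

variable {N d : ℕ} {m : Fin N → ℝ} {a b : Fin N}

namespace ExtLD

theorem acc_eq_gacc (m : Fin N → ℝ) (q : Cf N d) (i : Fin N) : acc m q i = gacc m q i := by
  unfold acc gacc grav
  apply Finset.sum_congr rfl
  intro e _
  rw [smul_smul, div_eq_mul_inv]

end ExtLD

theorem elift_deriv (hm : ∀ i, 0 < m i) (hab : a ≠ b) {γ : ℝ → Ph N d} {t : ℝ}
    (hfree : Free (γ t).1) (hγ : HasDerivAt γ (nfield m (γ t)) t) :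
    HasDerivAt (fun s => elift m a b (γ s))
      (‖(γ t).1 a - (γ t).1 b‖⁻¹ • efield m hab (elift m a b (γ t))) t := by
  obtain ⟨p1, p2, p3, p4⟩ := pair_deriv hm hab hfree hγ
  have hne : (γ t).1 a - (γ t).1 b ≠ 0 := sub_ne_zero.2 (hfree a b hab)
  have hr : ‖(γ t).1 a - (γ t).1 b‖ ≠ 0 := norm_ne_zero_iff.2 hne
  obtain ⟨k1, k2, k3, k4, k5⟩ := kepler_deriv (ρ := fun s => (γ s).1 a - (γ s).1 b)
    (u := fun s => (γ s).2 a - (γ s).2 b) (M := m a + m b) (F := tforce m a b (γ t).1) hne p1 p2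
  have hq : HasDerivAt (fun s => (γ s).1) (γ t).2 t := hγ.fst
  have hv : HasDerivAt (fun s => (γ s).2) (acc m (γ t).1) t := hγ.snd
  have hqi : ∀ i, HasDerivAt (fun s => (γ s).1 i) ((γ t).2 i) t := fun i =>
    (hasDerivAt_pi.1 hq) i
  have hvi : ∀ i, HasDerivAt (fun s => (γ s).2 i) (acc m (γ t).1 i) t := fun i =>
    (hasDerivAt_pi.1 hv) i
  have hy : HasDerivAt (fun s => (fun i : Idx b => if i.1 = a then cm m a b (γ s).1
      else (γ s).1 i.1))
      (fun i : Idx b => if i.1 = a then cm m a b (γ t).2 else (γ t).2 i.1) t := by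
    rw [hasDerivAt_pi]
    intro i
    by_cases hi : i.1 = a
    · simp only [if_pos hi]; exact p3
    · simp only [if_neg hi]; exact hqi i.1
  have hw : HasDerivAt (fun s => (fun i : Idx b => if i.1 = a then cm m a b (γ s).2
      else (γ s).2 i.1))
      (fun i : Idx b => if i.1 = a then cmacc m a b (γ t).1 else gacc m (γ t).1 i.1) t := by
    rw [hasDerivAt_pi]
    intro i
    by_cases hi : i.1 = a
    · simp only [if_pos hi]; exact p4
    · simp only [if_neg hi]
      rw [← ExtLD.acc_eq_gacc]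
      exact hvi i.1
  have hall := (p1.prodMk k2).prodMk ((k1.prodMk k3).prodMk ((k4.prodMk k5).prodMk
    (hy.prodMk hw)))
  have hfun : (fun s => elift m a b (γ s)) = fun s =>
      (((γ s).1 a - (γ s).1 b, ‖(γ s).1 a - (γ s).1 b‖ • ((γ s).2 a - (γ s).2 b)),
        (‖(γ s).1 a - (γ s).1 b‖, ⟪(γ s).1 a - (γ s).1 b, (γ s).2 a - (γ s).2 b⟫),
        ((1 / 2) * ‖(γ s).2 a - (γ s).2 b‖ ^ 2 - (m a + m b) / ‖(γ s).1 a - (γ s).1 b‖,
          ‖(γ s).2 a - (γ s).2 b‖ ^ 2 • ((γ s).1 a - (γ s).1 b) -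
            ⟪(γ s).1 a - (γ s).1 b, (γ s).2 a - (γ s).2 b⟫ • ((γ s).2 a - (γ s).2 b) -
            ((m a + m b) / ‖(γ s).1 a - (γ s).1 b‖) • ((γ s).1 a - (γ s).1 b)),
        (fun i : Idx b => if i.1 = a then cm m a b (γ s).1 else (γ s).1 i.1,
          fun i : Idx b => if i.1 = a then cm m a b (γ s).2 else (γ s).2 i.1)) := rfl
  rw [hfun]
  convert! hall using 1
  have hun : unred m hab ((γ t).1 a - (γ t).1 b)
      (fun i : Idx b => if i.1 = a then cm m a b (γ t).1 else (γ t).1 i.1) = (γ t).1 :=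
    unred_lift hm hab (γ t).1
  simp only [efield, elift, hun, Prod.smul_mk]
  refine Prod.ext (Prod.ext ?_ ?_) (Prod.ext (Prod.ext ?_ ?_) (Prod.ext (Prod.ext ?_ ?_)
    (Prod.ext ?_ ?_)))
  · simp only [smul_smul, inv_mul_cancel₀ hr, one_smul]
  · rfl
  · simp only [smul_eq_mul]
    rw [div_eq_inv_mul]
  · rfl
  · rfl
  · rfl
  · simp only [smul_smul, inv_mul_cancel₀ hr, one_smul]
  · simp only [smul_smul, inv_mul_cancel₀ hr, one_smul]

end HDN
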