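import Mathlib
import Pool.Agent.HDN.Ext

/-!
# A compact set of extended states (project HDN)
-/

open MeasureTheory Set Filter Topology Metric
open scoped NNReal ENNReal RealInnerProductSpace

namespace HDN

variable {N d : ℕ} {m : Fin N → ℝ} {a b : Fin N}

theorem ExtMA_cont (hab : a ≠ b) (i : Fin N) :
    Continuous (fun z : Ext d b => unred m hab z.1.1 z.2.2.2.1 i) := by
  unfold unred
  by_cases h : i = b
  · simp only [dif_pos h]
    fun_prop
  · simp only [dif_neg h]
    by_cases h' : i = a
    · simp only [if_pos h']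
      fun_prop
    · simp only [if_neg h']
      fun_prop

theorem ecompact (hab : a ≠ b) {δ : ℝ} (hδ : 0 < δ) (R : ℝ) :
    IsCompact {z : Ext d b | ‖z‖ ≤ R ∧ ∀ i j, i ≠ j → ¬ (i = a ∧ j = b) → ¬ (i = b ∧ j = a) →
      δ ≤ ‖unred m hab z.1.1 z.2.2.2.1 i - unred m hab z.1.1 z.2.2.2.1 j‖} := by
  have hclosed : IsClosed {z : Ext d b | ‖z‖ ≤ R ∧ ∀ i j, i ≠ j → ¬ (i = a ∧ j = b) →
      ¬ (i = b ∧ j = a) →
      δ ≤ ‖unred m hab z.1.1 z.2.2.2.1 i - unred m hab z.1.1 z.2.2.2.1 j‖} := by
    apply IsClosed.and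
    · exact isClosed_le continuous_norm continuous_const
    · simp only [Set.setOf_forall]
      refine isClosed_iInter fun i => isClosed_iInter fun j => isClosed_iInter fun _ =>
        isClosed_iInter fun _ => isClosed_iInter fun _ => ?_
      exact isClosed_le continuous_const ((ExtMA_cont hab i).sub (ExtMA_cont hab j)).norm
  refine Metric.isCompact_of_isClosed_isBounded hclosed ?_
  refine (Metric.isBounded_closedBall (x := (0 : Ext d b)) (r := R)).subset ?_
  intro z hz
  rw [Metric.mem_closedBall, dist_zero_right]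
  exact hz.1

end HDN
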