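import Mathlib
import Pool.Agent.HDN.Ext

/-!
# Smoothness of the regularised field (project HDN)

`grav` is smooth away from `0`; `unred` is linear in `(ρ, y)`; everything else is polynomial.
-/

open MeasureTheory Set Filter Topology Metric
open scoped NNReal ENNReal RealInnerProductSpace

namespace HDN

variable {N d : ℕ} {m : Fin N → ℝ} {a b : Fin N}

theorem contDiffAt_grav {x : Sp d} (hx : x ≠ 0) : ContDiffAt ℝ 1 (grav : Sp d → Sp d) x := by
  unfold grav
  have h1 : ContDiffAt ℝ 1 (fun y : Sp d => ‖y‖ ^ 3) x := (contDiffAt_norm ℝ hx).pow 3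
  have h2 : ‖x‖ ^ 3 ≠ 0 := pow_ne_zero 3 (norm_ne_zero_iff.mpr hx)
  exact (h1.inv h2).smul contDiffAt_id

namespace ExtSA

theorem contDiff_unred (hab : a ≠ b) (i : Fin N) :
    ContDiff ℝ 1 (fun z : Ext d b => unred m hab z.1.1 z.2.2.2.1 i) := by
  have hy : ∀ j : Idx b, ContDiff ℝ 1 (fun z : Ext d b => z.2.2.2.1 j) := by
    intro j
    have h1 : ContDiff ℝ 1 (fun z : Ext d b => z.2.2.2.1) := by fun_prop
    exact (contDiff_pi.mp h1) j
  have hρ : ContDiff ℝ 1 (fun z : Ext d b => z.1.1) := by fun_prop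
  by_cases h : i = b
  · have e : (fun z : Ext d b => unred m hab z.1.1 z.2.2.2.1 i)
        = fun z : Ext d b => z.2.2.2.1 ⟨a, hab⟩ - (m a / (m a + m b)) • z.1.1 := by
      funext z
      unfold unred
      rw [dif_pos h]
    rw [e]
    exact (hy _).sub (hρ.const_smul _)
  · by_cases h' : i = a
    · have e : (fun z : Ext d b => unred m hab z.1.1 z.2.2.2.1 i)
          = fun z : Ext d b => z.2.2.2.1 ⟨i, h⟩ + (m b / (m a + m b)) • z.1.1 := by
        funext z
        unfold unred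
        rw [dif_neg h, if_pos h']
      rw [e]
      exact (hy _).add (hρ.const_smul _)
    · have e : (fun z : Ext d b => unred m hab z.1.1 z.2.2.2.1 i)
          = fun z : Ext d b => z.2.2.2.1 ⟨i, h⟩ := by
        funext z
        unfold unred
        rw [dif_neg h, if_neg h']
      rw [e]
      exact hy _

theorem contDiffAt_grav_unred (hab : a ≠ b) {i j : Fin N} {z : Ext d b}
    (hz : z ∈ (eset m hab : Set (Ext d b))) (hij : i ≠ j) (h1 : ¬ (i = a ∧ j = b))
    (h2 : ¬ (i = b ∧ j = a)) :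
    ContDiffAt ℝ 1 (fun z : Ext d b => grav (unred m hab z.1.1 z.2.2.2.1 i -
      unred m hab z.1.1 z.2.2.2.1 j)) z := by
  have h3 : unred m hab z.1.1 z.2.2.2.1 i - unred m hab z.1.1 z.2.2.2.1 j ≠ 0 :=
    sub_ne_zero.mpr (hz i j hij h1 h2)
  have h4 : ContDiffAt ℝ 1 (fun z : Ext d b => unred m hab z.1.1 z.2.2.2.1 i -
      unred m hab z.1.1 z.2.2.2.1 j) z :=
    ((contDiff_unred hab i).sub (contDiff_unred hab j)).contDiffAt
  exact ContDiffAt.comp (g := (grav : Sp d → Sp d)) z (contDiffAt_grav h3) h4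

theorem contDiffAt_tforce (hab : a ≠ b) {z : Ext d b} (hz : z ∈ (eset m hab : Set (Ext d b))) :
    ContDiffAt ℝ 1 (fun z : Ext d b => tforce m a b (unred m hab z.1.1 z.2.2.2.1)) z := by
  unfold tforce
  refine ContDiffAt.sum fun c hc => ?_
  have hcb : c ≠ b := (Finset.mem_erase.mp hc).1
  have hca : c ≠ a := (Finset.mem_erase.mp (Finset.mem_erase.mp hc).2).1
  refine ContDiffAt.const_smul (m c) (ContDiffAt.sub ?_ ?_)
  · exact contDiffAt_grav_unred hab hz hca (fun h => hca h.1) (fun h => hcb h.1)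
  · exact contDiffAt_grav_unred hab hz hcb (fun h => hca h.1) (fun h => hcb h.1)

theorem contDiffAt_cmacc (hab : a ≠ b) {z : Ext d b} (hz : z ∈ (eset m hab : Set (Ext d b))) :
    ContDiffAt ℝ 1 (fun z : Ext d b => cmacc m a b (unred m hab z.1.1 z.2.2.2.1)) z := by
  unfold cmacc
  refine ContDiffAt.sum fun c hc => ?_
  have hcb : c ≠ b := (Finset.mem_erase.mp hc).1
  have hca : c ≠ a := (Finset.mem_erase.mp (Finset.mem_erase.mp hc).2).1
  refine ContDiffAt.const_smul (m c / (m a + m b)) (ContDiffAt.add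
    (ContDiffAt.const_smul (m a) ?_) (ContDiffAt.const_smul (m b) ?_))
  · exact contDiffAt_grav_unred hab hz hca (fun h => hca h.1) (fun h => hcb h.1)
  · exact contDiffAt_grav_unred hab hz hcb (fun h => hca h.1) (fun h => hcb h.1)

theorem contDiffAt_gacc (hab : a ≠ b) {z : Ext d b} (hz : z ∈ (eset m hab : Set (Ext d b)))
    {i : Fin N} (hia : i ≠ a) (hib : i ≠ b) :
    ContDiffAt ℝ 1 (fun z : Ext d b => gacc m (unred m hab z.1.1 z.2.2.2.1) i) z := by
  unfold gacc
  refine ContDiffAt.sum fun e he => ?_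
  have hei : e ≠ i := (Finset.mem_erase.mp he).1
  refine ContDiffAt.const_smul (m e) ?_
  exact contDiffAt_grav_unred hab hz hei (fun h => hib h.2) (fun h => hia h.2)

end ExtSA

theorem isOpen_eset (hab : a ≠ b) : IsOpen (eset m hab : Set (Ext d b)) := by
  have h : (eset m hab : Set (Ext d b)) = ⋂ i, ⋂ j, {z | i ≠ j → ¬ (i = a ∧ j = b) →
      ¬ (i = b ∧ j = a) → unred m hab z.1.1 z.2.2.2.1 i ≠ unred m hab z.1.1 z.2.2.2.1 j} := by
    ext z
    simp only [eset, mem_ofPred_eq, mem_iInter]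
  rw [h]
  refine isOpen_iInter_of_finite fun i => isOpen_iInter_of_finite fun j => ?_
  by_cases h1 : i ≠ j
  · by_cases h2 : i = a ∧ j = b
    · have : {z : Ext d b | i ≠ j → ¬ (i = a ∧ j = b) →
          ¬ (i = b ∧ j = a) → unred m hab z.1.1 z.2.2.2.1 i ≠ unred m hab z.1.1 z.2.2.2.1 j}
          = univ := eq_univ_of_forall fun z _ h3 => absurd h2 h3
      rw [this]
      exact isOpen_univ
    · by_cases h3 : i = b ∧ j = a
      · have : {z : Ext d b | i ≠ j → ¬ (i = a ∧ j = b) →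
            ¬ (i = b ∧ j = a) → unred m hab z.1.1 z.2.2.2.1 i ≠ unred m hab z.1.1 z.2.2.2.1 j}
            = univ := eq_univ_of_forall fun z _ _ h4 => absurd h3 h4
        rw [this]
        exact isOpen_univ
      · have : {z : Ext d b | i ≠ j → ¬ (i = a ∧ j = b) →
            ¬ (i = b ∧ j = a) → unred m hab z.1.1 z.2.2.2.1 i ≠ unred m hab z.1.1 z.2.2.2.1 j}
            = {z | unred m hab z.1.1 z.2.2.2.1 i ≠ unred m hab z.1.1 z.2.2.2.1 j} := by
          ext z
          exact ⟨fun h4 => h4 h1 h2 h3, fun h4 _ _ _ => h4⟩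
        rw [this]
        exact isOpen_ne_fun (ExtSA.contDiff_unred hab i).continuous
          (ExtSA.contDiff_unred hab j).continuous
  · have : {z : Ext d b | i ≠ j → ¬ (i = a ∧ j = b) →
        ¬ (i = b ∧ j = a) → unred m hab z.1.1 z.2.2.2.1 i ≠ unred m hab z.1.1 z.2.2.2.1 j}
        = univ := eq_univ_of_forall fun z h3 => absurd h3 h1
    rw [this]
    exact isOpen_univ

theorem contDiffOn_efield (hab : a ≠ b) :
    ContDiffOn ℝ 1 (efield m hab : Ext d b → Ext d b) (eset m hab) := by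
  intro z hz
  apply ContDiffAt.contDiffWithinAt
  have hρ : ContDiffAt ℝ 1 (fun z : Ext d b => z.1.1) z := by fun_prop
  have hη : ContDiffAt ℝ 1 (fun z : Ext d b => z.1.2) z := by fun_prop
  have hr : ContDiffAt ℝ 1 (fun z : Ext d b => z.2.1.1) z := by fun_prop
  have hκ : ContDiffAt ℝ 1 (fun z : Ext d b => z.2.1.2) z := by fun_prop
  have hh : ContDiffAt ℝ 1 (fun z : Ext d b => z.2.2.1.1) z := by fun_prop
  have hA : ContDiffAt ℝ 1 (fun z : Ext d b => z.2.2.1.2) z := by fun_prop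
  have hw : ContDiffAt ℝ 1 (fun z : Ext d b => z.2.2.2.2) z := by fun_prop
  have hF := ExtSA.contDiffAt_tforce (m := m) hab hz
  unfold efield
  refine ((hη.prodMk ?_).prodMk ((hκ.prodMk ?_).prodMk (((hη.inner ℝ hF).prodMk ?_).prodMk
    ((hr.smul hw).prodMk ?_))))
  · exact (((contDiffAt_const.mul hh).smul hρ).sub hA).add ((hr.pow 2).smul hF)
  · exact ((((contDiffAt_const.mul hh).mul hr).add contDiffAt_const).add
      (hr.mul (hρ.inner ℝ hF)))
  · exact ((((contDiffAt_const.mul (hη.inner ℝ hF)).smul hρ).sub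
      ((hρ.inner ℝ hF).smul hη)).sub ((hρ.inner ℝ hη).smul hF))
  · refine hr.smul (contDiffAt_pi.mpr fun i => ?_)
    by_cases hi : i.1 = a
    · simp only [hi, if_true]
      exact ExtSA.contDiffAt_cmacc hab hz
    · simp only [hi, if_false]
      exact ExtSA.contDiffAt_gacc hab hz hi i.2

end HDN
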