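import Mathlib
import Pool.Agent.HDN.Ext
import Pool.Agent.HDN.ExtLA
import Pool.Agent.HDN.ExtSA

/-!
# Bounds for the lift near a binary collision (project HDN)

Write `r = ‖q_a - q_b‖`, `u = v_a - v_b`, `r ‖u‖² ≤ C`. Bounds: `‖ρ‖ = r ≤ 2 C`,
`‖η‖² = r² ‖u‖² ≤ r C → 0`, `|κ| ≤ r ‖u‖ → 0`, `h` by `BinEnd`, `‖A‖ ≤ 2 r ‖u‖² + M`, `y, w` by
`BinEnd` (`cm m a b q` is a convex combination of `q_a` and `q_b`).
`(efield ..).2.1.2 = 2 h r + M + r ⟪ρ, F⟫ ≥ M / 2` when `r` is small, `F = tforce m a b q` is bounded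
(`‖grav x‖ ≤ 1/δ²` if `‖x‖ ≥ δ`; `unred` of the lift is `q`, `unred_lift`).
-/

open MeasureTheory Set Filter Topology Metric
open scoped NNReal ENNReal RealInnerProductSpace

namespace HDN

variable {N d : ℕ} {m : Fin N → ℝ} {a b : Fin N}

namespace ExtMB

theorem norm_grav_le {x : Sp d} {δ : ℝ} (hδ : 0 < δ) (hx : δ ≤ ‖x‖) : ‖grav x‖ ≤ (δ ^ 2)⁻¹ := by
  have hx0 : 0 < ‖x‖ := lt_of_lt_of_le hδ hx
  unfold grav
  rw [norm_smul, norm_inv, norm_pow, norm_norm]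
  have e : (‖x‖ ^ 3)⁻¹ * ‖x‖ = (‖x‖ ^ 2)⁻¹ := by
    field_simp
  rw [e]
  exact inv_anti₀ (by positivity) (pow_le_pow_left₀ hδ.le hx 2)

theorem norm_tforce_le (hm : ∀ i, 0 < m i) {q : Cf N d} {δ : ℝ} (hδ : 0 < δ)
    (hq : ∀ c ∈ others a b, δ ≤ ‖q c - q a‖ ∧ δ ≤ ‖q c - q b‖) :
    ‖tforce m a b q‖ ≤ ∑ c ∈ others a b, m c * (2 * (δ ^ 2)⁻¹) := by
  unfold tforce
  refine (norm_sum_le _ _).trans (Finset.sum_le_sum (fun c hc => ?_))
  rw [norm_smul, Real.norm_of_nonneg (hm c).le]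
  refine mul_le_mul_of_nonneg_left ?_ (hm c).le
  have h1 := norm_grav_le hδ (hq c hc).1
  have h2 := norm_grav_le hδ (hq c hc).2
  calc ‖grav (q c - q a) - grav (q c - q b)‖ ≤ ‖grav (q c - q a)‖ + ‖grav (q c - q b)‖ :=
        norm_sub_le _ _
    _ ≤ 2 * (δ ^ 2)⁻¹ := by linarith

theorem norm_cm_le (hm : ∀ i, 0 < m i) {q : Cf N d} {C : ℝ} (ha : ‖q a‖ ≤ C) (hb : ‖q b‖ ≤ C) :
    ‖cm m a b q‖ ≤ C := by
  have hM : 0 < m a + m b := add_pos (hm a) (hm b)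
  unfold cm
  rw [norm_smul, norm_inv, Real.norm_of_nonneg hM.le]
  have h1 : ‖m a • q a + m b • q b‖ ≤ (m a + m b) * C := by
    refine (norm_add_le _ _).trans ?_
    rw [norm_smul, norm_smul, Real.norm_of_nonneg (hm a).le, Real.norm_of_nonneg (hm b).le]
    have h2 := mul_le_mul_of_nonneg_left ha (hm a).le
    have h3 := mul_le_mul_of_nonneg_left hb (hm b).le
    linarith
  calc (m a + m b)⁻¹ * ‖m a • q a + m b • q b‖ ≤ (m a + m b)⁻¹ * ((m a + m b) * C) :=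
        mul_le_mul_of_nonneg_left h1 (inv_nonneg.mpr hM.le)
    _ = C := by field_simp

theorem mem_others {c : Fin N} : c ∈ others a b ↔ c ≠ a ∧ c ≠ b := by
  unfold others
  simp only [Finset.mem_erase, Finset.mem_univ, and_true]
  exact and_comm

/-- the first two bounds -/
theorem eta_bound {r n C : ℝ} (hr : 0 ≤ r) (hn : 0 ≤ n) (h : r * n ^ 2 ≤ C) :
    r * n ≤ √(r * C) := by
  apply Real.le_sqrt_of_sq_le
  have : (r * n) ^ 2 = r * (r * n ^ 2) := by ring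
  rw [this]
  exact mul_le_mul_of_nonneg_left h hr

end ExtMB

open ExtMB in
theorem elift_mem (hm : ∀ i, 0 < m i) (hab : a ≠ b) {γ : ℝ → Ph N d} {T : ℝ} (hT : 0 < T)
    (hγ : SolOn (nfield m) (FreeSet N d) γ (Ico 0 T)) (hB : BinEnd m a b γ T) :
    ∃ t₀ ∈ Ico 0 T, ∃ δ > 0, ∃ R, (∀ t ∈ Ico t₀ T, ‖elift m a b (γ t)‖ ≤ R ∧
      ∀ i j, i ≠ j → ¬ (i = a ∧ j = b) → ¬ (i = b ∧ j = a) →
        δ ≤ ‖(γ t).1 i - (γ t).1 j‖) ∧
      (∀ t ∈ Ico t₀ T, ((m a + m b) / 2) / ‖(γ t).1 a - (γ t).1 b‖ ≤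
        ‖(γ t).1 a - (γ t).1 b‖⁻¹ * (efield m hab (elift m a b (γ t))).2.1.2 ∧
        |(elift m a b (γ t)).2.1.2| ≤ R) ∧
      Tendsto (fun t => (elift m a b (γ t)).1) (𝓝[<] T) (𝓝 0) ∧
      Tendsto (fun t => (elift m a b (γ t)).2.1) (𝓝[<] T) (𝓝 0) := by
  obtain ⟨t₀, ht₀, δ, hδ, C, hbd, hlim⟩ := hB
  have hM : 0 < m a + m b := add_pos (hm a) (hm b)
  have hC : 0 ≤ C := (abs_nonneg _).trans (hbd t₀ (left_mem_Ico.mpr ht₀.2)).2.2.2.2.2
  set K : ℝ := ∑ c ∈ others a b, m c * (2 * (δ ^ 2)⁻¹) with hK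
  have hK0 : 0 ≤ K := Finset.sum_nonneg (fun c _ => mul_nonneg (hm c).le (by positivity))
  set ε : ℝ := min 1 ((m a + m b) / (2 * (2 * C + K + 1))) with hε
  have hε0 : 0 < ε := lt_min one_pos (div_pos hM (by positivity))
  have hev : ∀ᶠ t in 𝓝[<] T, ‖(γ t).1 a - (γ t).1 b‖ < ε := hlim.eventually_lt_const hε0
  obtain ⟨l, hl, hsub⟩ := (mem_nhdsLT_iff_exists_mem_Ico_Ioo_subset ht₀.2).1 hev
  have hl1 : l < (l + T) / 2 := by linarith [hl.2]
  have hl2 : (l + T) / 2 < T := by linarith [hl.2]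
  have hsmall : ∀ t ∈ Ico ((l + T) / 2) T, ‖(γ t).1 a - (γ t).1 b‖ < ε := fun t ht =>
    hsub ⟨lt_of_lt_of_le hl1 ht.1, ht.2⟩
  have hin : ∀ t ∈ Ico ((l + T) / 2) T, t ∈ Ico t₀ T := fun t ht =>
    ⟨(hl.1.trans hl1.le).trans ht.1, ht.2⟩
  have hin0 : ∀ t ∈ Ico t₀ T, t ∈ Ico (0 : ℝ) T := fun t ht => ⟨ht₀.1.trans ht.1, ht.2⟩
  have hpos : ∀ t ∈ Ico t₀ T, 0 < ‖(γ t).1 a - (γ t).1 b‖ := by
    intro t ht
    have h1 : Free (γ t).1 := (hγ t (hin0 t ht)).1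
    exact norm_pos_iff.mpr (sub_ne_zero.mpr (h1 a b hab))
  -- bound for eta
  have heta : ∀ t ∈ Ico t₀ T, ‖(γ t).1 a - (γ t).1 b‖ * ‖(γ t).2 a - (γ t).2 b‖ ≤
      √(‖(γ t).1 a - (γ t).1 b‖ * C) := fun t ht =>
    eta_bound (norm_nonneg _) (norm_nonneg _) (hbd t ht).2.2.2.2.1
  have hkap : ∀ t ∈ Ico t₀ T, |⟪(γ t).1 a - (γ t).1 b, (γ t).2 a - (γ t).2 b⟫| ≤
      √(‖(γ t).1 a - (γ t).1 b‖ * C) := fun t ht =>
    (abs_real_inner_le_norm _ _).trans (heta t ht)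
  have hsq : ∀ t ∈ Ico ((l + T) / 2) T, √(‖(γ t).1 a - (γ t).1 b‖ * C) ≤ 1 + C := by
    intro t ht
    have h1 : ‖(γ t).1 a - (γ t).1 b‖ ≤ 1 := (hsmall t ht).le.trans (min_le_left _ _)
    have h2 : ‖(γ t).1 a - (γ t).1 b‖ * C ≤ C := by nlinarith
    calc √(‖(γ t).1 a - (γ t).1 b‖ * C) ≤ √((1 + C) ^ 2) :=
          Real.sqrt_le_sqrt (by nlinarith)
      _ = 1 + C := Real.sqrt_sq (by linarith)
  have hlim2 : Tendsto (fun t => √(‖(γ t).1 a - (γ t).1 b‖ * C)) (𝓝[<] T) (𝓝 0) := by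
    have h1 := (hlim.mul_const C).sqrt
    simpa using h1
  have hmem : ∀ᶠ t in 𝓝[<] T, t ∈ Ico t₀ T := Ico_mem_nhdsLT ht₀.2
  refine ⟨(l + T) / 2, ⟨?_, hl2⟩, δ, hδ, 2 * C + (m a + m b) + 1, ?_, ?_, ?_, ?_⟩
  · linarith [ht₀.1, hl.1]
  · intro t ht
    have ht' := hin t ht
    obtain ⟨b1, b2, b3, b4, b5, b6⟩ := hbd t ht'
    refine ⟨?_, b1⟩
    have hr := hpos t ht'
    have hr1 : ‖(γ t).1 a - (γ t).1 b‖ ≤ 1 := (hsmall t ht).le.trans (min_le_left _ _)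
    have hη : ‖(γ t).1 a - (γ t).1 b‖ * ‖(γ t).2 a - (γ t).2 b‖ ≤ 1 + C :=
      (heta t ht').trans (hsq t ht)
    have hκ : |⟪(γ t).1 a - (γ t).1 b, (γ t).2 a - (γ t).2 b⟫| ≤ 1 + C :=
      (hkap t ht').trans (hsq t ht)
    have hR0 : 0 ≤ 2 * C + (m a + m b) + 1 := by positivity
    unfold elift
    simp only [Prod.norm_def]
    refine max_le (max_le ?_ ?_) (max_le (max_le ?_ ?_) (max_le (max_le ?_ ?_) (max_le ?_ ?_)))
    · linarith
    · rw [norm_smul, norm_norm]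
      linarith
    · rw [norm_norm]
      linarith
    · rw [Real.norm_eq_abs]
      linarith
    · rw [Real.norm_eq_abs]
      linarith
    · refine (norm_sub_le _ _).trans ?_
      have g1 : ‖‖(γ t).2 a - (γ t).2 b‖ ^ 2 • ((γ t).1 a - (γ t).1 b) -
          ⟪(γ t).1 a - (γ t).1 b, (γ t).2 a - (γ t).2 b⟫ • ((γ t).2 a - (γ t).2 b)‖ ≤ 2 * C := by
        refine (norm_sub_le _ _).trans ?_
        rw [norm_smul, norm_smul, norm_pow, norm_norm, Real.norm_eq_abs]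
        have g2 : |⟪(γ t).1 a - (γ t).1 b, (γ t).2 a - (γ t).2 b⟫| * ‖(γ t).2 a - (γ t).2 b‖ ≤
            (‖(γ t).1 a - (γ t).1 b‖ * ‖(γ t).2 a - (γ t).2 b‖) * ‖(γ t).2 a - (γ t).2 b‖ :=
          mul_le_mul_of_nonneg_right (abs_real_inner_le_norm _ _) (norm_nonneg _)
        nlinarith
      have g3 : ‖((m a + m b) / ‖(γ t).1 a - (γ t).1 b‖) • ((γ t).1 a - (γ t).1 b)‖ =
          m a + m b := by
        rw [norm_smul, norm_div, norm_norm, Real.norm_of_nonneg hM.le]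
        field_simp
      rw [g3]
      linarith
    · refine (pi_norm_le_iff_of_nonneg hR0).mpr (fun i => ?_)
      split_ifs with hi
      · exact (norm_cm_le hm (b2 a) (b2 b)).trans (by linarith)
      · exact (b2 i.1).trans (by linarith)
    · refine (pi_norm_le_iff_of_nonneg hR0).mpr (fun i => ?_)
      split_ifs with hi
      · exact b4.trans (by linarith)
      · exact (b3 i.1 (mem_others.mpr ⟨hi, i.2⟩)).trans (by linarith)
  · intro t ht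
    have ht' := hin t ht
    obtain ⟨b1, b2, b3, b4, b5, b6⟩ := hbd t ht'
    have hr := hpos t ht'
    have hr1 : ‖(γ t).1 a - (γ t).1 b‖ ≤ 1 := (hsmall t ht).le.trans (min_le_left _ _)
    have hr2 : ‖(γ t).1 a - (γ t).1 b‖ ≤ (m a + m b) / (2 * (2 * C + K + 1)) :=
      (hsmall t ht).le.trans (min_le_right _ _)
    refine ⟨?_, ?_⟩
    · have hF : ‖tforce m a b (γ t).1‖ ≤ K := by
        refine norm_tforce_le hm hδ (fun c hc => ?_)
        rw [mem_others] at hc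
        exact ⟨b1 c a hc.1 (fun h => hc.1 h.1) (fun h => hc.2 h.1),
          b1 c b hc.2 (fun h => hc.1 h.1) (fun h => hc.2 h.1)⟩
      have hq : unred m hab (elift m a b (γ t)).1.1 (elift m a b (γ t)).2.2.2.1 = (γ t).1 :=
        unred_lift hm hab (γ t).1
      have hval : (efield m hab (elift m a b (γ t))).2.1.2 =
          2 * ((1 / 2) * ‖(γ t).2 a - (γ t).2 b‖ ^ 2 -
            (m a + m b) / ‖(γ t).1 a - (γ t).1 b‖) * ‖(γ t).1 a - (γ t).1 b‖ + (m a + m b) +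
            ‖(γ t).1 a - (γ t).1 b‖ * ⟪(γ t).1 a - (γ t).1 b, tforce m a b (γ t).1⟫ := by
        unfold efield
        simp only
        rw [hq]
        rfl
      rw [hval]
      set r := ‖(γ t).1 a - (γ t).1 b‖ with hrdef
      set hh := (1 / 2) * ‖(γ t).2 a - (γ t).2 b‖ ^ 2 - (m a + m b) / r with hhdef
      have hin1 : |⟪(γ t).1 a - (γ t).1 b, tforce m a b (γ t).1⟫| ≤ r * K :=
        (abs_real_inner_le_norm _ _).trans (mul_le_mul_of_nonneg_left hF (norm_nonneg _))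
      have h1 : -(2 * C * r) ≤ 2 * hh * r := by
        have := (abs_le.mp b6).1
        nlinarith
      have h2 : -(r * K) ≤ r * ⟪(γ t).1 a - (γ t).1 b, tforce m a b (γ t).1⟫ := by
        have h3 := (abs_le.mp hin1).1
        have h4 : r * -(r * K) ≤ r * ⟪(γ t).1 a - (γ t).1 b, tforce m a b (γ t).1⟫ :=
          mul_le_mul_of_nonneg_left h3 hr.le
        have h5 : r * (r * K) ≤ 1 * (r * K) := mul_le_mul_of_nonneg_right hr1 (by positivity)
        linarith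
      have h6 : (2 * C + K + 1) * r ≤ (m a + m b) / 2 := by
        have h7 : 0 < 2 * C + K + 1 := by positivity
        calc (2 * C + K + 1) * r ≤ (2 * C + K + 1) * ((m a + m b) / (2 * (2 * C + K + 1))) :=
              mul_le_mul_of_nonneg_left hr2 h7.le
          _ = (m a + m b) / 2 := by field_simp
      rw [div_eq_inv_mul]
      refine mul_le_mul_of_nonneg_left ?_ (inv_nonneg.mpr hr.le)
      nlinarith
    · have hκ : |⟪(γ t).1 a - (γ t).1 b, (γ t).2 a - (γ t).2 b⟫| ≤ 1 + C :=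
        (hkap t ht').trans (hsq t ht)
      show |⟪(γ t).1 a - (γ t).1 b, (γ t).2 a - (γ t).2 b⟫| ≤ _
      linarith
  · rw [tendsto_zero_iff_norm_tendsto_zero]
    have h1 : Tendsto (fun t => max ‖(γ t).1 a - (γ t).1 b‖ (√(‖(γ t).1 a - (γ t).1 b‖ * C)))
        (𝓝[<] T) (𝓝 0) := by
      have := hlim.max hlim2
      simpa using this
    refine squeeze_zero' (Eventually.of_forall (fun t => norm_nonneg _)) ?_ h1
    filter_upwards [hmem] with t ht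
    rw [Prod.norm_def]
    refine max_le_max le_rfl ?_
    show ‖‖(γ t).1 a - (γ t).1 b‖ • ((γ t).2 a - (γ t).2 b)‖ ≤ _
    rw [norm_smul, norm_norm]
    exact heta t ht
  · rw [tendsto_zero_iff_norm_tendsto_zero]
    have h1 : Tendsto (fun t => max ‖(γ t).1 a - (γ t).1 b‖ (√(‖(γ t).1 a - (γ t).1 b‖ * C)))
        (𝓝[<] T) (𝓝 0) := by
      have := hlim.max hlim2
      simpa using this
    refine squeeze_zero' (Eventually.of_forall (fun t => norm_nonneg _)) ?_ h1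
    filter_upwards [hmem] with t ht
    rw [Prod.norm_def]
    refine max_le_max ?_ ?_
    · show ‖‖(γ t).1 a - (γ t).1 b‖‖ ≤ _
      rw [norm_norm]
    · show ‖⟪(γ t).1 a - (γ t).1 b, (γ t).2 a - (γ t).2 b⟫‖ ≤ _
      rw [Real.norm_eq_abs]
      exact hkap t ht

end HDN
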