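import Mathlib
import Pool.Agent.HDN.Defs
import Pool.Agent.HDN.FlowC

/-!
# Change of time (project HDN)

A curve `z` on `[t₁, T)` in the compact set `K` with `z' = r⁻¹ f(z)`, where `∫ r⁻¹ < ∞`
(guaranteed by the auxiliary function `κ`, whose derivative is `≥ c / r` and which is bounded),
is a reparametrised solution of `ζ' = f(ζ)` on a compact interval `[0, s]`, and `z → ζ s`.

Proof plan. `F : Flow f K`, `σ t = ∫ τ in t₁..t, (r τ)⁻¹` (strictly increasing, derivative `r⁻¹`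
on `(t₁, T)`, right derivative at `t₁`), `ζ s = F.Φ s (z t₁)`. On `[t₁, t₂] ⊆ [t₁, T)` both `z` and
`t ↦ ζ (σ t)` solve `y' = (r t)⁻¹ • F.g y`, which is Lipschitz in `y` with constant
`F.L * max r⁻¹`; so they agree (`ODE_solution_unique_of_mem_Icc_right`).
`κ - c σ` is nondecreasing, so `σ ≤ 2 B / c` on `[t₁, T)`; let `s = sup σ`. `σ → s` as `t → T-`,
so `z t = ζ (σ t) → ζ s`. Every `s' ∈ [0, s)` is `σ t` for some `t ∈ [t₁, T)` (intermediate value),
so `ζ s' ∈ K`, and `ζ s ∈ K` because `K` is closed; on `K` the fields `F.g` and `f` agree.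
-/

open MeasureTheory Set Filter Topology Metric
open scoped NNReal ENNReal RealInnerProductSpace

namespace HDN

variable {V : Type*} [NormedAddCommGroup V] [NormedSpace ℝ V] [FiniteDimensional ℝ V]

theorem time_change {f : V → V} {Ω K : Set V} (hΩ : IsOpen Ω) (hf : ContDiffOn ℝ 1 f Ω)
    (hK : IsCompact K) (hKΩ : K ⊆ Ω) {z : ℝ → V} {r κ κ' : ℝ → ℝ} {t₁ T c B : ℝ} (hT : t₁ < T)
    (hc : 0 < c) (hz : ∀ t ∈ Ico t₁ T, z t ∈ K ∧ HasDerivAt z ((r t)⁻¹ • f (z t)) t)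
    (hr : ∀ t ∈ Ico t₁ T, 0 < r t ∧ ContinuousAt r t)
    (hκ : ∀ t ∈ Ico t₁ T, HasDerivAt κ (κ' t) t ∧ c / r t ≤ κ' t ∧ |κ t| ≤ B) :
    ∃ s ≥ 0, ∃ ζ : ℝ → V, ζ 0 = z t₁ ∧ SolOn f Ω ζ (Icc 0 s) ∧ Tendsto z (𝓝[<] T) (𝓝 (ζ s)) := by
  obtain ⟨F⟩ := exists_flow hΩ hf hK hKΩ
  -- the modified integrand
  set ρ : ℝ → ℝ := fun t => (r (max t t₁))⁻¹ with hρdef
  have hmem : ∀ t, t < T → max t t₁ ∈ Ico t₁ T := fun t ht => ⟨le_max_right _ _, max_lt ht hT⟩
  have hρeq : ∀ t ∈ Ico t₁ T, ρ t = (r t)⁻¹ := by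
    intro t ht
    simp only [hρdef, max_eq_left ht.1]
  have hρpos : ∀ t, t < T → 0 < ρ t := fun t ht => inv_pos.mpr (hr _ (hmem t ht)).1
  have hρcAt : ∀ t, t < T → ContinuousAt ρ t := by
    intro t ht
    have h1 := hr _ (hmem t ht)
    have h2 : ContinuousAt (fun t : ℝ => max t t₁) t :=
      (continuous_id.max continuous_const).continuousAt
    have h3 : ContinuousAt (fun t : ℝ => r (max t t₁)) t :=
      ContinuousAt.comp (f := fun t : ℝ => max t t₁) (g := r) h1.2 h2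
    exact h3.inv₀ h1.1.ne'
  have hρc : ContinuousOn ρ (Iio T) := fun t ht => (hρcAt t ht).continuousWithinAt
  set σ : ℝ → ℝ := fun t => ∫ τ in t₁..t, ρ τ with hσdef
  have hσ0 : σ t₁ = 0 := by simp [hσdef]
  have hσd : ∀ t, t < T → HasDerivAt σ (ρ t) t := by
    intro t ht
    refine intervalIntegral.integral_hasDerivAt_right ?_ ?_ (hρcAt t ht)
    · refine ContinuousOn.intervalIntegrable (hρc.mono ?_)
      intro u hu
      rw [Set.mem_uIcc] at hu
      rcases hu with h | h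
      · exact lt_of_le_of_lt h.2 ht
      · exact lt_of_le_of_lt h.2 hT
    · exact hρc.stronglyMeasurableAtFilter isOpen_Iio t ht
  have hσc : ∀ t, t < T → ContinuousAt σ t := fun t ht => (hσd t ht).continuousAt
  have hσmono : MonotoneOn σ (Ico t₁ T) := by
    refine monotoneOn_of_deriv_nonneg (convex_Ico _ _)
      (fun t ht => (hσc t ht.2).continuousWithinAt) ?_ ?_
    · intro t ht
      rw [interior_Ico] at ht
      exact (hσd t ht.2).differentiableAt.differentiableWithinAt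
    · intro t ht
      rw [interior_Ico] at ht
      rw [(hσd t ht.2).deriv]
      exact (hρpos t ht.2).le
  have ht₁ : t₁ ∈ Ico t₁ T := ⟨le_refl _, hT⟩
  have hσnn : ∀ t ∈ Ico t₁ T, 0 ≤ σ t := by
    intro t ht
    rw [← hσ0]
    exact hσmono ht₁ ht ht.1
  have hσbd : ∀ t ∈ Ico t₁ T, σ t ≤ 2 * B / c := by
    have hm : MonotoneOn (fun t => κ t - c * σ t) (Ico t₁ T) := by
      refine monotoneOn_of_deriv_nonneg (convex_Ico _ _) ?_ ?_ ?_
      · intro t ht
        exact ((hκ t ht).1.sub ((hσd t ht.2).const_mul c)).continuousAt.continuousWithinAt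
      · intro t ht
        rw [interior_Ico] at ht
        have ht' : t ∈ Ico t₁ T := ⟨ht.1.le, ht.2⟩
        exact ((hκ t ht').1.sub
          ((hσd t ht.2).const_mul c)).differentiableAt.differentiableWithinAt
      · intro t ht
        rw [interior_Ico] at ht
        have ht' : t ∈ Ico t₁ T := ⟨ht.1.le, ht.2⟩
        have h1 := ((hκ t ht').1.sub ((hσd t ht.2).const_mul c)).deriv
        have h2 : deriv (fun t => κ t - c * σ t) t = κ' t - c * ρ t := h1
        rw [h2, hρeq t ht', ← div_eq_mul_inv]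
        linarith [(hκ t ht').2.1]
    intro t ht
    have h1 := hm ht₁ ht ht.1
    simp only [hσ0, mul_zero, sub_zero] at h1
    have h2 := abs_le.mp (hκ t₁ ht₁).2.2
    have h3 := abs_le.mp (hκ t ht).2.2
    rw [le_div_iff₀ hc]
    nlinarith
  -- the reparametrised flow line
  set ζ : ℝ → V := fun s => F.Φ s (z t₁) with hζdef
  have hζd : ∀ s, HasDerivAt ζ (F.g (ζ s)) s := fun s => F.deriv (z t₁) s
  have hζc : Continuous ζ := continuous_iff_continuousAt.mpr fun s => (hζd s).continuousAt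
  have hzζ : ∀ t ∈ Ico t₁ T, z t = ζ (σ t) := by
    intro t₂ ht₂
    -- bound for ρ on [t₁, t₂]
    obtain ⟨M, hM⟩ : ∃ M : ℝ, ∀ t ∈ Icc t₁ t₂, ρ t ≤ M := by
      have h1 : IsCompact (ρ '' Icc t₁ t₂) := isCompact_Icc.image_of_continuousOn
        (hρc.mono fun t ht => lt_of_le_of_lt ht.2 ht₂.2)
      obtain ⟨M, hM⟩ := h1.bddAbove
      exact ⟨M, fun t ht => hM ⟨t, ht, rfl⟩⟩
    have hsub : ∀ t ∈ Ico t₁ t₂, t ∈ Ico t₁ T := fun t ht => ⟨ht.1, ht.2.trans ht₂.2⟩
    have key := ODE_solution_unique_of_mem_Icc_right (E := V) (v := fun t y => ρ t • F.g y)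
      (s := fun _ => univ) (K := Real.toNNReal M * F.L) (f := z) (g := fun t => ζ (σ t))
      (a := t₁) (b := t₂) ?_ ?_ ?_ ?_ ?_ ?_ ?_ ?_
    · exact key ⟨ht₂.1, le_refl _⟩
    · intro t ht
      have h1 : ρ t ≤ M := hM t ⟨ht.1, ht.2.le⟩
      have h0 : 0 < ρ t := hρpos t (hsub t ht).2
      have h2 : LipschitzWith (Real.toNNReal M * F.L) (fun y => ρ t • F.g y) := by
        refine LipschitzWith.of_dist_le_mul fun x y => ?_
        rw [dist_smul₀, NNReal.coe_mul, Real.coe_toNNReal _ (h0.le.trans h1),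
          Real.norm_of_nonneg h0.le, mul_assoc]
        exact mul_le_mul h1 (F.lip.dist_le_mul x y) dist_nonneg (h0.le.trans h1)
      exact h2.lipschitzOnWith
    · intro t ht
      exact ((hz t ⟨ht.1, lt_of_le_of_lt ht.2 ht₂.2⟩).2).continuousAt.continuousWithinAt
    · intro t ht
      have h1 := hz t (hsub t ht)
      have h2 : F.g (z t) = f (z t) := F.eqOn h1.1
      have h3 : ρ t • F.g (z t) = (r t)⁻¹ • f (z t) := by
        rw [h2, hρeq t (hsub t ht)]
      rw [h3]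
      exact h1.2.hasDerivWithinAt
    · intro t _
      exact mem_univ _
    · intro t ht
      exact (hζc.continuousAt.comp
        (hσc t (lt_of_le_of_lt ht.2 ht₂.2))).continuousWithinAt
    · intro t ht
      have h1 := (hζd (σ t)).scomp t (hσd t (hsub t ht).2)
      exact h1.hasDerivWithinAt
    · intro t _
      exact mem_univ _
    · change z t₁ = F.Φ (σ t₁) (z t₁)
      rw [hσ0, F.zero]
  -- the limit of σ
  set s : ℝ := sSup (σ '' Ioo t₁ T) with hsdef
  have hne : (Ioo t₁ T).Nonempty := nonempty_Ioo.mpr hT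
  have hbdd : BddAbove (σ '' Ioo t₁ T) := by
    refine ⟨2 * B / c, ?_⟩
    rintro _ ⟨t, ht, rfl⟩
    exact hσbd t ⟨ht.1.le, ht.2⟩
  have hlim : Tendsto σ (𝓝[<] T) (𝓝 s) :=
    MonotoneOn.tendsto_nhdsWithin_Ioo_left hne (hσmono.mono Ioo_subset_Ico_self) hbdd
  have hle : ∀ t ∈ Ioo t₁ T, σ t ≤ s := fun t ht => le_csSup hbdd ⟨t, ht, rfl⟩
  have hs0 : 0 ≤ s := by
    obtain ⟨t, ht⟩ := hne
    exact (hσnn t ⟨ht.1.le, ht.2⟩).trans (hle t ht)
  have hzlim : Tendsto z (𝓝[<] T) (𝓝 (ζ s)) := by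
    have h1 : Tendsto (fun t => ζ (σ t)) (𝓝[<] T) (𝓝 (ζ s)) :=
      (hζc.tendsto s).comp hlim
    refine h1.congr' ?_
    filter_upwards [Ioo_mem_nhdsLT hT] with t ht
    exact (hzζ t ⟨ht.1.le, ht.2⟩).symm
  have hζK : ∀ s' ∈ Icc 0 s, ζ s' ∈ K := by
    intro s' hs'
    rcases lt_or_eq_of_le hs'.2 with hlt | heq
    · obtain ⟨_, ⟨t₂, ht₂, rfl⟩, h2⟩ := exists_lt_of_lt_csSup (hne.image σ) hlt
      have h3 : s' ∈ Icc (σ t₁) (σ t₂) := ⟨by rw [hσ0]; exact hs'.1, h2.le⟩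
      have h4 : ContinuousOn σ (Icc t₁ t₂) := fun t ht =>
        (hσc t (lt_of_le_of_lt ht.2 ht₂.2)).continuousWithinAt
      obtain ⟨t, ht, htt⟩ := intermediate_value_Icc ht₂.1.le h4 h3
      have h5 : t ∈ Ico t₁ T := ⟨ht.1, lt_of_le_of_lt ht.2 ht₂.2⟩
      rw [← htt, ← hzζ t h5]
      exact (hz t h5).1
    · rw [heq]
      have : (𝓝[<] T).NeBot := inferInstance
      refine hK.isClosed.mem_of_tendsto hzlim ?_
      filter_upwards [Ioo_mem_nhdsLT hT] with t ht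
      exact (hz t ⟨ht.1.le, ht.2⟩).1
  refine ⟨s, hs0, ζ, F.zero _, ?_, hzlim⟩
  intro s' hs'
  have h1 := hζK s' hs'
  refine ⟨hKΩ h1, ?_⟩
  have h2 := hζd s'
  rwa [F.eqOn h1] at h2

end HDN
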