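import Mathlib
import Pool.Agent.HDN.Ext
import Pool.Agent.HDN.ExtSA
import Pool.Agent.HDN.ExtLD
import Pool.Agent.HDN.ExtMA
import Pool.Agent.HDN.ExtMB
import Pool.Agent.HDN.TimeChange

/-!
# A solution which ends in a binary collision passes through `Ncol` (project HDN)

Let `z t = elift (γ t)`, `K` the compact set of `ecompact`, contained in `eset`. For every
`t₁ ∈ [t₀, T)` (`t₀` from `elift_mem`) apply `time_change` with `r t = ‖q_a - q_b‖`,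
`κ t = (z t).2.1.2`, `c = (m_a + m_b) / 2`, `elift_deriv`. Its conclusion gives `s`, `ζ` with
`z t → ζ s`, and since `ρ, η, r, κ → 0` one has `ζ s ∈ ecoll`; so `z t₁ = ζ 0 ∈ Reach`, and
`γ t₁ = eproj (z t₁)` (`eproj_elift`), `r > 0` at time `t₁`.
-/

open MeasureTheory Set Filter Topology Metric
open scoped NNReal ENNReal RealInnerProductSpace

namespace HDN

variable {N d : ℕ} {m : Fin N → ℝ} {a b : Fin N}

theorem mem_Ncol (hm : ∀ i, 0 < m i) (hab : a ≠ b) {γ : ℝ → Ph N d} {T : ℝ} (hT : 0 < T)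
    (hγ : SolOn (nfield m) (FreeSet N d) γ (Ico 0 T)) (hB : BinEnd m a b γ T) :
    ∃ t₀ ∈ Ico 0 T, ∀ t ∈ Ico t₀ T, γ t ∈ (Ncol m hab : Set (Ph N d)) := by
  obtain ⟨t₀, ht₀, δ, hδ, R, h1, h2, h3, h4⟩ := elift_mem hm hab hT hγ hB
  refine ⟨t₀, ht₀, fun t₁ ht₁ => ?_⟩
  have hsub : ∀ t ∈ Ico t₁ T, t ∈ Ico t₀ T := fun t ht => ⟨ht₁.1.trans ht.1, ht.2⟩
  have hsub0 : ∀ t ∈ Ico t₁ T, t ∈ Ico 0 T := fun t ht =>
    ⟨(ht₀.1.trans ht₁.1).trans ht.1, ht.2⟩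
  have hne : ∀ t ∈ Ico t₁ T, (γ t).1 a ≠ (γ t).1 b := fun t ht => (hγ t (hsub0 t ht)).1 a b hab
  set K : Set (Ext d b) := {z : Ext d b | ‖z‖ ≤ R ∧ ∀ i j, i ≠ j → ¬ (i = a ∧ j = b) →
      ¬ (i = b ∧ j = a) →
      δ ≤ ‖unred m hab z.1.1 z.2.2.2.1 i - unred m hab z.1.1 z.2.2.2.1 j‖} with hKdef
  have hK : IsCompact K := ecompact hab hδ R
  have hKΩ : K ⊆ eset m hab := by
    intro z hz i j hij hn1 hn2 heq
    have h5 := hz.2 i j hij hn1 hn2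
    rw [heq, sub_self, norm_zero] at h5
    linarith
  have hzK : ∀ t ∈ Ico t₁ T, elift m a b (γ t) ∈ K := by
    intro t ht
    refine ⟨(h1 t (hsub t ht)).1, ?_⟩
    intro i j hij hn1 hn2
    have h5 := (h1 t (hsub t ht)).2 i j hij hn1 hn2
    have h6 : unred m hab (elift m a b (γ t)).1.1 (elift m a b (γ t)).2.2.2.1 = (γ t).1 :=
      unred_lift hm hab (γ t).1
    rw [h6]
    exact h5
  have hd : ∀ t ∈ Ico t₁ T, HasDerivAt (fun s => elift m a b (γ s))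
      (‖(γ t).1 a - (γ t).1 b‖⁻¹ • efield m hab (elift m a b (γ t))) t := fun t ht =>
    elift_deriv hm hab (hγ t (hsub0 t ht)).1 (hγ t (hsub0 t ht)).2
  have hpr : ∀ t ∈ Ico t₁ T, 0 < ‖(γ t).1 a - (γ t).1 b‖ := fun t ht =>
    norm_pos_iff.mpr (sub_ne_zero.mpr (hne t ht))
  have hcont : ∀ t ∈ Ico t₁ T, ContinuousAt (fun t => ‖(γ t).1 a - (γ t).1 b‖) t := by
    intro t ht
    have h5 : ContinuousAt γ t := (hγ t (hsub0 t ht)).2.continuousAt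
    have h6 : Continuous (fun x : Ph N d => ‖x.1 a - x.1 b‖) := by fun_prop
    exact h6.continuousAt.comp h5
  have hκ : ∀ t ∈ Ico t₁ T, HasDerivAt (fun t => (elift m a b (γ t)).2.1.2)
      (‖(γ t).1 a - (γ t).1 b‖⁻¹ * (efield m hab (elift m a b (γ t))).2.1.2) t := by
    intro t ht
    let L : Ext d b →L[ℝ] ℝ :=
      (ContinuousLinearMap.snd ℝ ℝ ℝ).comp
        ((ContinuousLinearMap.fst ℝ (ℝ × ℝ) ((ℝ × Sp d) × ((Idx b → Sp d) × (Idx b → Sp d)))).comp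
          (ContinuousLinearMap.snd ℝ (Sp d × Sp d)
            ((ℝ × ℝ) × (ℝ × Sp d) × ((Idx b → Sp d) × (Idx b → Sp d)))))
    exact L.hasFDerivAt.comp_hasDerivAt t (hd t ht)
  have hc : 0 < (m a + m b) / 2 := by
    have h5 := hm a
    have h6 := hm b
    positivity
  obtain ⟨s, hs, ζ, hζ0, hsol, hlim⟩ := time_change (isOpen_eset hab) (contDiffOn_efield hab) hK
    hKΩ (z := fun t => elift m a b (γ t)) (r := fun t => ‖(γ t).1 a - (γ t).1 b‖)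
    (κ := fun t => (elift m a b (γ t)).2.1.2)
    (κ' := fun t => ‖(γ t).1 a - (γ t).1 b‖⁻¹ * (efield m hab (elift m a b (γ t))).2.1.2)
    (t₁ := t₁) (T := T) (c := (m a + m b) / 2) (B := R) ht₁.2 hc
    (fun t ht => ⟨hzK t ht, hd t ht⟩) (fun t ht => ⟨hpr t ht, hcont t ht⟩)
    (fun t ht => ⟨hκ t ht, (h2 t (hsub t ht)).1, (h2 t (hsub t ht)).2⟩)
  have ht₁' : t₁ ∈ Ico t₁ T := ⟨le_rfl, ht₁.2⟩
  refine ⟨elift m a b (γ t₁), ⟨⟨s, hs, ζ, hζ0, hsol, ?_, ?_⟩, ?_⟩, eproj_elift hm hab (hne t₁ ht₁')⟩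
  · exact tendsto_nhds_unique ((continuous_fst.tendsto (ζ s)).comp hlim) h3
  · exact tendsto_nhds_unique (((continuous_fst.comp continuous_snd).tendsto (ζ s)).comp hlim) h4
  · exact (hpr t₁ ht₁').ne'

end HDN
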