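import Mathlib
import Pool.Agent.HDN.Defs

/-!
# Images of sets of small dimension are null (project HDN)

`dimH_image_le_of_locally_lipschitzOn` (`ContDiffAt.exists_lipschitzOnWith` at the points of
`U`), then `μ ≪ μH[finrank]` (Haar measures are multiples of each other) and
`measure_zero_of_dimH_lt`.
-/

open MeasureTheory Set Filter Topology Metric
open scoped NNReal ENNReal RealInnerProductSpace

namespace HDN

variable {V : Type*} [NormedAddCommGroup V] [NormedSpace ℝ V] [FiniteDimensional ℝ V]

/-- the image of a set of small dimension under a locally Lipschitz map is null -/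
theorem null_image_of_dimH {V' : Type*} [NormedAddCommGroup V'] [NormedSpace ℝ V']
    [FiniteDimensional ℝ V'] [MeasurableSpace V'] [BorelSpace V'] (μ : Measure V')
    [μ.IsAddHaarMeasure] {R U : Set V} (hU : IsOpen U) {p : V → V'} (hp : ContDiffOn ℝ 1 p U)
    {n : ℕ} (hR : dimH R ≤ n) (hn : n < Module.finrank ℝ V') :
    μ (p '' (R ∩ U)) = 0 := by
  have h1 : dimH (p '' (R ∩ U)) ≤ dimH (R ∩ U) := by
    apply dimH_image_le_of_locally_lipschitzOn
    intro x hx
    obtain ⟨K, t, ht, hL⟩ :=
      (hp.contDiffAt (hU.mem_nhds hx.2)).exists_lipschitzOnWith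
    exact ⟨K, t, mem_nhdsWithin_of_mem_nhds ht, hL⟩
  have h2 : dimH (R ∩ U) ≤ (n : ℝ≥0∞) := (dimH_mono inter_subset_left).trans hR
  have h3 : dimH (p '' (R ∩ U)) < ((Module.finrank ℝ V' : ℝ≥0) : ℝ≥0∞) := by
    refine (h1.trans h2).trans_lt ?_
    exact_mod_cast hn
  have h4 : μ ≪ (Measure.hausdorffMeasure (Module.finrank ℝ V' : ℝ) : Measure V') :=
    Measure.absolutelyContinuous_isAddHaarMeasure _ _
  refine measure_zero_of_dimH_lt (d := (Module.finrank ℝ V' : ℝ≥0)) ?_ h3
  simpa using h4

end HDN
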