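import Mathlib
import Pool.Agent.HDN.Ext
import Pool.Agent.HDN.ExtSA
import Pool.Agent.HDN.DimReach
import Pool.Agent.HDN.NullDim

/-!
# The collision set is null (project HDN)

`Ncol_null`: `ecoll` is the range of the linear map `ι` from
`(ℝ × Sp d) × ((Idx b → Sp d) × (Idx b → Sp d))`, whose dimension is
`1 + d + 2 (N - 1) d`; `dimH_reach` and `null_image_of_dimH` with `n = 2 + d + 2 (N - 1) d`
`< 2 N d` because `3 ≤ d`.
-/

open MeasureTheory Set Filter Topology Metric
open scoped NNReal ENNReal RealInnerProductSpace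

namespace HDN

variable {N d : ℕ} {m : Fin N → ℝ} {a b : Fin N}

theorem contDiff_unred (hab : a ≠ b) :
    ContDiff ℝ 1 (fun p : Sp d × (Idx b → Sp d) => unred m hab p.1 p.2) := by
  rw [contDiff_pi]
  intro i
  unfold unred
  by_cases h : i = b
  · simp only [h, dite_true]
    fun_prop
  · by_cases h' : i = a
    · subst h'
      simp only [hab, dite_false, if_true]
      fun_prop
    · simp only [h, h', dite_false, if_false]
      fun_prop

theorem contDiffOn_eproj (hab : a ≠ b) :
    ContDiffOn ℝ 1 (eproj m hab : Ext d b → Ph N d) {z | z.2.1.1 ≠ 0} := by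
  unfold eproj
  apply ContDiffOn.prodMk
  · exact ((contDiff_unred (m := m) hab).comp (g := fun p : Sp d × (Idx b → Sp d) =>
      unred m hab p.1 p.2) (f := fun z : Ext d b => (z.1.1, z.2.2.2.1)) (by fun_prop)).contDiffOn
  · refine (contDiff_unred (m := m) hab).comp_contDiffOn (g := fun p : Sp d × (Idx b → Sp d) =>
      unred m hab p.1 p.2) (f := fun z : Ext d b => (z.2.1.1⁻¹ • z.1.2, z.2.2.2.2)) ?_
    apply ContDiffOn.prodMk
    · refine ContDiffOn.smul (f := fun z : Ext d b => z.2.1.1⁻¹) (g := fun z : Ext d b => z.1.2) ?_ ?_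
      · apply ContDiffOn.inv
        · fun_prop
        · intro z hz
          exact hz
      · fun_prop
    · fun_prop

theorem finrank_ph : Module.finrank ℝ (Ph N d) = 2 * N * d := by
  simp [Module.finrank_prod, Module.finrank_pi_fintype]
  ring

/-- the parametrisation of the collision states -/
noncomputable def iotaLin (d : ℕ) {N : ℕ} (b : Fin N) :
    ((ℝ × Sp d) × ((Idx b → Sp d) × (Idx b → Sp d))) →ₗ[ℝ] Ext d b :=
  LinearMap.inr ℝ (Sp d × Sp d) ((ℝ × ℝ) × (ℝ × Sp d) × ((Idx b → Sp d) × (Idx b → Sp d))) ∘ₗ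
    LinearMap.inr ℝ (ℝ × ℝ) ((ℝ × Sp d) × ((Idx b → Sp d) × (Idx b → Sp d)))

theorem ecoll_subset (d : ℕ) (b : Fin N) : ecoll d b ⊆ range (iotaLin d b) := by
  rintro ⟨z1, z2, z3⟩ ⟨h1, h2⟩
  simp only at h1 h2
  subst h1 h2
  exact ⟨z3, by simp [iotaLin]⟩

theorem Ncol_null (hd : 3 ≤ d) (hab : a ≠ b) :
    volume (Ncol m hab : Set (Ph N d)) = 0 := by
  have hN : 1 ≤ N := by
    have := a.2
    omega
  have hU : IsOpen {z : Ext d b | z.2.1.1 ≠ 0} := by
    apply isOpen_ne_fun <;> fun_prop
  have hdim := dimH_reach (isOpen_eset (m := m) (d := d) hab) (contDiffOn_efield (m := m) hab)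
    (iotaLin d b) (ecoll_subset d b)
  have hfr : Module.finrank ℝ ((ℝ × Sp d) × ((Idx b → Sp d) × (Idx b → Sp d)))
      = 1 + d + 2 * (N - 1) * d := by
    simp [Module.finrank_prod, Module.finrank_pi_fintype]
    ring
  unfold Ncol
  have hHaar : ((volume : Measure (Cf N d)).prod (volume : Measure (Cf N d))).IsAddHaarMeasure :=
    MeasureTheory.Measure.prod.instIsAddHaarMeasure _ _
  show ((volume : Measure (Cf N d)).prod (volume : Measure (Cf N d))) _ = 0
  refine null_image_of_dimH ((volume : Measure (Cf N d)).prod (volume : Measure (Cf N d))) hU (contDiffOn_eproj (m := m) hab) hdim ?_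
  rw [hfr, finrank_ph]
  obtain ⟨k, rfl⟩ : ∃ k, N = k + 1 := ⟨N - 1, by omega⟩
  simp only [Nat.add_sub_cancel]
  nlinarith

end HDN
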