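import Mathlib
import Pool.Agent.HDN.Defs

/-!
# The N-body field is smooth (project HDN)
-/

open MeasureTheory Set Filter Topology Metric
open scoped NNReal ENNReal RealInnerProductSpace

namespace HDN

variable {N d : ℕ} {m : Fin N → ℝ}

private theorem finA_contDiff_pos (a : Fin N) : ContDiff ℝ 1 (fun x : Ph N d => x.1 a) :=
  contDiff_pi.1 contDiff_fst a

theorem isOpen_freeSet : IsOpen (FreeSet N d) := by
  have h : FreeSet N d = ⋂ a : Fin N, ⋂ b : Fin N, ⋂ _ : a ≠ b,
      {x : Ph N d | x.1 a ≠ x.1 b} := by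
    ext x
    simp only [FreeSet, Free, Set.mem_iInter, Set.mem_setOf_eq]
  rw [h]
  refine isOpen_iInter_of_finite fun a => isOpen_iInter_of_finite fun b =>
    isOpen_iInter_of_finite fun _ => ?_
  exact isOpen_ne_fun (finA_contDiff_pos a).continuous (finA_contDiff_pos b).continuous

theorem contDiffOn_nfield : ContDiffOn ℝ 1 (nfield m : Ph N d → Ph N d) (FreeSet N d) := by
  unfold nfield
  refine ContDiffOn.prodMk contDiff_snd.contDiffOn ?_
  refine contDiffOn_pi.2 fun a => ?_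
  unfold acc
  refine ContDiffOn.sum fun b hb => ?_
  have hne : b ≠ a := (Finset.mem_erase.1 hb).1
  have h1 : ContDiffOn ℝ 1 (fun x : Ph N d => x.1 b - x.1 a) (FreeSet N d) :=
    ((finA_contDiff_pos b).sub (finA_contDiff_pos a)).contDiffOn
  have h0 : ∀ x ∈ FreeSet N d, x.1 b - x.1 a ≠ 0 := by
    intro x hx
    have hx' : Free x.1 := hx
    exact sub_ne_zero.2 (hx' b a hne)
  have h2 : ContDiffOn ℝ 1 (fun x : Ph N d => ‖x.1 b - x.1 a‖ ^ 3) (FreeSet N d) :=
    (h1.norm ℝ h0).pow 3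
  have h3 : ContDiffOn ℝ 1 (fun x : Ph N d => m b / ‖x.1 b - x.1 a‖ ^ 3) (FreeSet N d) :=
    contDiffOn_const.div h2 (fun x hx => pow_ne_zero 3 (norm_ne_zero_iff.2 (h0 x hx)))
  exact h3.smul h1

end HDN
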