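import Mathlib
import Pool.Agent.HDN.Defs

/-!
# A set which meets all lines through a point in null sets (project HDN)

Tonelli for the set `{(s, y) | s ∈ (1, 2), y₀ + s • y ∈ Z}`:
`∫_{(1,2)} μ {y | y₀ + s • y ∈ Z} ds = ∫ vol {s ∈ (1,2) | y₀ + s • y ∈ Z} dμ y = 0`, and
`μ {y | y₀ + s • y ∈ Z} = |s|^(-n) μ Z` (`Measure.addHaar_preimage_smul`, translation
invariance).
-/

open MeasureTheory Set Filter Topology Metric
open scoped NNReal ENNReal RealInnerProductSpace

namespace HDN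

/-- a measurable set which meets every line through `y₀` in a null set is null -/
theorem null_of_lines {V : Type*} [NormedAddCommGroup V] [NormedSpace ℝ V]
    [FiniteDimensional ℝ V] [MeasurableSpace V] [BorelSpace V] (μ : Measure V)
    [μ.IsAddHaarMeasure] {Z : Set V} (hZ : MeasurableSet Z) (y₀ : V)
    (h : ∀ u : V, volume {s : ℝ | y₀ + s • u ∈ Z} = 0) : μ Z = 0 := by
  have hprop : ProperSpace V := FiniteDimensional.proper ℝ V
  set ν : Measure ℝ := volume.restrict (Ioo 1 2) with hν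
  set T : Set (ℝ × V) := {p | y₀ + p.1 • p.2 ∈ Z} with hT
  have hcont : Continuous (fun p : ℝ × V => y₀ + p.1 • p.2) := by fun_prop
  have hTm : MeasurableSet T := hcont.measurable hZ
  have h1 : (ν.prod μ) T = 0 := by
    rw [Measure.prod_apply_symm hTm]
    apply lintegral_eq_zero_of_ae_eq_zero
    refine Filter.Eventually.of_forall fun y => ?_
    have h2 : ν ((fun s => (s, y)) ⁻¹' T) ≤ volume {s : ℝ | y₀ + s • y ∈ Z} :=
      Measure.restrict_apply_le _ _
    exact le_antisymm (h2.trans (le_of_eq (h y))) zero_le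
  rw [Measure.prod_apply hTm] at h1
  have hmeas : Measurable (fun s => μ (Prod.mk s ⁻¹' T)) := measurable_measure_prodMk_left hTm
  have h3 : ∀ᵐ s ∂ν, μ (Prod.mk s ⁻¹' T) = 0 := (lintegral_eq_zero_iff hmeas).1 h1
  have h4 : ∀ᵐ s ∂(volume : Measure ℝ), s ∈ Ioo (1 : ℝ) 2 → μ (Prod.mk s ⁻¹' T) = 0 :=
    (ae_restrict_iff' measurableSet_Ioo).1 h3
  have h5 : ∃ s ∈ Ioo (1 : ℝ) 2, μ (Prod.mk s ⁻¹' T) = 0 := by
    by_contra hno
    push Not at hno
    have h6 : Ioo (1 : ℝ) 2 ⊆ {s | ¬ (s ∈ Ioo (1 : ℝ) 2 → μ (Prod.mk s ⁻¹' T) = 0)} := by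
      intro s hs h'
      exact hno s hs (h' hs)
    have h7 : volume (Ioo (1 : ℝ) 2) = 0 := measure_mono_null h6 (ae_iff.1 h4)
    rw [Real.volume_Ioo] at h7
    norm_num at h7
  obtain ⟨s, hs, hs0⟩ := h5
  have hsne : s ≠ 0 := by
    have := hs.1
    linarith
  have h8 : Prod.mk s ⁻¹' T = (fun y : V => s • y) ⁻¹' ((fun y => y₀ + y) ⁻¹' Z) := rfl
  rw [h8, Measure.addHaar_preimage_smul μ hsne, measure_preimage_add] at hs0
  rcases mul_eq_zero.1 hs0 with h9 | h9
  · exfalso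
    rw [ENNReal.ofReal_eq_zero] at h9
    have h10 : 0 < |(s ^ Module.finrank ℝ V)⁻¹| := by
      apply abs_pos.2
      exact inv_ne_zero (pow_ne_zero _ hsne)
    linarith
  · exact h9

end HDN
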