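import Mathlib
import Pool.Agent.HDN.Phys
import Pool.Agent.HDN.GenA

/-!
# The angular momentum has rank at least `2N - 4` for almost every state (project HDN)

`generic_rank`: let `ν = N - 2`, `P x = det (⟪e_j, Lop m x e_i⟫)`, `i j` in
`Fin ν ⊕ Fin ν` embedded in `Fin d` (`inl i ↦ i`, `inr i ↦ ν + i`; possible since `2 ν ≤ d`). If
`P x ≠ 0` then `lrank (Lop m x) ≥ 2 ν`. Base point `x₀`: `q_i = e_i`, `v_i = e_{ν+i}` for
`i < ν`, `q_{N-1} = -(m_{N-1})⁻¹ ∑_{i<ν} m_i e_i`, all other positions and velocities `0`; then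
`∑ m_i q_i = 0`, `Lop m x₀ = ∑_{i<ν} m_i wedge e_i e_{ν+i}`, its matrix is
`fromBlocks 0 (-D) D 0` up to sign with `D = diag m_i`, invertible. Along every line
`s ↦ x₀ + s • u` the entries are polynomials of degree at most `2` in `s`, so
`s ↦ P (x₀ + s • u)` is the evaluation of a polynomial which does not vanish at `0`: it has finitely
many zeros. (For `N = 2` there is nothing to prove.)
-/

open MeasureTheory Set Filter Topology Metric
open scoped NNReal ENNReal RealInnerProductSpace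

namespace HDN

variable {N d : ℕ} {m : Fin N → ℝ}

namespace GenB

/-- the index map -/
def ph (ν d : ℕ) (h : ν + ν ≤ d) : Fin ν ⊕ Fin ν → Fin d :=
  Sum.elim (fun i => ⟨i.1, by have := i.2; omega⟩) (fun i => ⟨ν + i.1, by have := i.2; omega⟩)

theorem ph_inj {ν d : ℕ} (h : ν + ν ≤ d) : Function.Injective (ph ν d h) := by
  rintro (i | i) (j | j) hij
  · have h1 := congrArg Fin.val hij
    simp only [ph, Sum.elim_inl] at h1
    exact congrArg Sum.inl (Fin.ext h1)
  · have h1 := congrArg Fin.val hij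
    simp only [ph, Sum.elim_inl, Sum.elim_inr] at h1
    have := i.2
    omega
  · have h1 := congrArg Fin.val hij
    simp only [ph, Sum.elim_inl, Sum.elim_inr] at h1
    have := j.2
    omega
  · have h1 := congrArg Fin.val hij
    simp only [ph, Sum.elim_inr] at h1
    exact congrArg Sum.inr (Fin.ext (by omega))

/-- the vectors `e_i` -/
noncomputable def E (ν d : ℕ) (h : ν + ν ≤ d) (k : Fin ν ⊕ Fin ν) : Sp d :=
  EuclideanSpace.single (ph ν d h k) (1 : ℝ)

theorem inner_E {ν d : ℕ} (h : ν + ν ≤ d) (j i : Fin ν ⊕ Fin ν) :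
    ⟪E ν d h j, E ν d h i⟫ = if j = i then (1 : ℝ) else 0 := by
  unfold E
  rw [EuclideanSpace.inner_single_left]
  by_cases hji : j = i
  · subst hji
    simp
  · have h1 : ph ν d h j ≠ ph ν d h i := fun h2 => hji (ph_inj h h2)
    simp [hji, h1]

/-- matrix entries of the angular momentum -/
noncomputable def ent (m : Fin N → ℝ) (y z : Sp d) (x : Ph N d) : ℝ := ⟪y, Lop m x z⟫

theorem ent_eq (m : Fin N → ℝ) (y z : Sp d) (x : Ph N d) :
    ent m y z x = ∑ a, m a * (⟪x.2 a, z⟫ * ⟪y, x.1 a⟫ - ⟪x.1 a, z⟫ * ⟪y, x.2 a⟫) -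
      (∑ a, m a)⁻¹ * ((∑ a, m a * ⟪x.2 a, z⟫) * (∑ a, m a * ⟪y, x.1 a⟫) -
        (∑ a, m a * ⟪x.1 a, z⟫) * (∑ a, m a * ⟪y, x.2 a⟫)) := by
  unfold ent Lop
  simp only [sub_apply, sum_apply,
    smul_apply, wedge_apply, inner_sub_right, inner_sum, inner_smul_right,
    sum_inner, inner_smul_left, conj_trivial]

theorem continuous_ent (m : Fin N → ℝ) (y z : Sp d) : Continuous (ent m y z) := by
  have h : ent m y z = fun x => ∑ a, m a * (⟪x.2 a, z⟫ * ⟪y, x.1 a⟫ - ⟪x.1 a, z⟫ * ⟪y, x.2 a⟫) -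
      (∑ a, m a)⁻¹ * ((∑ a, m a * ⟪x.2 a, z⟫) * (∑ a, m a * ⟪y, x.1 a⟫) -
        (∑ a, m a * ⟪x.1 a, z⟫) * (∑ a, m a * ⟪y, x.2 a⟫)) := by
    funext x
    exact ent_eq m y z x
  rw [h]
  fun_prop

/-- functions of one variable which are polynomials -/
def IsP (f : ℝ → ℝ) : Prop := ∃ p : Polynomial ℝ, ∀ s, f s = p.eval s

theorem IsP.const (c : ℝ) : IsP (fun _ => c) := ⟨Polynomial.C c, fun s => by simp⟩
theorem IsP.id : IsP (fun s => s) := ⟨Polynomial.X, fun s => by simp⟩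
theorem IsP.add {f g : ℝ → ℝ} (hf : IsP f) (hg : IsP g) : IsP (fun s => f s + g s) := by
  obtain ⟨p, hp⟩ := hf
  obtain ⟨q, hq⟩ := hg
  exact ⟨p + q, fun s => by
    change f s + g s = _
    rw [Polynomial.eval_add, hp, hq]⟩
theorem IsP.sub {f g : ℝ → ℝ} (hf : IsP f) (hg : IsP g) : IsP (fun s => f s - g s) := by
  obtain ⟨p, hp⟩ := hf
  obtain ⟨q, hq⟩ := hg
  exact ⟨p - q, fun s => by
    change f s - g s = _
    rw [Polynomial.eval_sub, hp, hq]⟩
theorem IsP.mul {f g : ℝ → ℝ} (hf : IsP f) (hg : IsP g) : IsP (fun s => f s * g s) := by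
  obtain ⟨p, hp⟩ := hf
  obtain ⟨q, hq⟩ := hg
  exact ⟨p * q, fun s => by
    change f s * g s = _
    rw [Polynomial.eval_mul, hp, hq]⟩
theorem IsP.sum {ι : Type*} (S : Finset ι) {f : ι → ℝ → ℝ} (hf : ∀ i ∈ S, IsP (f i)) :
    IsP (fun s => ∑ i ∈ S, f i s) := by
  classical
  induction S using Finset.induction_on with
  | empty => simpa using IsP.const 0
  | insert a S ha ih =>
    have h1 := (hf a (Finset.mem_insert_self a S)).add
      (ih fun i hi => hf i (Finset.mem_insert_of_mem hi))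
    obtain ⟨p, hp⟩ := h1
    exact ⟨p, fun s => by
      change ∑ i ∈ insert a S, f i s = _
      rw [Finset.sum_insert ha]
      exact hp s⟩

theorem IsP.det {ι : Type*} [Fintype ι] [DecidableEq ι] {M : ℝ → Matrix ι ι ℝ}
    (h : ∀ i j, IsP (fun s => M s i j)) : IsP (fun s => (M s).det) := by
  choose p hp using h
  refine ⟨(Matrix.of fun i j => p i j).det, fun s => ?_⟩
  have h1 := (Polynomial.evalRingHom s).map_det (Matrix.of fun i j => p i j)
  have h2 : (Polynomial.evalRingHom s).mapMatrix (Matrix.of fun i j => p i j) = M s := by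
    ext i j
    rw [RingHom.mapMatrix_apply, Matrix.map_apply, Matrix.of_apply, Polynomial.coe_evalRingHom]
    exact (hp i j s).symm
  rw [h2] at h1
  exact h1.symm

theorem IsP.null {f : ℝ → ℝ} (hf : IsP f) (h0 : f 0 ≠ 0) : volume {s : ℝ | f s = 0} = 0 := by
  obtain ⟨p, hp⟩ := hf
  have hp0 : p ≠ 0 := by
    rintro rfl
    exact h0 (by rw [hp]; simp)
  have hfin : {s : ℝ | f s = 0}.Finite := by
    apply Set.Finite.subset p.roots.toFinset.finite_toSet
    intro s hs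
    have hs' : f s = 0 := hs
    simp only [Finset.mem_coe, Multiset.mem_toFinset, Polynomial.mem_roots hp0,
      Polynomial.IsRoot.def]
    rw [← hp]
    exact hs'
  exact hfin.measure_zero volume

theorem isP_inner_right (y : Sp d) (p q : Sp d) : IsP (fun s => ⟪y, p + s • q⟫) := by
  have h : (fun s : ℝ => ⟪y, p + s • q⟫) = fun s => ⟪y, p⟫ + s * ⟪y, q⟫ := by
    funext s
    rw [inner_add_right, inner_smul_right]
  rw [h]
  exact (IsP.const _).add (IsP.id.mul (IsP.const _))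

theorem isP_inner_left (z : Sp d) (p q : Sp d) : IsP (fun s => ⟪p + s • q, z⟫) := by
  have h : (fun s : ℝ => ⟪p + s • q, z⟫) = fun s => ⟪z, p + s • q⟫ := by
    funext s
    rw [real_inner_comm]
  rw [h]
  exact isP_inner_right z p q

theorem isP_ent (m : Fin N → ℝ) (y z : Sp d) (x u : Ph N d) :
    IsP (fun s => ent m y z (x + s • u)) := by
  have h : (fun s : ℝ => ent m y z (x + s • u)) = fun s =>
      ∑ a, m a * (⟪x.2 a + s • u.2 a, z⟫ * ⟪y, x.1 a + s • u.1 a⟫ -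
        ⟪x.1 a + s • u.1 a, z⟫ * ⟪y, x.2 a + s • u.2 a⟫) -
      (∑ a, m a)⁻¹ * ((∑ a, m a * ⟪x.2 a + s • u.2 a, z⟫) *
        (∑ a, m a * ⟪y, x.1 a + s • u.1 a⟫) -
        (∑ a, m a * ⟪x.1 a + s • u.1 a, z⟫) * (∑ a, m a * ⟪y, x.2 a + s • u.2 a⟫)) := by
    funext s
    exact ent_eq m y z (x + s • u)
  rw [h]
  have hl : ∀ p q : Sp d, IsP (fun s => ⟪p + s • q, z⟫) := isP_inner_left z
  have hr : ∀ p q : Sp d, IsP (fun s => ⟪y, p + s • q⟫) := isP_inner_right y
  refine IsP.sub ?_ ?_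
  · refine IsP.sum _ fun a _ => ?_
    exact (IsP.const _).mul (((hl _ _).mul (hr _ _)).sub ((hl _ _).mul (hr _ _)))
  · refine (IsP.const _).mul ?_
    refine IsP.sub ?_ ?_
    · exact (IsP.sum _ fun a _ => (IsP.const _).mul (hl _ _)).mul
        (IsP.sum _ fun a _ => (IsP.const _).mul (hr _ _))
    · exact (IsP.sum _ fun a _ => (IsP.const _).mul (hl _ _)).mul
        (IsP.sum _ fun a _ => (IsP.const _).mul (hr _ _))

/-- the matrix -/
noncomputable def Mx (ν d : ℕ) (h : ν + ν ≤ d) (A : Sp d →L[ℝ] Sp d) :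
    Matrix (Fin ν ⊕ Fin ν) (Fin ν ⊕ Fin ν) ℝ :=
  Matrix.of fun j i => ⟪E ν d h j, A (E ν d h i)⟫

/-- inclusion -/
noncomputable def inc (ν d : ℕ) (h : ν + ν ≤ d) : ((Fin ν ⊕ Fin ν) → ℝ) →ₗ[ℝ] Sp d :=
  ∑ i, (LinearMap.toSpanSingleton ℝ (Sp d) (E ν d h i)) ∘ₗ LinearMap.proj i

theorem inc_apply {ν d : ℕ} (h : ν + ν ≤ d) (c : (Fin ν ⊕ Fin ν) → ℝ) :
    inc ν d h c = ∑ i, c i • E ν d h i := by
  simp [inc, LinearMap.sum_apply]

/-- projection -/
noncomputable def pro (ν d : ℕ) (h : ν + ν ≤ d) : Sp d →ₗ[ℝ] ((Fin ν ⊕ Fin ν) → ℝ) :=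
  LinearMap.pi fun j => ((innerSL ℝ (E ν d h j) : Sp d →L[ℝ] ℝ) : Sp d →ₗ[ℝ] ℝ)

theorem pro_apply {ν d : ℕ} (h : ν + ν ≤ d) (x : Sp d) (j : Fin ν ⊕ Fin ν) :
    pro ν d h x j = ⟪E ν d h j, x⟫ := by
  simp [pro]

theorem rank_le {ν d : ℕ} (h : ν + ν ≤ d) (A : Sp d →L[ℝ] Sp d) (hA : (Mx ν d h A).det ≠ 0) :
    2 * ν ≤ lrank A := by
  set L : Sp d →ₗ[ℝ] Sp d := (A : Sp d →ₗ[ℝ] Sp d) with hL
  have h1 : (Mx ν d h A).mulVecLin = pro ν d h ∘ₗ L ∘ₗ inc ν d h := by
    apply LinearMap.ext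
    intro c
    funext j
    rw [LinearMap.comp_apply, LinearMap.comp_apply, pro_apply, inc_apply, map_sum, inner_sum,
      Matrix.mulVecLin_apply, Matrix.mulVec, dotProduct]
    refine Finset.sum_congr rfl fun i _ => ?_
    rw [map_smul, inner_smul_right]
    simp only [Mx, Matrix.of_apply]
    rw [mul_comm]
    rfl
  have h2 : (Mx ν d h A).rank = Fintype.card (Fin ν ⊕ Fin ν) := by
    apply Matrix.rank_of_isUnit
    rw [Matrix.isUnit_iff_isUnit_det]
    exact isUnit_iff_ne_zero.mpr hA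
  have h3 : (Mx ν d h A).rank = Module.finrank ℝ (LinearMap.range (Mx ν d h A).mulVecLin) := rfl
  have h4 : LinearMap.range (pro ν d h ∘ₗ L ∘ₗ inc ν d h) ≤
      (LinearMap.range L).map (pro ν d h) := by
    rintro _ ⟨c, rfl⟩
    exact ⟨L (inc ν d h c), ⟨inc ν d h c, rfl⟩, rfl⟩
  have h5 : Module.finrank ℝ (LinearMap.range (pro ν d h ∘ₗ L ∘ₗ inc ν d h)) ≤
      Module.finrank ℝ ((LinearMap.range L).map (pro ν d h)) := Submodule.finrank_mono h4
  have h6 : Module.finrank ℝ ((LinearMap.range L).map (pro ν d h)) ≤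
      Module.finrank ℝ (LinearMap.range L) := Submodule.finrank_map_le _ _
  have h7 : Fintype.card (Fin ν ⊕ Fin ν) = 2 * ν := by
    rw [Fintype.card_sum, Fintype.card_fin]
    ring
  have h8 : lrank A = Module.finrank ℝ (LinearMap.range L) := rfl
  rw [h8, ← h7, ← h2, h3, h1]
  exact h5.trans h6

/-- base point -/
noncomputable def base (ν d : ℕ) (h : ν + ν ≤ d) (m : Fin (ν + 2) → ℝ) : Ph (ν + 2) d :=
  (Fin.snoc (α := fun _ => Sp d) (Fin.snoc (α := fun _ => Sp d)
      (fun i : Fin ν => E ν d h (Sum.inl i)) 0)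
      (-(m (Fin.last (ν + 1)))⁻¹ • ∑ i : Fin ν, m i.castSucc.castSucc • E ν d h (Sum.inl i)),
   Fin.snoc (α := fun _ => Sp d) (Fin.snoc (α := fun _ => Sp d)
      (fun i : Fin ν => E ν d h (Sum.inr i)) 0) 0)

theorem base_one_cs {ν d : ℕ} (h : ν + ν ≤ d) (m : Fin (ν + 2) → ℝ) (i : Fin ν) :
    (base ν d h m).1 i.castSucc.castSucc = E ν d h (Sum.inl i) := by
  unfold base
  simp only [Fin.snoc_castSucc]

theorem base_one_mid {ν d : ℕ} (h : ν + ν ≤ d) (m : Fin (ν + 2) → ℝ) :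
    (base ν d h m).1 (Fin.last ν).castSucc = 0 := by
  unfold base
  simp only [Fin.snoc_castSucc, Fin.snoc_last]

theorem base_one_last {ν d : ℕ} (h : ν + ν ≤ d) (m : Fin (ν + 2) → ℝ) :
    (base ν d h m).1 (Fin.last (ν + 1)) = -(m (Fin.last (ν + 1)))⁻¹ •
      ∑ i : Fin ν, m i.castSucc.castSucc • E ν d h (Sum.inl i) := by
  unfold base
  simp only [Fin.snoc_last]

theorem base_two_cs {ν d : ℕ} (h : ν + ν ≤ d) (m : Fin (ν + 2) → ℝ) (i : Fin ν) :
    (base ν d h m).2 i.castSucc.castSucc = E ν d h (Sum.inr i) := by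
  unfold base
  simp only [Fin.snoc_castSucc]

theorem base_two_mid {ν d : ℕ} (h : ν + ν ≤ d) (m : Fin (ν + 2) → ℝ) :
    (base ν d h m).2 (Fin.last ν).castSucc = 0 := by
  unfold base
  simp only [Fin.snoc_castSucc, Fin.snoc_last]

theorem base_two_last {ν d : ℕ} (h : ν + ν ≤ d) (m : Fin (ν + 2) → ℝ) :
    (base ν d h m).2 (Fin.last (ν + 1)) = 0 := by
  unfold base
  simp only [Fin.snoc_last]

theorem wedge_zero_right (x : Sp d) : wedge x 0 = 0 := by
  apply ContinuousLinearMap.ext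
  intro z
  simp

theorem wedge_zero_left (x : Sp d) : wedge 0 x = 0 := by
  apply ContinuousLinearMap.ext
  intro z
  simp

theorem base_cm {ν d : ℕ} (h : ν + ν ≤ d) (m : Fin (ν + 2) → ℝ) (hm : m (Fin.last (ν + 1)) ≠ 0) :
    ∑ a, m a • (base ν d h m).1 a = 0 := by
  rw [Fin.sum_univ_castSucc, Fin.sum_univ_castSucc, base_one_mid, base_one_last, smul_zero,
    add_zero, smul_smul, mul_neg, mul_inv_cancel₀ hm, neg_smul, one_smul]
  simp only [base_one_cs]
  exact add_neg_cancel _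

theorem Lop_base {ν d : ℕ} (h : ν + ν ≤ d) (m : Fin (ν + 2) → ℝ)
    (hm : m (Fin.last (ν + 1)) ≠ 0) : Lop m (base ν d h m) =
    ∑ i : Fin ν, m i.castSucc.castSucc • wedge (E ν d h (Sum.inl i)) (E ν d h (Sum.inr i)) := by
  have hz : ∀ c : ℝ, c • (0 : Sp d →L[ℝ] Sp d) = 0 := fun c =>
    ContinuousLinearMap.ext fun z => by simp
  unfold Lop
  rw [base_cm h m hm, wedge_zero_left, hz, sub_zero, Fin.sum_univ_castSucc,
    Fin.sum_univ_castSucc, base_one_mid, base_two_last, wedge_zero_left, wedge_zero_right,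
    hz, hz, add_zero, add_zero]
  simp only [base_one_cs, base_two_cs]

theorem det_base {ν d : ℕ} (h : ν + ν ≤ d) (m : Fin (ν + 2) → ℝ) (hm : ∀ i, 0 < m i) :
    (Mx ν d h (Lop m (base ν d h m))).det ≠ 0 := by
  rw [Lop_base h m (hm _).ne']
  set A : Sp d →L[ℝ] Sp d := ∑ i : Fin ν, m i.castSucc.castSucc •
    wedge (E ν d h (Sum.inl i)) (E ν d h (Sum.inr i)) with hA
  have hAz : ∀ z, A z = ∑ i : Fin ν, m i.castSucc.castSucc •
      (⟪E ν d h (Sum.inr i), z⟫ • E ν d h (Sum.inl i) -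
        ⟪E ν d h (Sum.inl i), z⟫ • E ν d h (Sum.inr i)) := by
    intro z
    rw [hA]
    simp only [sum_apply, smul_apply, wedge_apply]
  have e1 : ∀ j i : Fin ν, Mx ν d h A (Sum.inl j) (Sum.inl i) = 0 := by
    intro j i
    simp only [Mx, Matrix.of_apply, hAz, inner_sum, inner_smul_right, inner_sub_right, inner_E]
    simp
  have e2 : ∀ j i : Fin ν, Mx ν d h A (Sum.inr j) (Sum.inr i) = 0 := by
    intro j i
    simp only [Mx, Matrix.of_apply, hAz, inner_sum, inner_smul_right, inner_sub_right, inner_E]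
    simp
  have e3 : ∀ j i : Fin ν, Mx ν d h A (Sum.inl j) (Sum.inr i) =
      if j = i then m i.castSucc.castSucc else 0 := by
    intro j i
    simp only [Mx, Matrix.of_apply, hAz, inner_sum, inner_smul_right, inner_sub_right, inner_E]
    by_cases hji : j = i
    · subst hji
      simp
    · simp [hji]
  have e4 : ∀ j i : Fin ν, Mx ν d h A (Sum.inr j) (Sum.inl i) =
      if j = i then -m i.castSucc.castSucc else 0 := by
    intro j i
    simp only [Mx, Matrix.of_apply, hAz, inner_sum, inner_smul_right, inner_sub_right, inner_E]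
    by_cases hji : j = i
    · subst hji
      simp
    · simp [hji]
  intro hdet
  obtain ⟨c, hc0, hc⟩ := Matrix.exists_mulVec_eq_zero_iff.mpr hdet
  apply hc0
  have c1 : ∀ j : Fin ν, c (Sum.inr j) = 0 := by
    intro j
    have h1 := congrFun hc (Sum.inl j)
    simp only [Matrix.mulVec, dotProduct, Fintype.sum_sum_type, e1, e3, zero_mul,
      Finset.sum_const_zero, zero_add, ite_mul, Finset.sum_ite_eq, Finset.mem_univ, if_true,
      Pi.zero_apply] at h1
    exact (mul_eq_zero.mp h1).resolve_left (hm _).ne'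
  have c2 : ∀ j : Fin ν, c (Sum.inl j) = 0 := by
    intro j
    have h1 := congrFun hc (Sum.inr j)
    simp only [Matrix.mulVec, dotProduct, Fintype.sum_sum_type, e2, e4, zero_mul,
      Finset.sum_const_zero, add_zero, ite_mul, Finset.sum_ite_eq, Finset.mem_univ, if_true,
      Pi.zero_apply] at h1
    exact (mul_eq_zero.mp h1).resolve_left (neg_ne_zero.mpr (hm _).ne')
  funext k
  rcases k with j | j
  · exact c2 j
  · exact c1 j

end GenB

theorem generic_rank (hN : 2 ≤ N) (hd : 2 * N ≤ d + 4) (hm : ∀ i, 0 < m i) :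
    volume {x : Ph N d | lrank (Lop m x) < 2 * N - 4} = 0 := by
  obtain ⟨ν, rfl⟩ : ∃ ν, N = ν + 2 := ⟨N - 2, by omega⟩
  have h : ν + ν ≤ d := by omega
  have hsub : {x : Ph (ν + 2) d | lrank (Lop m x) < 2 * (ν + 2) - 4} ⊆
      {x | (GenB.Mx ν d h (Lop m x)).det = 0} := by
    intro x hx
    by_contra hne
    have h1 := GenB.rank_le h (Lop m x) hne
    have h2 : lrank (Lop m x) < 2 * (ν + 2) - 4 := hx
    omega
  refine measure_mono_null hsub ?_
  have hcont : Continuous (fun x : Ph (ν + 2) d => (GenB.Mx ν d h (Lop m x)).det) := by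
    apply Continuous.matrix_det
    apply continuous_matrix
    intro j i
    exact GenB.continuous_ent m (GenB.E ν d h j) (GenB.E ν d h i)
  have hmeas : MeasurableSet {x : Ph (ν + 2) d | (GenB.Mx ν d h (Lop m x)).det = 0} :=
    (isClosed_eq hcont continuous_const).measurableSet
  have hH : (volume : Measure (Ph (ν + 2) d)).IsAddHaarMeasure :=
    Measure.prod.instIsAddHaarMeasure _ _
  refine null_of_lines volume hmeas (GenB.base ν d h m) fun u => ?_
  have hP : GenB.IsP (fun s : ℝ => (GenB.Mx ν d h (Lop m (GenB.base ν d h m + s • u))).det) := by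
    apply GenB.IsP.det
    intro j i
    exact GenB.isP_ent m (GenB.E ν d h j) (GenB.E ν d h i) (GenB.base ν d h m) u
  refine hP.null ?_
  rw [zero_smul, add_zero]
  exact GenB.det_base h m hm

end HDN
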