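import Mathlib
import Pool.Agent.HDN.Defs

/-!
# Lebesgue measure on phase space is a Haar measure (project HDN)
-/

open MeasureTheory

namespace HDN

instance haar_cf (N d : ℕ) : (volume : Measure (Cf N d)).IsAddHaarMeasure := by
  unfold Cf
  infer_instance

instance haar_ph (N d : ℕ) : (volume : Measure (Ph N d)).IsAddHaarMeasure :=
  Measure.prod.instIsAddHaarMeasure (volume : Measure (Cf N d)) (volume : Measure (Cf N d))

end HDN
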