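import Mathlib
import Pool.Agent.HDN.Defs
import Pool.Agent.HDN.FlowC
import Pool.Agent.HDN.Exhaust

/-!
# Maximal solutions forward in time (project HDN)

Proof plan for `exists_maximal`. `K n` from `exists_seq_compact`. Let `F n : Flow f (K n)` (`exists_flow`), and
`D = {t | 0 ≤ t ∧ ∃ n, ∀ s ∈ Icc 0 t, (F n).Φ s x ∈ interior (K n)}`. `0 ∈ D`; `D` is downward
closed in `[0, ∞)` and relatively open (continuity of `s ↦ Φ s x`, compactness is not needed:
`Φ t x ∈ interior (K n)` gives a neighbourhood of `t`). If `t ∈ D` with `n` and `k ≥ n` (or any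
other admissible index) the flow lines of `F n` and `F k` agree on `[0, t]` (uniqueness,
`Flow.eq_of_sol`). Put `γ t = (F (n t)).Φ t x` for `t ∈ D` (choose an index) and
`γ t = (F (n 0)).Φ t x` for `t < 0`. If `D = [0, ∞)`: first alternative. Otherwise
`T = sSup D > 0`, `T ∉ D`, `D = [0, T)`, second alternative: if `γ` stays in the compact `K' ⊆ Ω`
on `[0, T)`, choose `n` with `K' ⊆ interior (K n)`; then `(F n).Φ s x = γ s ∈ K'` for `s < T`, by
continuity also for `s = T`, so `T ∈ D`, contradiction.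
-/

open MeasureTheory Set Filter Topology Metric
open scoped NNReal ENNReal RealInnerProductSpace

namespace HDN

variable {V : Type*} [NormedAddCommGroup V] [NormedSpace ℝ V] [FiniteDimensional ℝ V]

namespace MaxSol

theorem cont {f : V → V} {K : Set V} (F : Flow f K) (x : V) : Continuous (fun s => F.Φ s x) :=
  continuous_iff_continuousAt.2 fun t => (F.deriv x t).continuousAt

variable {f : V → V} {K : ℕ → Set V} {x : V}

/-- times until which the `n`-th flow line stays in `interior (K n)` -/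
def A (F : ∀ n, Flow f (K n)) (x : V) (n : ℕ) : Set ℝ :=
  {t | 0 ≤ t ∧ ∀ s ∈ Icc 0 t, (F n).Φ s x ∈ interior (K n)}

variable {F : ∀ n, Flow f (K n)}

theorem A_down {n : ℕ} {s t : ℝ} (ht : t ∈ A F x n) (h0 : 0 ≤ s) (hst : s ≤ t) : s ∈ A F x n :=
  ⟨h0, fun r hr => ht.2 r ⟨hr.1, hr.2.trans hst⟩⟩

theorem A_step {n m : ℕ} (hK : K n ⊆ K m) {t : ℝ} (ht : t ∈ A F x n) :
    ∀ s ∈ Icc 0 t, (F m).Φ s x = (F n).Φ s x := by
  intro s hs
  have h := (F m).eq_of_sol (γ := fun s => (F n).Φ s x) (a := 0) (b := t) ht.1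
    (cont (F n) x).continuousOn
    (fun r hr => by
      have h1 : (F n).Φ r x ∈ K n := interior_subset (ht.2 r ⟨hr.1, hr.2.le⟩)
      refine ⟨hK h1, ?_⟩
      have h2 := ((F n).deriv x r).hasDerivWithinAt (s := Ici r)
      rwa [(F n).eqOn h1] at h2) s hs
  simp only [(F n).zero, sub_zero] at h
  exact h.symm

theorem A_mono (hK : Monotone K) {n m : ℕ} (hnm : n ≤ m) {t : ℝ} (ht : t ∈ A F x n) :
    t ∈ A F x m := by
  refine ⟨ht.1, fun s hs => ?_⟩
  rw [A_step (hK hnm) ht s hs]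
  exact interior_mono (hK hnm) (ht.2 s hs)

theorem A_agree (hK : Monotone K) {n m : ℕ} {s : ℝ} (h1 : s ∈ A F x n) (h2 : s ∈ A F x m) :
    (F n).Φ s x = (F m).Φ s x := by
  have e1 := A_step (hK (le_max_left n m)) h1 s ⟨h1.1, le_rfl⟩
  have e2 := A_step (hK (le_max_right n m)) h2 s ⟨h2.1, le_rfl⟩
  rw [← e1, ← e2]

theorem A_open {n : ℕ} {t : ℝ} (ht : t ∈ A F x n) : ∃ ε > 0, t + ε ∈ A F x n := by
  have ho : IsOpen {s | (F n).Φ s x ∈ interior (K n)} :=
    isOpen_interior.preimage (cont (F n) x)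
  obtain ⟨δ, hδ, hb⟩ := Metric.isOpen_iff.mp ho t (ht.2 t ⟨ht.1, le_rfl⟩)
  refine ⟨δ / 2, by positivity, by linarith [ht.1], fun s hs => ?_⟩
  by_cases hst : s ≤ t
  · exact ht.2 s ⟨hs.1, hst⟩
  · push Not at hst
    apply hb
    rw [Metric.mem_ball, Real.dist_eq, abs_of_pos (by linarith)]
    linarith [hs.2]

open Classical in
/-- the glued curve -/
noncomputable def ga (F : ∀ n, Flow f (K n)) (x : V) (n0 : ℕ) (t : ℝ) : V :=
  if h : ∃ n, t ∈ A F x n then (F h.choose).Φ t x else (F n0).Φ t x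

theorem ga_eq (hK : Monotone K) {n0 n : ℕ} {t : ℝ} (ht : t ∈ A F x n) :
    ga F x n0 t = (F n).Φ t x := by
  have h : ∃ n, t ∈ A F x n := ⟨n, ht⟩
  rw [ga, dif_pos h]
  exact A_agree hK h.choose_spec ht

theorem ga_neg {n0 : ℕ} {t : ℝ} (ht : t < 0) : ga F x n0 t = (F n0).Φ t x := by
  rw [ga, dif_neg]
  rintro ⟨n, hn⟩
  exact absurd hn.1 (not_le.mpr ht)

theorem sol {Ω : Set V} (hK : Monotone K) (hKΩ : ∀ n, K n ⊆ Ω) {n0 : ℕ}
    (h0 : (0 : ℝ) ∈ A F x n0) {t : ℝ} {n : ℕ} (ht : t ∈ A F x n) :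
    ga F x n0 t ∈ Ω ∧ HasDerivAt (ga F x n0) (f (ga F x n0 t)) t := by
  have h1 : (F n).Φ t x ∈ K n := interior_subset (ht.2 t ⟨ht.1, le_rfl⟩)
  refine ⟨by rw [ga_eq hK ht]; exact hKΩ n h1, ?_⟩
  rcases eq_or_lt_of_le ht.1 with h | h
  · subst h
    obtain ⟨ε, hε, hε2⟩ := A_open h0
    rw [ga_eq hK h0]
    have h2 : (F n0).Φ 0 x ∈ K n0 := interior_subset (h0.2 0 ⟨le_rfl, le_rfl⟩)
    have h3 := (F n0).deriv x 0
    rw [(F n0).eqOn h2] at h3
    refine h3.congr_of_eventuallyEq ?_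
    filter_upwards [Iio_mem_nhds (show (0 : ℝ) < 0 + ε by linarith)] with s hs
    by_cases hs0 : s < 0
    · exact ga_neg hs0
    · exact ga_eq hK (A_down hε2 (not_lt.mp hs0) hs.le)
  · obtain ⟨ε, hε, hε2⟩ := A_open ht
    rw [ga_eq hK ht]
    have h3 := (F n).deriv x t
    rw [(F n).eqOn h1] at h3
    refine h3.congr_of_eventuallyEq ?_
    filter_upwards [Ioo_mem_nhds h (show t < t + ε by linarith)] with s hs
    exact ga_eq hK (A_down hε2 hs.1.le hs.2.le)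

end MaxSol

open MaxSol in
theorem exists_maximal {f : V → V} {Ω : Set V} (hΩ : IsOpen Ω) (hf : ContDiffOn ℝ 1 f Ω) {x : V}
    (hx : x ∈ Ω) :
    (∃ γ : ℝ → V, γ 0 = x ∧ SolOn f Ω γ (Ici 0)) ∨
    (∃ T > 0, ∃ γ : ℝ → V, γ 0 = x ∧ SolOn f Ω γ (Ico 0 T) ∧
      ∀ K, IsCompact K → K ⊆ Ω → ∃ t ∈ Ico 0 T, γ t ∉ K) := by
  obtain ⟨K, hKc, hKΩ, hKs, hKex⟩ := exists_seq_compact hΩ
  have hK : Monotone K := monotone_nat_of_le_succ fun n => (hKs n).trans interior_subset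
  have hF : ∀ n, Nonempty (Flow f (K n)) := fun n => exists_flow hΩ hf (hKc n) (hKΩ n)
  let F : ∀ n, Flow f (K n) := fun n => (hF n).some
  obtain ⟨n0, hn0⟩ := hKex {x} isCompact_singleton (Set.singleton_subset_iff.mpr hx)
  have h0 : (0 : ℝ) ∈ A F x n0 := by
    refine ⟨le_rfl, fun s hs => ?_⟩
    have : s = 0 := le_antisymm hs.2 hs.1
    rw [this, (F n0).zero]
    exact hn0 rfl
  have hγ0 : ga F x n0 0 = x := by rw [ga_eq hK h0, (F n0).zero]
  by_cases hD : ∀ t : ℝ, 0 ≤ t → ∃ n, t ∈ A F x n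
  · left
    refine ⟨ga F x n0, hγ0, fun t ht => ?_⟩
    obtain ⟨n, hn⟩ := hD t ht
    exact sol hK hKΩ h0 hn
  · right
    push Not at hD
    obtain ⟨t1, ht1, hno⟩ := hD
    let D : Set ℝ := {t | ∃ n, t ∈ A F x n}
    have hbdd : BddAbove D := by
      refine ⟨t1, fun t ht => ?_⟩
      obtain ⟨n, hn⟩ := ht
      by_contra hlt
      push Not at hlt
      exact hno n (A_down hn ht1 hlt.le)
    have hne : D.Nonempty := ⟨0, n0, h0⟩
    have hTn : ∀ n, sSup D ∉ A F x n := by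
      intro n hn
      obtain ⟨ε, hε, hε2⟩ := A_open hn
      have := le_csSup hbdd (show sSup D + ε ∈ D from ⟨n, hε2⟩)
      linarith
    have hT0 : 0 < sSup D := by
      obtain ⟨ε, hε, hε2⟩ := A_open h0
      have := le_csSup hbdd (show 0 + ε ∈ D from ⟨n0, hε2⟩)
      linarith
    have hIco : ∀ t ∈ Ico 0 (sSup D), ∃ n, t ∈ A F x n := by
      intro t ht
      obtain ⟨t', ⟨n, hn⟩, ht'⟩ := exists_lt_of_lt_csSup hne ht.2
      exact ⟨n, A_down hn ht.1 ht'.le⟩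
    have hsol : SolOn f Ω (ga F x n0) (Ico 0 (sSup D)) := by
      intro t ht
      obtain ⟨n, hn⟩ := hIco t ht
      exact sol hK hKΩ h0 hn
    refine ⟨sSup D, hT0, ga F x n0, hγ0, hsol, fun K' hK' hK'Ω => ?_⟩
    by_contra hcon
    push Not at hcon
    obtain ⟨n, hn⟩ := hKex K' hK' hK'Ω
    have heq : ∀ t ∈ Ico 0 (sSup D), (F n).Φ t x = ga F x n0 t := by
      intro t ht
      have h := (F n).eq_of_sol (γ := ga F x n0) (a := 0) (b := t) ht.1
        (fun s hs => ((hsol s ⟨hs.1, lt_of_le_of_lt hs.2 ht.2⟩).2.continuousAt).continuousWithinAt)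
        (fun s hs => ⟨interior_subset (hn (hcon s ⟨hs.1, hs.2.trans ht.2⟩)),
          (hsol s ⟨hs.1, hs.2.trans ht.2⟩).2.hasDerivWithinAt⟩) t ⟨ht.1, le_rfl⟩
      rw [hγ0, sub_zero] at h
      exact h.symm
    refine hTn n ⟨hT0.le, fun s hs => hn ?_⟩
    rcases eq_or_lt_of_le hs.2 with h | h
    · rw [h]
      have hcl : sSup D ∈ closure (Ico 0 (sSup D)) := by
        rw [closure_Ico hT0.ne]
        exact ⟨hT0.le, le_rfl⟩
      have h1 : (F n).Φ (sSup D) x ∈ closure ((fun s => (F n).Φ s x) '' Ico 0 (sSup D)) :=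
        image_closure_subset_closure_image (cont (F n) x) ⟨_, hcl, rfl⟩
      refine closure_minimal ?_ hK'.isClosed h1
      rintro _ ⟨t, ht, rfl⟩
      simp only [heq t ht]
      exact hcon t ht
    · rw [heq s ⟨hs.1, h⟩]
      exact hcon s ⟨hs.1, h⟩

end HDN
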