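import Mathlib
import Pool.Agent.HDN.Defs

/-!
# Lipschitz images of null sets (project HDN)

`μ` is a multiple of `μH[finrank ℝ V]` (`MeasureTheory.isAddHaarMeasure_hausdorffMeasure`,
`isAddLeftInvariant_eq_smul` or `Measure.isAddHaarMeasure_eq_smul`), and
`LipschitzWith.hausdorffMeasure_image_le`.
-/

open MeasureTheory Set Filter Topology Metric
open scoped NNReal ENNReal RealInnerProductSpace

namespace HDN

variable {V : Type*} [NormedAddCommGroup V] [NormedSpace ℝ V] [FiniteDimensional ℝ V]

theorem null_image_of_lipschitz [MeasurableSpace V] [BorelSpace V] (μ : Measure V)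
    [μ.IsAddHaarMeasure] {g : V → V} {c : ℝ≥0} (hg : LipschitzWith c g) {S : Set V}
    (hS : μ S = 0) : μ (g '' S) = 0 := by
  have : (μH[Module.finrank ℝ V] : Measure V).IsAddHaarMeasure :=
    MeasureTheory.isAddHaarMeasure_hausdorffMeasure
  have h1 : μ ≪ (μH[Module.finrank ℝ V] : Measure V) :=
    Measure.absolutelyContinuous_isAddHaarMeasure μ _
  have h2 : (μH[Module.finrank ℝ V] : Measure V) ≪ μ :=
    Measure.absolutelyContinuous_isAddHaarMeasure _ μ
  apply h1
  have h3 := hg.hausdorffMeasure_image_le (Nat.cast_nonneg (Module.finrank ℝ V)) S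
  rw [h2 hS, mul_zero] at h3
  exact le_antisymm h3 bot_le

end HDN
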