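import Mathlib
import Pool.Agent.HDN.Defs
import Pool.Agent.HDN.FlowC
import Pool.Agent.HDN.Exhaust
import Pool.Agent.HDN.NullLip

/-!
# The flow propagates null sets (project HDN)

Every curve `γ` on `[0, q]` in `Ω` stays in one of the compact sets `K n` of `exists_seq_compact`
(its image is compact), so with `F n : Flow f (K n)`: `γ q = (F n).Φ q (γ 0)` (`Flow.eq_of_sol`) and
`γ 0 = (F n).Φ (-q) (γ q)` (`Flow.comp`, `Flow.zero`). So the set is contained in the countable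
union over `n` and over the rationals `q` of the images of the null set `S` under the Lipschitz
maps `(F n).Φ (-q)`.
-/

open MeasureTheory Set Filter Topology Metric
open scoped NNReal ENNReal RealInnerProductSpace

namespace HDN

variable {V : Type*} [NormedAddCommGroup V] [NormedSpace ℝ V] [FiniteDimensional ℝ V]

theorem null_of_reach [MeasurableSpace V] [BorelSpace V] (μ : Measure V) [μ.IsAddHaarMeasure]
    {f : V → V} {Ω : Set V} (hΩ : IsOpen Ω) (hf : ContDiffOn ℝ 1 f Ω) {S : Set V}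
    (hS : μ S = 0) :
    μ {x | ∃ q : ℚ, (0 : ℝ) ≤ q ∧ ∃ γ : ℝ → V, γ 0 = x ∧ SolOn f Ω γ (Icc 0 (q : ℝ)) ∧
      γ q ∈ S} = 0 := by
  obtain ⟨K, hKc, hKΩ, -, hKex⟩ := exists_seq_compact hΩ
  have F : ∀ n, Flow f (K n) := fun n => Classical.choice (exists_flow hΩ hf (hKc n) (hKΩ n))
  have hsub : {x | ∃ q : ℚ, (0 : ℝ) ≤ q ∧ ∃ γ : ℝ → V, γ 0 = x ∧ SolOn f Ω γ (Icc 0 (q : ℝ)) ∧
      γ q ∈ S} ⊆ ⋃ n : ℕ, ⋃ q : ℚ, (F n).Φ (-(q : ℝ)) '' S := by
    rintro x ⟨q, hq, γ, h0, hsol, hS'⟩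
    have hcont : ContinuousOn γ (Icc 0 (q : ℝ)) := fun t ht =>
      ((hsol t ht).2.continuousAt).continuousWithinAt
    have himc : IsCompact (γ '' Icc 0 (q : ℝ)) := isCompact_Icc.image_of_continuousOn hcont
    have himΩ : γ '' Icc 0 (q : ℝ) ⊆ Ω := by
      rintro _ ⟨t, ht, rfl⟩
      exact (hsol t ht).1
    obtain ⟨n, hn⟩ := hKex _ himc himΩ
    have hK : ∀ t ∈ Icc 0 (q : ℝ), γ t ∈ K n := fun t ht =>
      interior_subset (hn ⟨t, ht, rfl⟩)
    have h1 : γ q = (F n).Φ ((q : ℝ) - 0) (γ 0) := by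
      refine (F n).eq_of_sol hq hcont (fun t ht => ?_) q ⟨hq, le_refl _⟩
      have ht' : t ∈ Icc 0 (q : ℝ) := ⟨ht.1, ht.2.le⟩
      exact ⟨hK t ht', (hsol t ht').2.hasDerivWithinAt⟩
    rw [mem_iUnion]
    refine ⟨n, ?_⟩
    rw [mem_iUnion]
    refine ⟨q, γ q, hS', ?_⟩
    rw [h1, (F n).comp, h0]
    have h2 : -(q : ℝ) + ((q : ℝ) - 0) = 0 := by ring
    rw [h2, (F n).zero]
  refine measure_mono_null hsub ?_
  rw [measure_iUnion_null_iff]
  intro n
  rw [measure_iUnion_null_iff]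
  intro q
  exact null_image_of_lipschitz μ ((F n).lipschitz _) hS

end HDN
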