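import Mathlib
import Pool.Agent.HDN.Haar
import Pool.Agent.HDN.FinA
import Pool.Agent.HDN.MaxSol
import Pool.Agent.HDN.NullReach
import Pool.Agent.HDN.GenB
import Pool.Agent.HDN.ExtSB
import Pool.Agent.HDN.ExtMC
import Pool.Agent.HDN.BinB

/-!
# The forward singular set is null (project HDN)
-/

open MeasureTheory Set Filter Topology Metric
open scoped NNReal ENNReal RealInnerProductSpace

namespace HDN

variable {N d : ℕ} {m : Fin N → ℝ}

/-- the set of initial conditions without a forward complete solution is null: it is contained in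
`{lrank < 2N - 4} ∪ ⋃_{a ≠ b} {x | the solution reaches Ncol at a rational time}`
(`exists_maximal`, `binEnd_of_rank`, `mem_Ncol`, `null_of_reach`, `Ncol_null`). -/
theorem forward_null (hN : 2 ≤ N) (hd : 3 ≤ d) (hNd : 2 * N ≤ d + 4) (hm : ∀ i, 0 < m i) :
    volume {x : Ph N d | Free x.1 ∧
      ¬ ∃ γ : ℝ → Ph N d, γ 0 = x ∧ SolOn (nfield m) (FreeSet N d) γ (Ici 0)} = 0 := by
  have hsub : {x : Ph N d | Free x.1 ∧
      ¬ ∃ γ : ℝ → Ph N d, γ 0 = x ∧ SolOn (nfield m) (FreeSet N d) γ (Ici 0)} ⊆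
      {x : Ph N d | lrank (Lop m x) < 2 * N - 4} ∪
      ⋃ (a : Fin N) (b : Fin N) (hab : a ≠ b),
        {x : Ph N d | ∃ q : ℚ, (0 : ℝ) ≤ q ∧ ∃ γ : ℝ → Ph N d, γ 0 = x ∧
          SolOn (nfield m) (FreeSet N d) γ (Icc 0 (q : ℝ)) ∧ γ q ∈ Ncol m hab} := by
    intro x hx
    obtain ⟨hx1, hx2⟩ := hx
    by_cases hr : lrank (Lop m x) < 2 * N - 4
    · exact Or.inl hr
    right
    rcases exists_maximal (isOpen_freeSet (N := N) (d := d)) (contDiffOn_nfield (m := m))
      (show x ∈ FreeSet N d from hx1) with h | ⟨T, hT, γ, h0, hγ, hK⟩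
    · exact absurd h hx2
    have hrank : 2 * N - 4 ≤ lrank (Lop m (γ 0)) := by
      rw [h0]; exact not_lt.mp hr
    obtain ⟨a, b, hab, hB⟩ := binEnd_of_rank hm hT hγ hK hrank
    obtain ⟨t₀, ht₀, hmem⟩ := mem_Ncol hm hab hT hγ hB
    obtain ⟨q, hq1, hq2⟩ := exists_rat_btwn ht₀.2
    simp only [mem_iUnion]
    refine ⟨a, b, hab, q, ht₀.1.trans hq1.le, γ, h0, ?_, hmem q ⟨hq1.le, hq2⟩⟩
    intro t ht
    exact hγ t ⟨ht.1, ht.2.trans_lt hq2⟩
  refine measure_mono_null hsub (measure_union_null (generic_rank hN hNd hm) ?_)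
  refine measure_iUnion_null fun a => measure_iUnion_null fun b => measure_iUnion_null fun hab => ?_
  exact null_of_reach volume (isOpen_freeSet (N := N) (d := d)) (contDiffOn_nfield (m := m))
    (Ncol_null hd hab)

end HDN
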