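import Mathlib
import Pool.Agent.HDN.Defs

/-!
# Time reversal (project HDN)
-/

open MeasureTheory Set Filter Topology Metric
open scoped NNReal ENNReal RealInnerProductSpace

namespace HDN

variable {N d : ℕ} {m : Fin N → ℝ}

/-- time reversal: `t ↦ (q (-t), -v (-t))` -/
theorem sol_reverse {x : Ph N d}
    (h : ∃ γ : ℝ → Ph N d, γ 0 = (x.1, -x.2) ∧ SolOn (nfield m) (FreeSet N d) γ (Ici 0)) :
    ∃ γ : ℝ → Ph N d, γ 0 = x ∧ SolOn (nfield m) (FreeSet N d) γ (Iic 0) := by
  obtain ⟨γ, h0, hs⟩ := h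
  refine ⟨fun t => ((γ (-t)).1, -(γ (-t)).2), ?_, ?_⟩
  · change ((γ (-0)).1, -(γ (-0)).2) = x
    rw [neg_zero, h0]
    simp
  · intro t ht
    have ht' : -t ∈ Ici (0 : ℝ) := by
      rw [mem_Ici]; rw [mem_Iic] at ht; linarith
    obtain ⟨hF, hd⟩ := hs (-t) ht'
    refine ⟨hF, ?_⟩
    have h1 : HasDerivAt (fun s : ℝ => γ (-s)) (-(nfield m (γ (-t)))) t := by
      have h2 := HasDerivAt.scomp t hd (hasDerivAt_neg t)
      simpa [Function.comp_def] using h2
    have h3 : HasDerivAt (fun s : ℝ => (γ (-s)).1) (-(nfield m (γ (-t)))).1 t := h1.fst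
    have h4 : HasDerivAt (fun s : ℝ => (γ (-s)).2) (-(nfield m (γ (-t)))).2 t := h1.snd
    have h5 := h3.prodMk h4.neg
    have h6 : (((-(nfield m (γ (-t)))).1, -(-(nfield m (γ (-t)))).2) : Ph N d) =
        nfield m ((γ (-t)).1, -(γ (-t)).2) := by
      unfold nfield
      ext1
      · simp
      · simp
    rw [h6] at h5
    exact h5

/-- the reversal of velocities preserves null sets -/
theorem null_reverse {S : Set (Ph N d)} (hS : volume S = 0) :
    volume {x : Ph N d | (x.1, -x.2) ∈ S} = 0 := by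
  haveI : (volume : Measure (Cf N d)).IsNegInvariant := Measure.pi.isNegInvariant _
  have h1 : MeasurePreserving (fun v : Cf N d => -v) (volume : Measure (Cf N d)) volume :=
    Measure.measurePreserving_neg _
  have h2 : MeasurePreserving (Prod.map (fun q : Cf N d => q) (fun v : Cf N d => -v))
      (volume : Measure (Ph N d)) volume :=
    (MeasurePreserving.id (volume : Measure (Cf N d))).prod h1
  exact h2.quasiMeasurePreserving.preimage_null hS

end HDN
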