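import Mathlib
import Pool.Agent.HDN.Defs

/-!
# Gluing a forward and a backward solution (project HDN)

`γ t = if 0 ≤ t then γ₁ t else γ₂ t`; at `t = 0` combine the one-sided derivatives
(`HasDerivWithinAt.union`, `hasDerivWithinAt_univ`).
-/

open MeasureTheory Set Filter Topology Metric
open scoped NNReal ENNReal RealInnerProductSpace

namespace HDN

variable {V : Type*} [NormedAddCommGroup V] [NormedSpace ℝ V]

/-- gluing a forward and a backward solution -/
theorem sol_univ_of_forward_backward {f : V → V} {Ω : Set V} {x : V} {γ₁ γ₂ : ℝ → V}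
    (h1 : γ₁ 0 = x) (h1' : SolOn f Ω γ₁ (Ici 0)) (h2 : γ₂ 0 = x) (h2' : SolOn f Ω γ₂ (Iic 0)) :
    ∃ γ : ℝ → V, γ 0 = x ∧ SolOn f Ω γ univ := by
  classical
  refine ⟨fun t => if 0 ≤ t then γ₁ t else γ₂ t, ?_, ?_⟩
  · simp [h1]
  · intro t _
    rcases lt_trichotomy t 0 with ht | ht | ht
    · have e : (fun t => if 0 ≤ t then γ₁ t else γ₂ t) =ᶠ[𝓝 t] γ₂ := by
        filter_upwards [Iio_mem_nhds ht] with s hs
        exact if_neg (not_le.mpr hs)
      have ev : (if 0 ≤ t then γ₁ t else γ₂ t) = γ₂ t := if_neg (not_le.mpr ht)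
      have h := h2' t (le_of_lt ht)
      refine ⟨?_, ?_⟩
      · show (if 0 ≤ t then γ₁ t else γ₂ t) ∈ Ω
        rw [ev]
        exact h.1
      · show HasDerivAt (fun t => if 0 ≤ t then γ₁ t else γ₂ t)
          (f (if 0 ≤ t then γ₁ t else γ₂ t)) t
        rw [ev]
        exact h.2.congr_of_eventuallyEq e
    · subst ht
      have hr := h1' 0 (mem_Ici.mpr le_rfl)
      have hl := h2' 0 (mem_Iic.mpr le_rfl)
      have ev : (if (0 : ℝ) ≤ 0 then γ₁ 0 else γ₂ 0) = x := by
        rw [if_pos le_rfl, h1]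
      refine ⟨?_, ?_⟩
      · show (if (0 : ℝ) ≤ 0 then γ₁ 0 else γ₂ 0) ∈ Ω
        rw [ev, ← h1]
        exact hr.1
      · show HasDerivAt (fun t => if 0 ≤ t then γ₁ t else γ₂ t)
          (f (if (0 : ℝ) ≤ 0 then γ₁ 0 else γ₂ 0)) 0
        rw [ev]
        have hr2 : HasDerivWithinAt (fun t => if 0 ≤ t then γ₁ t else γ₂ t) (f x) (Ici 0) 0 := by
          have := hr.2.hasDerivWithinAt (s := Ici 0)
          rw [h1] at this
          refine this.congr (fun s hs => if_pos hs) (if_pos le_rfl)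
        have hl2 : HasDerivWithinAt (fun t => if 0 ≤ t then γ₁ t else γ₂ t) (f x) (Iic 0) 0 := by
          have := hl.2.hasDerivWithinAt (s := Iic 0)
          rw [h2] at this
          refine this.congr (fun s hs => ?_) ?_
          · rcases (mem_Iic.mp hs).lt_or_eq with hs | hs
            · exact if_neg (not_le.mpr hs)
            · subst hs
              show (if (0 : ℝ) ≤ 0 then γ₁ 0 else γ₂ 0) = γ₂ 0
              rw [ev, h2]
          · show (if (0 : ℝ) ≤ 0 then γ₁ 0 else γ₂ 0) = γ₂ 0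
            rw [ev, h2]
        have := hr2.union hl2
        rw [Ici_union_Iic] at this
        exact hasDerivWithinAt_univ.mp this
    · have e : (fun t => if 0 ≤ t then γ₁ t else γ₂ t) =ᶠ[𝓝 t] γ₁ := by
        filter_upwards [Ioi_mem_nhds ht] with s hs
        exact if_pos (le_of_lt hs)
      have ev : (if 0 ≤ t then γ₁ t else γ₂ t) = γ₁ t := if_pos (le_of_lt ht)
      have h := h1' t (le_of_lt ht)
      refine ⟨?_, ?_⟩
      · show (if 0 ≤ t then γ₁ t else γ₂ t) ∈ Ω
        rw [ev]
        exact h.1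
      · show HasDerivAt (fun t => if 0 ≤ t then γ₁ t else γ₂ t)
          (f (if 0 ≤ t then γ₁ t else γ₂ t)) t
        rw [ev]
        exact h.2.congr_of_eventuallyEq e

end HDN
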