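import Mathlib
import Pool.Agent.HDN.FinB
import Pool.Agent.HDN.FinC
import Pool.Agent.HDN.Glue

/-!
# Final assembly (project HDN)

`incomplete ⊆ {x | no forward solution} ∪ {x | (x.1, -x.2) has no forward solution}`.
-/

open MeasureTheory Set Filter Topology Metric
open scoped NNReal ENNReal RealInnerProductSpace

namespace HDN

variable {N d : ℕ} {m : Fin N → ℝ}

theorem incomplete_null (hN : 2 ≤ N) (hd : 3 ≤ d) (hNd : 2 * N ≤ d + 4) (hm : ∀ i, 0 < m i) :
    volume (incomplete m : Set (Ph N d)) = 0 := by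
  have h1 := forward_null (N := N) (d := d) (m := m) hN hd hNd hm
  have h2 := null_reverse h1
  refine measure_mono_null ?_ (measure_union_null h1 h2)
  intro x hx
  obtain ⟨hx1, hx2⟩ := hx
  by_cases hf : ∃ γ : ℝ → Ph N d, γ 0 = x ∧ SolOn (nfield m) (FreeSet N d) γ (Ici 0)
  · right
    refine ⟨hx1, fun hb => hx2 ?_⟩
    obtain ⟨γ₁, h3, h4⟩ := hf
    obtain ⟨γ₂, h5, h6⟩ := sol_reverse hb
    exact sol_univ_of_forward_backward h3 h4 h5 h6
  · exact Or.inl ⟨hx1, hf⟩

end HDN
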