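import Mathlib
import Pool.Agent.HDN.Phys
import Pool.Agent.HDN.SingA
import Pool.Agent.HDN.MaxSol
import Pool.Agent.HDN.FinA
import Pool.Agent.HDN.BinB

/-!
# The limit configuration at a binary collision (project HDN)
-/

open MeasureTheory Set Filter Topology Metric
open scoped NNReal ENNReal RealInnerProductSpace

namespace HDN

variable {N d : ℕ} {m : Fin N → ℝ}

/-- a curve with bounded derivative on `[t₀, T)` has a limit at `T` -/
theorem tendsto_of_deriv_bdd {V : Type*} [NormedAddCommGroup V] [NormedSpace ℝ V]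
    [CompleteSpace V] {f f' : ℝ → V} {t₀ T C : ℝ} (hT : t₀ < T)
    (hf : ∀ t ∈ Ico t₀ T, HasDerivAt f (f' t) t) (hC : ∀ t ∈ Ico t₀ T, ‖f' t‖ ≤ C) :
    ∃ l, Tendsto f (𝓝[<] T) (𝓝 l) := by
  have hCnn : 0 ≤ C := (norm_nonneg _).trans (hC t₀ ⟨le_rfl, hT⟩)
  have hlip : ∀ s ∈ Ico t₀ T, ∀ t ∈ Ico t₀ T, ‖f t - f s‖ ≤ C * ‖t - s‖ := by
    intro s hs t ht
    exact (convex_Ico t₀ T).norm_image_sub_le_of_norm_hasDerivWithin_le
      (fun x hx => (hf x hx).hasDerivWithinAt) hC hs ht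
  have hcau : Cauchy (map f (𝓝[<] T)) := by
    rw [Metric.cauchy_iff]
    refine ⟨inferInstance, fun ε hε => ?_⟩
    set δ : ℝ := ε / (C + 1) with hδ
    have hδ0 : 0 < δ := by positivity
    have hmem : Ioo (max t₀ (T - δ)) T ∈ 𝓝[<] T := Ioo_mem_nhdsLT (max_lt hT (by linarith))
    refine ⟨f '' Ioo (max t₀ (T - δ)) T, image_mem_map hmem, ?_⟩
    rintro _ ⟨s, hs, rfl⟩ _ ⟨t, ht, rfl⟩
    have hs' : s ∈ Ico t₀ T := ⟨((le_max_left _ _).trans_lt hs.1).le, hs.2⟩
    have ht' : t ∈ Ico t₀ T := ⟨((le_max_left _ _).trans_lt ht.1).le, ht.2⟩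
    have h1 : T - δ < s := (le_max_right _ _).trans_lt hs.1
    have h2 : T - δ < t := (le_max_right _ _).trans_lt ht.1
    have h3 : ‖s - t‖ < δ := by
      rw [Real.norm_eq_abs, abs_lt]
      constructor <;> linarith [hs.2, ht.2]
    rw [dist_eq_norm]
    calc ‖f s - f t‖ ≤ C * ‖s - t‖ := hlip t ht' s hs'
      _ ≤ C * δ := by gcongr
      _ < ε := by
        rw [hδ, mul_div_assoc', div_lt_iff₀ (by positivity)]
        nlinarith
  exact CompleteSpace.complete hcau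

/-- At a binary end all positions converge, and in the limit exactly the two bodies `a`, `b`
collide. -/
theorem binEnd_limit (hm : ∀ i, 0 < m i) {γ : ℝ → Ph N d} {T : ℝ}
    (hγ : SolOn (nfield m) (FreeSet N d) γ (Ico 0 T)) {a b : Fin N} (hab : a ≠ b)
    (hB : BinEnd m a b γ T) :
    ∃ p : Cf N d, Tendsto (fun t => (γ t).1) (𝓝[<] T) (𝓝 p) ∧ p a = p b ∧
      ∀ i j, i ≠ j → ¬ (i = a ∧ j = b) → ¬ (i = b ∧ j = a) → p i ≠ p j := by
  obtain ⟨t₀, ht₀, δ, hδ, C, hbd, hlim⟩ := hB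
  have hpos : ∀ i, ∀ t ∈ Ico t₀ T, HasDerivAt (fun s => (γ s).1 i) ((γ t).2 i) t := by
    intro i t ht
    have h1 := (hγ t ⟨ht₀.1.trans ht.1, ht.2⟩).2
    have h2 : HasDerivAt (fun s => (γ s).1) (γ t).2 t := h1.fst
    exact (hasDerivAt_pi.1 h2) i
  have hcm : ∃ l, Tendsto (fun t => cm m a b (γ t).1) (𝓝[<] T) (𝓝 l) := by
    refine tendsto_of_deriv_bdd (f' := fun t => cm m a b (γ t).2) (C := C) ht₀.2 ?_ ?_
    · intro t ht
      exact (((hpos a t ht).const_smul (m a)).add ((hpos b t ht).const_smul (m b))).const_smul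
        (m a + m b)⁻¹
    · intro t ht
      exact (hbd t ht).2.2.2.1
  obtain ⟨l, hl⟩ := hcm
  have hzero : Tendsto (fun t => (γ t).1 a - (γ t).1 b) (𝓝[<] T) (𝓝 0) :=
    tendsto_zero_iff_norm_tendsto_zero.2 hlim
  have hM : m a + m b ≠ 0 := by have := hm a; have := hm b; positivity
  have ha : Tendsto (fun t => (γ t).1 a) (𝓝[<] T) (𝓝 l) := by
    have h1 : Tendsto (fun t => cm m a b (γ t).1 + (m b / (m a + m b)) • ((γ t).1 a - (γ t).1 b))
        (𝓝[<] T) (𝓝 (l + (m b / (m a + m b)) • (0 : Sp d))) := hl.add (hzero.const_smul _)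
    rw [smul_zero, add_zero] at h1
    refine h1.congr fun t => ?_
    unfold cm
    rw [smul_sub, smul_add, smul_smul, smul_smul]
    have : (γ t).1 a = ((m a + m b)⁻¹ * m a + m b / (m a + m b)) • (γ t).1 a := by
      rw [show (m a + m b)⁻¹ * m a + m b / (m a + m b) = 1 by field_simp, one_smul]
    conv_rhs => rw [this]
    rw [add_smul, show (m a + m b)⁻¹ * m b = m b / (m a + m b) by field_simp]
    abel
  have hb : Tendsto (fun t => (γ t).1 b) (𝓝[<] T) (𝓝 l) := by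
    have h1 := ha.sub hzero
    rw [sub_zero] at h1
    refine h1.congr fun t => ?_
    abel
  have hex : ∀ i, ∃ l, Tendsto (fun t => (γ t).1 i) (𝓝[<] T) (𝓝 l) := by
    intro i
    by_cases hia : i = a
    · exact ⟨l, hia ▸ ha⟩
    by_cases hib : i = b
    · exact ⟨l, hib ▸ hb⟩
    have hi : i ∈ others a b := by
      simp [others, hia, hib]
    exact tendsto_of_deriv_bdd (C := C) ht₀.2 (hpos i) (fun t ht => (hbd t ht).2.2.1 i hi)
  choose p hp using hex
  have hT : (𝓝[<] T).NeBot := inferInstance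
  refine ⟨p, tendsto_pi_nhds.2 hp, ?_, ?_⟩
  · rw [tendsto_nhds_unique (hp a) ha, tendsto_nhds_unique (hp b) hb]
  · intro i j hij h1 h2 heq
    have h3 : Tendsto (fun t => ‖(γ t).1 i - (γ t).1 j‖) (𝓝[<] T) (𝓝 ‖p i - p j‖) :=
      ((hp i).sub (hp j)).norm
    rw [heq, sub_self, norm_zero] at h3
    have h4 : ∀ᶠ t in 𝓝[<] T, δ ≤ ‖(γ t).1 i - (γ t).1 j‖ := by
      filter_upwards [Ioo_mem_nhdsLT ht₀.2] with t ht
      exact (hbd t ⟨ht.1.le, ht.2⟩).1 i j hij h1 h2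
    have h5 := ge_of_tendsto h3 h4
    linarith

/-- only the bodies `a` and `b` are at the same place -/
def OnlyCollision (a b : Fin N) (p : Cf N d) : Prop :=
  p a = p b ∧ ∀ i j, i ≠ j → ¬ (i = a ∧ j = b) → ¬ (i = b ∧ j = a) → p i ≠ p j

/-- as `t → T` all positions converge, and in the limit exactly two bodies collide -/
def BinaryLimit (γ : ℝ → Ph N d) (T : ℝ) : Prop :=
  ∃ (a b : Fin N) (p : Cf N d), a ≠ b ∧ Tendsto (fun t => (γ t).1) (𝓝[<] T) (𝓝 p) ∧
    OnlyCollision a b p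

/-- `γ` is a solution on `S` with initial state `x` -/
def SolFrom (m : Fin N → ℝ) (x : Ph N d) (γ : ℝ → Ph N d) (S : Set ℝ) : Prop :=
  γ 0 = x ∧ SolOn (nfield m) (FreeSet N d) γ S

/-- Dichotomy: a state whose angular momentum has rank at least `2 N - 4` either has a solution for
all positive times, or the solution ends in a collision of exactly two bodies. -/
theorem dichotomy (hm : ∀ i, 0 < m i) {x : Ph N d} (hx : Free x.1)
    (hr : 2 * N - 4 ≤ lrank (Lop m x)) :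
    (∃ γ : ℝ → Ph N d, SolFrom m x γ (Ici 0)) ∨
    ∃ T > 0, ∃ γ : ℝ → Ph N d, SolFrom m x γ (Ico 0 T) ∧ BinaryLimit γ T := by
  rcases exists_maximal (isOpen_freeSet (N := N) (d := d)) (contDiffOn_nfield (m := m))
      (show x ∈ FreeSet N d from hx) with h | ⟨T, hT, γ, h0, hγ, hK⟩
  · exact Or.inl h
  · right
    have hrank : 2 * N - 4 ≤ lrank (Lop m (γ 0)) := by rw [h0]; exact hr
    obtain ⟨a, b, hab, hB⟩ := binEnd_of_rank hm hT hγ hK hrank
    obtain ⟨p, h1, h2, h3⟩ := binEnd_limit hm hγ hab hB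
    exact ⟨T, hT, γ, ⟨h0, hγ⟩, a, b, p, hab, h1, h2, h3⟩

end HDN
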