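import Mathlib
import Pool.Agent.HDN.Phys
import Pool.Agent.HDN.Limit

/-!
# The angular momentum as a matrix (project HDN)
-/

open MeasureTheory Set Filter Topology Metric
open scoped NNReal ENNReal RealInnerProductSpace

namespace HDN

variable {N d : ℕ} {m : Fin N → ℝ}

/-- `x_i w_j - x_j w_i` -/
def wdg (x w : Sp d) (i j : Fin d) : ℝ := x i * w j - x j * w i

/-- the angular momentum with respect to the centre of mass, as a skew matrix -/
noncomputable def Lmat (m : Fin N → ℝ) (x : Ph N d) : Matrix (Fin d) (Fin d) ℝ := fun i j =>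
  ∑ a, m a * wdg (x.1 a) (x.2 a) i j -
    (∑ a, m a)⁻¹ * wdg (∑ a, m a • x.1 a) (∑ a, m a • x.2 a) i j

theorem wedge_coord (x w z : Sp d) (i : Fin d) : (wedge x w z) i = ∑ j, wdg x w i j * z j := by
  have h1 : ⟪w, z⟫ = ∑ j, w j * z j := by
    simp [PiLp.inner_apply, mul_comm]
  have h2 : ⟪x, z⟫ = ∑ j, x j * z j := by
    simp [PiLp.inner_apply, mul_comm]
  rw [wedge_apply]
  simp only [PiLp.sub_apply, PiLp.smul_apply, smul_eq_mul, h1, h2, wdg]
  rw [Finset.sum_mul, Finset.sum_mul, ← Finset.sum_sub_distrib]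
  refine Finset.sum_congr rfl fun j _ => ?_
  ring

theorem Lop_coord (x : Ph N d) (z : Sp d) (i : Fin d) :
    (Lop m x z) i = ∑ j, Lmat m x i j * z j := by
  have h : (Lop m x z) i = ∑ a, m a * (wedge (x.1 a) (x.2 a) z) i -
      (∑ a, m a)⁻¹ * (wedge (∑ a, m a • x.1 a) (∑ a, m a • x.2 a) z) i := by
    unfold Lop
    simp [ContinuousLinearMap.sum_apply]
  rw [h, wedge_coord]
  simp only [wedge_coord, Lmat, sub_mul, Finset.sum_sub_distrib, Finset.mul_sum]
  congr 1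
  · rw [Finset.sum_comm]
    refine Finset.sum_congr rfl fun j _ => ?_
    rw [Finset.sum_mul]
    refine Finset.sum_congr rfl fun a _ => ?_
    ring
  · refine Finset.sum_congr rfl fun j _ => ?_
    ring

theorem lrank_eq (x : Ph N d) : lrank (Lop m x) = (Lmat m x).rank := by
  have e : Sp d ≃ₗ[ℝ] (Fin d → ℝ) := (EuclideanSpace.equiv (Fin d) ℝ).toLinearEquiv
  set e : Sp d ≃ₗ[ℝ] (Fin d → ℝ) := (EuclideanSpace.equiv (Fin d) ℝ).toLinearEquiv with he
  have hcomp : (Lmat m x).mulVecLin ∘ₗ (e : Sp d →ₗ[ℝ] (Fin d → ℝ)) =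
      (e : Sp d →ₗ[ℝ] (Fin d → ℝ)) ∘ₗ (Lop m x : Sp d →ₗ[ℝ] Sp d) := by
    ext z i
    have h1 := Lop_coord (m := m) x z i
    simp only [LinearMap.comp_apply, Matrix.mulVecLin_apply, Matrix.mulVec, dotProduct]
    exact h1.symm
  unfold lrank Matrix.rank
  have h2 : LinearMap.range (Lmat m x).mulVecLin =
      Submodule.map (e : Sp d →ₗ[ℝ] (Fin d → ℝ)) (LinearMap.range (Lop m x : Sp d →ₗ[ℝ] Sp d)) := by
    rw [← LinearMap.range_comp, ← hcomp, LinearMap.range_comp, LinearEquiv.range, Submodule.map_top]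
  rw [h2]
  exact (LinearEquiv.finrank_map_eq e _).symm

theorem dichotomy' (hm : ∀ i, 0 < m i) {x : Ph N d} (hx : Free x.1)
    (hr : 2 * N - 4 ≤ (Lmat m x).rank) :
    (∃ γ : ℝ → Ph N d, SolFrom m x γ (Ici 0)) ∨
    ∃ T > 0, ∃ γ : ℝ → Ph N d, SolFrom m x γ (Ico 0 T) ∧ BinaryLimit γ T :=
  dichotomy hm hx (by rw [lrank_eq]; exact hr)

end HDN
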